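import Pool.Agent.CRD.D1.AFC

open CategoryTheory Opposite Limits Pretriangulated

namespace Pool.CRD.D1

namespace AF1_

open AFC_

/-- the maximal charts -/
def vv (t : Bool × Bool) : Ch2 := ⟨Cov.one t.1, Cov.one t.2⟩

lemma exists_one (s : Cov Bool) : ∃ b, s ≤ Cov.one b := by
  obtain ⟨b, hb⟩ := s.ne
  exact ⟨b, Finset.singleton_subset_iff.2 hb⟩

end AF1_

open AFC_ AF1_ in
theorem af1_proof : Stmt_AF1 := by
  intro K _ c₁ c₂ S X t ht
  let d₁ : DirD c₁ Ch2 (Bool × Bool) vv := AFC_.cst c₁ vv t ht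
  let d₂ : DirD c₂ Ch2 (Bool × Bool) vv :=
    free c₂ vv (fun s => s.i) (fun _ _ => rfl) (fun t => t.1) (fun _ => rfl)
  let r : Bool × Bool → Bool := fun t => t.2
  let ρ : c₁.A t →ₐ[K] X.E := (X.ofL.comp S.e₁).comp (c₁.A t).val
  have key : ∀ i j, gX X d₁ d₂ r j / gX X d₁ d₂ r i ∈ Algebra.adjoin K
      (Set.range ρ ∪ Set.range (fun j => gX X d₁ d₂ r j / gX X d₁ d₂ r i)) :=
    fun i j => Algebra.subset_adjoin (Or.inr ⟨j, rfl⟩)
  have hmain := fun h0 h1 h2 hq => main X d₁ d₂ (fun s => s.j) r (fun _ _ => rfl) (fun _ => rfl) h0 (c₁.A t)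
    ρ (fun b V => X.mem_of_S (S.e₁_mem V.i b.2)) h1 h2 hq
  refine Exists.elim (hmain ?_ ?_ ?_ ?_) ?_
  rotate_right
  · rintro a ⟨-, ha⟩
    refine ⟨a, fun b => ?_⟩
    rw [ha]
    rfl
  · intro V
    obtain ⟨b, hb⟩ := exists_one V.i
    obtain ⟨b', hb'⟩ := exists_one V.j
    exact ⟨(b, b'), hb, hb'⟩
  · intro i f hf
    have h : al X f ∈ Algebra.adjoin K
        (Set.range ρ ∪ Set.range (fun j => gX X d₁ d₂ r j / gX X d₁ d₂ r i)) :=
      Algebra.subset_adjoin (Or.inl ⟨⟨f, hf⟩, rfl⟩)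
    exact isIntegral_algebraMap (R := Algebra.adjoin K
        (Set.range ρ ∪ Set.range (fun j => gX X d₁ d₂ r j / gX X d₁ d₂ r i))) (A := X.E)
        (x := ⟨_, h⟩)
  · intro i f hf
    refine int_free c₂ (X.ofL.comp S.e₂) _ i.1 ?_ f hf
    have h4 := key i (!i.1, i.2)
    convert h4 using 1
    change _ = (X.ofL (S.e₁ 1 * S.e₂ (cW c₂ (!i.1))) * QQ X i.2) /
      (X.ofL (S.e₁ 1 * S.e₂ (cW c₂ i.1)) * QQ X i.2)
    rw [mdm, mul_div_map, div_self one_ne_zero, map_one, one_mul, div_self (QQ_ne X _), mul_one]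
    rfl
  · intro i
    have h4 := key i (i.1, !i.2)
    convert h4 using 1
    change _ = (X.ofL (S.e₁ 1 * S.e₂ (cW c₂ i.1)) * QQ X (!i.2)) /
      (X.ofL (S.e₁ 1 * S.e₂ (cW c₂ i.1)) * QQ X i.2)
    rw [mdm, mul_div_map, div_self one_ne_zero, div_self (cW_ne c₂ _), map_one, map_one, one_mul,
      map_one, one_mul]
    change (if i.2 = true then (q X)⁻¹ else q X) = _
    cases i.2
    · rw [Bool.not_false, QQ_t, QQ_f, div_one]
      simp
    · rw [Bool.not_true, QQ_t, QQ_f, one_div]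
      simp

end Pool.CRD.D1
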