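import Pool.Agent.CRD.D1.StmtsB

/-!
# CRD, area D1: common part of the modules AFS, AFX, AF1, AF2
-/

open CategoryTheory Opposite Limits Pretriangulated

namespace Pool.CRD.D1

namespace AFC_

section curve

variable {K : Type} [Field K] (c : CurveData K)

/-- generator of the line bundle on the charts of the curve -/
noncomputable def cl (s : Cov Bool) : c.F := if false ∈ s.s then 1 else c.w

/-- the two sections of the line bundle -/
noncomputable def cW (b : Bool) : c.F := if b = true then c.w else 1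

lemma cl_ca : cl c ca = 1 := by simp [cl, ca, Cov.one]
lemma cl_cb : cl c cb = c.w := by simp [cl, cb, Cov.one]
lemma cl_cab : cl c cab = 1 := by simp [cl, cab]
lemma cW_f : cW c false = 1 := by simp [cW]
lemma cW_t : cW c true = c.w := by simp [cW]

lemma cl_ne (s : Cov Bool) : cl c s ≠ 0 := by
  rcases cov_bool_cases s with rfl | rfl | rfl
  · rw [cl_ca]; exact one_ne_zero
  · rw [cl_cb]; exact c.w_ne
  · rw [cl_cab]; exact one_ne_zero

lemma cW_ne (b : Bool) : cW c b ≠ 0 := by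
  cases b
  · rw [cW_f]; exact one_ne_zero
  · rw [cW_t]; exact c.w_ne

lemma w_cab : c.w ∈ c.A cab := c.mono (cab_le ca) c.w_mem
lemma winv_cab : c.w⁻¹ ∈ c.A cab := c.mono (cab_le cb) c.winv_mem

lemma le_cases {U V : Cov Bool} (h : V ≤ U) : V = U ∨ V = cab := by
  rcases cov_bool_cases V with rfl | rfl | rfl
  · left
    rcases cov_bool_cases U with rfl | rfl | rfl
    · rfl
    · exact absurd h not_ca_le_cb
    · exact le_antisymm h (cab_le _)
  · left
    rcases cov_bool_cases U with rfl | rfl | rfl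
    · exact absurd h not_cb_le_ca
    · rfl
    · exact le_antisymm h (cab_le _)
  · right; rfl

lemma cl_div {U V : Cov Bool} (h : V ≤ U) :
    cl c U / cl c V ∈ c.A V ∧ cl c V / cl c U ∈ c.A V := by
  rcases le_cases h with rfl | rfl
  · rw [div_self (cl_ne c _)]
    exact ⟨one_mem _, one_mem _⟩
  · rcases cov_bool_cases U with rfl | rfl | rfl
    · rw [cl_ca, cl_cab, div_one]
      exact ⟨one_mem _, one_mem _⟩
    · rw [cl_cb, cl_cab, div_one, one_div]
      exact ⟨w_cab c, winv_cab c⟩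
    · rw [cl_cab, div_one]
      exact ⟨one_mem _, one_mem _⟩

lemma cW_mem (b : Bool) (s : Cov Bool) : cW c b / cl c s ∈ c.A s := by
  rcases cov_bool_cases s with rfl | rfl | rfl <;> cases b
  · rw [cW_f, cl_ca, div_one]; exact one_mem _
  · rw [cW_t, cl_ca, div_one]; exact c.w_mem
  · rw [cW_f, cl_cb, one_div]; exact c.winv_mem
  · rw [cW_t, cl_cb, div_self c.w_ne]; exact one_mem _
  · rw [cW_f, cl_cab, div_one]; exact one_mem _
  · rw [cW_t, cl_cab, div_one]; exact w_cab c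

lemma cinv_mem (b : Bool) (s : Cov Bool) : cl c s / cW c b ∈ c.A (s ⊓ Cov.one b) := by
  have e1 : Cov.one false = ca := rfl
  have e2 : Cov.one true = cb := rfl
  rcases cov_bool_cases s with rfl | rfl | rfl <;> cases b
  · rw [cW_f, cl_ca, div_one]; exact one_mem _
  · rw [cW_t, cl_ca, one_div, e2, ca_inf_cb]; exact winv_cab c
  · rw [cW_f, cl_cb, div_one, e1, cb_inf_ca]; exact w_cab c
  · rw [cW_t, cl_cb, div_self c.w_ne]; exact one_mem _
  · rw [cW_f, cl_cab, div_one]; exact one_mem _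
  · rw [cW_t, cl_cab, one_div, cab_inf]; exact winv_cab c

lemma cloc (b : Bool) (s : Cov Bool) {z : c.F} (hz : z ∈ c.A (s ⊓ Cov.one b)) :
    ∃ n : ℕ, (cW c b / cl c s) ^ n * z ∈ c.A s := by
  have e1 : Cov.one false = ca := rfl
  have e2 : Cov.one true = cb := rfl
  rcases cov_bool_cases s with rfl | rfl | rfl <;> cases b
  · rw [e1, inf_idem] at hz
    exact ⟨0, by simpa using hz⟩
  · rw [e2, ca_inf_cb] at hz
    obtain ⟨n, hn⟩ := c.exists_mul_mem ca hz
    refine ⟨n, ?_⟩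
    rw [cW_t, cl_ca, div_one, mul_comm, ← CurveData.v_ca]
    exact hn
  · rw [e1, cb_inf_ca] at hz
    obtain ⟨n, hn⟩ := c.exists_mul_mem cb hz
    refine ⟨n, ?_⟩
    rw [cW_f, cl_cb, one_div, mul_comm, ← CurveData.v_cb]
    exact hn
  · rw [e2, inf_idem] at hz
    exact ⟨0, by simpa using hz⟩
  · rw [cab_inf] at hz
    exact ⟨0, by simpa using hz⟩
  · rw [cab_inf] at hz
    exact ⟨0, by simpa using hz⟩

/-- the part of the data of `AmpF` coming from one curve -/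
structure DirD (C ι : Type) [SemilatticeInf C] (v : ι → C) where
  s : C → Cov Bool
  mono : ∀ V W, W ≤ V → s W ≤ s V
  lam : C → c.F
  lam_ne : ∀ V, lam V ≠ 0
  lam_div : ∀ V W, W ≤ V → lam V / lam W ∈ c.A (s W) ∧ lam W / lam V ∈ c.A (s W)
  W : ι → c.F
  W_ne : ∀ i, W i ≠ 0
  W_mem : ∀ i V, W i / lam V ∈ c.A (s V)
  inv_mem : ∀ i V, lam V / W i ∈ c.A (s (V ⊓ v i))
  loc : ∀ i V, ∀ z ∈ c.A (s (V ⊓ v i)), ∃ n : ℕ, (W i / lam V) ^ n * z ∈ c.A (s V)
  fg : ∀ i, (c.A (s (v i))).FG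

/-- the variable direction -/
noncomputable def free {C ι : Type} [SemilatticeInf C] (v : ι → C) (p : C → Cov Bool)
    (hp : ∀ V W, p (V ⊓ W) = p V ⊓ p W) (r : ι → Bool) (hv : ∀ i, p (v i) = Cov.one (r i)) :
    DirD c C ι v where
  s := p
  mono V W h := by
    have h1 := hp V W
    rw [inf_eq_right.2 h] at h1
    exact inf_eq_right.1 h1.symm
  lam V := cl c (p V)
  lam_ne V := cl_ne c _
  lam_div V W h := by
    have h1 := hp V W
    rw [inf_eq_right.2 h] at h1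
    exact cl_div c (inf_eq_right.1 h1.symm)
  W i := cW c (r i)
  W_ne i := cW_ne c _
  W_mem i V := cW_mem c _ _
  inv_mem i V := by
    rw [hp, hv]
    exact cinv_mem c _ _
  loc i V z hz := by
    rw [hp, hv] at hz
    exact cloc c _ _ hz
  fg i := by
    rw [hv]
    cases r i
    · exact c.fg_a
    · exact c.fg_b

/-- the constant direction -/
noncomputable def cst {C ι : Type} [SemilatticeInf C] (v : ι → C) (t : Cov Bool)
    (ht : t = ca ∨ t = cb) : DirD c C ι v where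
  s _ := t
  mono _ _ _ := le_rfl
  lam _ := 1
  lam_ne _ := one_ne_zero
  lam_div _ _ _ := by
    rw [div_one]
    exact ⟨one_mem _, one_mem _⟩
  W _ := 1
  W_ne _ := one_ne_zero
  W_mem _ _ := by
    rw [div_one]
    exact one_mem _
  inv_mem _ _ := by
    rw [div_one]
    exact one_mem _
  loc _ _ z hz := ⟨0, by simpa using hz⟩
  fg _ := by
    rcases ht with rfl | rfl
    · exact c.fg_a
    · exact c.fg_b

/-- integrality of the functions on a maximal chart over a ring which contains `W_{!b} / W_b` -/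
lemma int_free {L : Type} [Field L] [Algebra K L] (φ : c.F →ₐ[K] L) (P : Subalgebra K L) (b : Bool)
    (h : φ (cW c (!b) / cW c b) ∈ P) (f : c.F) (hf : f ∈ c.A (Cov.one b)) : IsIntegral P (φ f) := by
  have key : ∀ u : c.F, φ u ∈ P → IsIntegral (Algebra.adjoin K {u}) f → IsIntegral P (φ f) := by
    intro u hu hi
    obtain ⟨p, hp, hp0⟩ := hi
    have hle : (Algebra.adjoin K {u}).map φ ≤ P := by
      rw [AlgHom.map_adjoin]
      apply Algebra.adjoin_le
      rintro _ ⟨t, ht, rfl⟩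
      rw [Set.mem_singleton_iff] at ht
      rw [ht]
      exact hu
    let ψ : Algebra.adjoin K {u} →+* P :=
      ((φ.comp (Algebra.adjoin K {u}).val).codRestrict P
        (fun t => hle ⟨t.1, t.2, rfl⟩)).toRingHom
    refine ⟨p.map ψ, hp.map ψ, ?_⟩
    rw [Polynomial.eval₂_map]
    have h1 : (algebraMap P L).comp ψ = φ.toRingHom.comp (algebraMap (Algebra.adjoin K {u}) c.F) := by
      ext t
      rfl
    rw [h1]
    have h2 := Polynomial.hom_eval₂ p (algebraMap (Algebra.adjoin K {u}) c.F) φ.toRingHom f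
    have h3 : φ.toRingHom f = φ f := rfl
    rw [h3] at h2
    rw [← h2, hp0, map_zero]
  cases b
  · apply key c.w
    · have h1 : cW c (!false) / cW c false = c.w := by
        simp [cW]
      rwa [h1] at h
    · exact c.int_a f hf
  · apply key c.w⁻¹
    · have h1 : cW c (!true) / cW c true = c.w⁻¹ := by
        simp [cW]
      rwa [h1] at h
    · exact c.int_b f hf

end curve

section surf

variable {K : Type} [Field K] {c₁ c₂ : CurveData K} (S : SurfData c₁ c₂)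
  {C ι : Type} [SemilatticeInf C] {v : ι → C} (d₁ : DirD c₁ C ι v) (d₂ : DirD c₂ C ι v)

/-- the line bundle on the surface -/
noncomputable def sl (V : C) : S.L := S.e₁ (d₁.lam V) * S.e₂ (d₂.lam V)

/-- its sections -/
noncomputable def sg (i : ι) : S.L := S.e₁ (d₁.W i) * S.e₂ (d₂.W i)

lemma sl_ne (V : C) : sl S d₁ d₂ V ≠ 0 :=
  mul_ne_zero ((map_ne_zero _).2 (d₁.lam_ne V)) ((map_ne_zero _).2 (d₂.lam_ne V))

lemma sg_ne (i : ι) : sg S d₁ d₂ i ≠ 0 :=
  mul_ne_zero ((map_ne_zero _).2 (d₁.W_ne i)) ((map_ne_zero _).2 (d₂.W_ne i))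

lemma mul_div_map (a b : c₁.F) (a' b' : c₂.F) :
    (S.e₁ a * S.e₂ a') / (S.e₁ b * S.e₂ b') = S.e₁ (a / b) * S.e₂ (a' / b') := by
  rw [map_div₀, map_div₀, mul_div_mul_comm]

lemma prod_mem {a : c₁.F} {a' : c₂.F} {s t : Cov Bool} (h : a ∈ c₁.A s) (h' : a' ∈ c₂.A t) :
    S.e₁ a * S.e₂ a' ∈ S.A s t := mul_mem (S.e₁_mem t h) (S.e₂_mem s h')

lemma sl_div {V W : C} (h : W ≤ V) :
    sl S d₁ d₂ V / sl S d₁ d₂ W ∈ S.A (d₁.s W) (d₂.s W) ∧
      sl S d₁ d₂ W / sl S d₁ d₂ V ∈ S.A (d₁.s W) (d₂.s W) := by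
  unfold sl
  rw [mul_div_map, mul_div_map]
  exact ⟨prod_mem S (d₁.lam_div V W h).1 (d₂.lam_div V W h).1,
    prod_mem S (d₁.lam_div V W h).2 (d₂.lam_div V W h).2⟩

lemma sg_mem (i : ι) (V : C) : sg S d₁ d₂ i / sl S d₁ d₂ V ∈ S.A (d₁.s V) (d₂.s V) := by
  unfold sl sg
  rw [mul_div_map]
  exact prod_mem S (d₁.W_mem i V) (d₂.W_mem i V)

lemma sinv_mem (i : ι) (V : C) :
    sl S d₁ d₂ V / sg S d₁ d₂ i ∈ S.A (d₁.s (V ⊓ v i)) (d₂.s (V ⊓ v i)) := by
  unfold sl sg
  rw [mul_div_map]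
  exact prod_mem S (d₁.inv_mem i V) (d₂.inv_mem i V)

/-- the elements which are in `A` after multiplication by a power of `g` -/
def locS {L : Type} [Field L] [Algebra K L] (A : Subalgebra K L) (g : L) (hg : g ∈ A) :
    Subalgebra K L where
  carrier := {x | ∃ n : ℕ, g ^ n * x ∈ A}
  mul_mem' := by
    rintro x y ⟨n, hn⟩ ⟨m, hm⟩
    refine ⟨n + m, ?_⟩
    have := mul_mem hn hm
    convert this using 1
    ring
  add_mem' := by
    rintro x y ⟨n, hn⟩ ⟨m, hm⟩
    refine ⟨n + m, ?_⟩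
    have h1 := mul_mem hn (pow_mem hg m)
    have h2 := mul_mem hm (pow_mem hg n)
    have := add_mem h1 h2
    convert this using 1
    ring
  algebraMap_mem' k := ⟨0, by simp⟩

lemma sloc (i : ι) (V : C) :
    S.A (d₁.s (V ⊓ v i)) (d₂.s (V ⊓ v i)) ≤
      locS (S.A (d₁.s V) (d₂.s V)) (sg S d₁ d₂ i / sl S d₁ d₂ V) (sg_mem S d₁ d₂ i V) := by
  refine sup_le ?_ ?_
  · rintro _ ⟨z, hz, rfl⟩
    obtain ⟨n, hn⟩ := d₁.loc i V z hz
    refine ⟨n, ?_⟩
    unfold sg sl
    rw [mul_div_map]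
    have h1 := prod_mem S hn (pow_mem (d₂.W_mem i V) n)
    convert h1 using 1
    rw [map_mul, map_pow, map_pow]
    change (S.e₁ _ * S.e₂ _) ^ n * S.e₁ z = _
    ring
  · rintro _ ⟨z, hz, rfl⟩
    obtain ⟨n, hn⟩ := d₂.loc i V z hz
    refine ⟨n, ?_⟩
    unfold sg sl
    rw [mul_div_map]
    have h1 := prod_mem S (pow_mem (d₁.W_mem i V) n) hn
    convert h1 using 1
    rw [map_mul, map_pow, map_pow]
    change (S.e₁ _ * S.e₂ _) ^ n * S.e₂ z = _
    ring

lemma sfg (i : ι) : (S.A (d₁.s (v i)) (d₂.s (v i))).FG := by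
  unfold SurfData.A
  exact ((d₁.fg i).map _).sup ((d₂.fg i).map _)

lemma sint {L : Type} [Field L] [Algebra K L] (φ : S.L →ₐ[K] L) (P : Subalgebra K L) (s t : Cov Bool)
    (h1 : ∀ f ∈ c₁.A s, IsIntegral P (φ (S.e₁ f))) (h2 : ∀ f ∈ c₂.A t, IsIntegral P (φ (S.e₂ f)))
    (z : S.L) (hz : z ∈ S.A s t) : IsIntegral P (φ z) := by
  let I : Subalgebra K S.L := ((integralClosure P L).restrictScalars K).comap φ
  have h : S.A s t ≤ I := by
    refine sup_le ?_ ?_
    · rintro _ ⟨f, hf, rfl⟩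
      exact h1 f hf
    · rintro _ ⟨f, hf, rfl⟩
      exact h2 f hf
  exact h hz

end surf

section conic

variable {K : Type} [Field K] {c₁ c₂ : CurveData K} {S : SurfData c₁ c₂} (X : ConicData S)

/-- functions on the first curve -/
noncomputable def al (f : c₁.F) : X.E := X.ofL (S.e₁ f)
/-- functions on the second curve -/
noncomputable def be (f : c₂.F) : X.E := X.ofL (S.e₂ f)

lemma al_mem {i : Cov Bool} (j k : Cov Bool) {f : c₁.F} (hf : f ∈ c₁.A i) : al X f ∈ X.A i j k :=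
  X.mem_of_S (S.e₁_mem j hf)

lemma be_mem (i : Cov Bool) {j : Cov Bool} (k : Cov Bool) {f : c₂.F} (hf : f ∈ c₂.A j) :
    be X f ∈ X.A i j k :=
  X.mem_of_S (S.e₂_mem i hf)

/-- the function `x_1 η²` -/
noncomputable def q : X.E := al X c₁.x * X.η ^ 2

lemma η_ne : X.η ≠ 0 := by
  intro h
  exact X.tr (h ▸ isAlgebraic_zero)

lemma al_ne {f : c₁.F} (hf : f ≠ 0) : al X f ≠ 0 := by
  unfold al
  exact (map_ne_zero _).2 ((map_ne_zero _).2 hf)

lemma be_ne {f : c₂.F} (hf : f ≠ 0) : be X f ≠ 0 := by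
  unfold be
  exact (map_ne_zero _).2 ((map_ne_zero _).2 hf)

lemma eta_eq (i : Cov Bool) : X.eta i = al X (c₁.h i) * X.η := rfl
lemma zeta_eq (j : Cov Bool) : X.zeta j = be X (c₂.h j) * X.ζ := rfl

lemma eta_ne (i : Cov Bool) : X.eta i ≠ 0 := by
  rw [eta_eq]
  exact mul_ne_zero (al_ne X (c₁.h_ne i)) (η_ne X)

lemma al_mul (f g : c₁.F) : al X (f * g) = al X f * al X g := by simp [al]
lemma al_div (f g : c₁.F) : al X (f / g) = al X f / al X g := by simp [al]
lemma al_pow (f : c₁.F) (n : ℕ) : al X (f ^ n) = al X f ^ n := by simp [al]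
lemma be_mul (f g : c₂.F) : be X (f * g) = be X f * be X g := by simp [be]
lemma be_div (f g : c₂.F) : be X (f / g) = be X f / be X g := by simp [be]
lemma be_pow (f : c₂.F) (n : ℕ) : be X (f ^ n) = be X f ^ n := by simp [be]

lemma q_ne : q X ≠ 0 := mul_ne_zero (al_ne X c₁.x_ne) (pow_ne_zero _ (η_ne X))

lemma q_eq (i : Cov Bool) : q X = al X (c₁.x / c₁.h i ^ 2) * X.eta i ^ 2 := by
  have h1 := al_ne X (c₁.h_ne i)
  rw [eta_eq, al_div, al_pow, q]
  field_simp

lemma q_eqn : be X c₂.x * X.ζ ^ 2 = 1 - q X := by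
  have h : al X c₁.x * X.η ^ 2 + be X c₂.x * X.ζ ^ 2 = 1 := X.eqn
  unfold q
  rw [← h]
  ring

lemma z_eq (j : Cov Bool) : X.zeta j ^ 2 = be X ((c₂.x / c₂.h j ^ 2)⁻¹) * (1 - q X) := by
  have h1 := be_ne X (c₂.h_ne j)
  have h2 := be_ne X c₂.x_ne
  rw [zeta_eq, ← q_eqn, inv_div, be_div, be_pow]
  field_simp

lemma u_ne (i : Cov Bool) : c₁.x / c₁.h i ^ 2 ≠ 0 :=
  div_ne_zero c₁.x_ne (pow_ne_zero _ (c₁.h_ne i))

lemma al_inv (f : c₁.F) : al X f⁻¹ = (al X f)⁻¹ := by simp [al]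

lemma q_mem (i j : Cov Bool) {k : Cov Bool} (h : false ∈ k.s) : q X ∈ X.A i j k := by
  rw [q_eq X i]
  exact mul_mem (al_mem X j k (c₁.u_mem i)) (pow_mem (X.mem_of_gens (Or.inl ⟨h, Or.inl rfl⟩)) 2)

lemma qinv_eq (i : Cov Bool) :
    (q X)⁻¹ = al X ((c₁.x / c₁.h i ^ 2)⁻¹) * ((X.eta i)⁻¹) ^ 2 := by
  rw [q_eq X i, mul_inv, al_inv, inv_pow]

lemma qinv_mem (i j : Cov Bool) {k : Cov Bool} (h : true ∈ k.s) : (q X)⁻¹ ∈ X.A i j k := by
  rw [qinv_eq X i]
  exact mul_mem (al_mem X j k (c₁.uinv_mem i))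
    (pow_mem (X.mem_of_gens (Or.inr ⟨h, Or.inl rfl⟩)) 2)

/-- generator of the line bundle of the conic bundle -/
noncomputable def nn (k : Cov Bool) : X.E := if false ∈ k.s then 1 else q X
/-- its sections -/
noncomputable def QQ (b : Bool) : X.E := if b = true then q X else 1

lemma nn_ne (k : Cov Bool) : nn X k ≠ 0 := by
  unfold nn
  split_ifs
  · exact one_ne_zero
  · exact q_ne X

lemma QQ_ne (b : Bool) : QQ X b ≠ 0 := by
  unfold QQ
  split_ifs
  · exact q_ne X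
  · exact one_ne_zero

lemma nn_ca : nn X ca = 1 := by simp [nn, ca, Cov.one]
lemma nn_cb : nn X cb = q X := by simp [nn, cb, Cov.one]
lemma nn_cab : nn X cab = 1 := by simp [nn, cab]
lemma QQ_f : QQ X false = 1 := by simp [QQ]
lemma QQ_t : QQ X true = q X := by simp [QQ]

lemma f_cab : false ∈ cab.s := Finset.mem_univ _
lemma t_cab : true ∈ cab.s := Finset.mem_univ _
lemma f_ca : false ∈ ca.s := Finset.mem_singleton_self _
lemma t_cb : true ∈ cb.s := Finset.mem_singleton_self _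

lemma nn_div (i j : Cov Bool) {k k' : Cov Bool} (h : k' ≤ k) :
    nn X k / nn X k' ∈ X.A i j k' ∧ nn X k' / nn X k ∈ X.A i j k' := by
  rcases le_cases h with rfl | rfl
  · rw [div_self (nn_ne X _)]
    exact ⟨one_mem _, one_mem _⟩
  · rcases cov_bool_cases k with rfl | rfl | rfl
    · rw [nn_ca, nn_cab, div_one]
      exact ⟨one_mem _, one_mem _⟩
    · rw [nn_cb, nn_cab, div_one, one_div]
      exact ⟨q_mem X i j f_cab, qinv_mem X i j t_cab⟩
    · rw [nn_cab, div_one]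
      exact ⟨one_mem _, one_mem _⟩

lemma QQ_mem (i j : Cov Bool) (b : Bool) (k : Cov Bool) : QQ X b / nn X k ∈ X.A i j k := by
  rcases cov_bool_cases k with rfl | rfl | rfl <;> cases b
  · rw [QQ_f, nn_ca, div_one]; exact one_mem _
  · rw [QQ_t, nn_ca, div_one]; exact q_mem X i j f_ca
  · rw [QQ_f, nn_cb, one_div]; exact qinv_mem X i j t_cb
  · rw [QQ_t, nn_cb, div_self (q_ne X)]; exact one_mem _
  · rw [QQ_f, nn_cab, div_one]; exact one_mem _
  · rw [QQ_t, nn_cab, div_one]; exact q_mem X i j f_cab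

lemma ninv_mem (i j : Cov Bool) (b : Bool) (k : Cov Bool) :
    nn X k / QQ X b ∈ X.A i j (k ⊓ Cov.one b) := by
  have e1 : Cov.one false = ca := rfl
  have e2 : Cov.one true = cb := rfl
  rcases cov_bool_cases k with rfl | rfl | rfl <;> cases b
  · rw [QQ_f, nn_ca, div_one]; exact one_mem _
  · rw [QQ_t, nn_ca, one_div, e2, ca_inf_cb]; exact qinv_mem X i j t_cab
  · rw [QQ_f, nn_cb, div_one, e1, cb_inf_ca]; exact q_mem X i j f_cab
  · rw [QQ_t, nn_cb, div_self (q_ne X)]; exact one_mem _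
  · rw [QQ_f, nn_cab, div_one]; exact one_mem _
  · rw [QQ_t, nn_cab, one_div, cab_inf]; exact qinv_mem X i j t_cab

lemma X_A_mono {i i' j j' k k' : Cov Bool} (hi : i' ≤ i) (hj : j' ≤ j) (hk : k' ≤ k) :
    X.A i j k ≤ X.A i' j' k' := X.A_mono hi hj hk

variable {C ι : Type} [SemilatticeInf C] {v : ι → C} (d₁ : DirD c₁ C ι v) (d₂ : DirD c₂ C ι v)
  (p : C → Cov Bool) (r : ι → Bool)

/-- the line bundle on the threefold -/
noncomputable def lX (V : C) : X.E := X.ofL (sl S d₁ d₂ V) * nn X (p V)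

/-- its sections -/
noncomputable def gX (i : ι) : X.E := X.ofL (sg S d₁ d₂ i) * QQ X (r i)

lemma lX_ne (V : C) : lX X d₁ d₂ p V ≠ 0 :=
  mul_ne_zero ((map_ne_zero _).2 (sl_ne S d₁ d₂ V)) (nn_ne X _)

lemma gX_ne (i : ι) : gX X d₁ d₂ r i ≠ 0 :=
  mul_ne_zero ((map_ne_zero _).2 (sg_ne S d₁ d₂ i)) (QQ_ne X _)

lemma mdm (a b : S.L) (c d : X.E) :
    (X.ofL a * c) / (X.ofL b * d) = X.ofL (a / b) * (c / d) := by
  rw [map_div₀, mul_div_mul_comm]

lemma gX_mem (i : ι) (V : C) :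
    gX X d₁ d₂ r i / lX X d₁ d₂ p V ∈ X.A (d₁.s V) (d₂.s V) (p V) := by
  unfold gX lX
  rw [mdm]
  exact mul_mem (X.mem_of_S (sg_mem S d₁ d₂ i V)) (QQ_mem X _ _ _ _)

lemma mem_cases {k : Cov Bool} {b : Bool} (x : Bool) (h : x ∈ (k ⊓ Cov.one b).s) :
    x ∈ k.s ∨ (b = x ∧ k = Cov.one (!x)) := by
  by_cases hx : x ∈ k.s
  · exact Or.inl hx
  · right
    have h1 : x ∈ k.s ∪ {b} := h
    rw [Finset.mem_union, Finset.mem_singleton] at h1
    refine ⟨(h1.resolve_left hx).symm, ?_⟩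
    rcases cov_bool_cases k with rfl | rfl | rfl <;> cases x
    · exact absurd f_ca hx
    · rfl
    · rfl
    · exact absurd t_cb hx
    · exact absurd f_cab hx
    · exact absurd t_cab hx

lemma Xloc (hp : ∀ V W, p (V ⊓ W) = p V ⊓ p W) (hv : ∀ i, p (v i) = Cov.one (r i)) (i : ι) (V : C) :
    X.A (d₁.s (V ⊓ v i)) (d₂.s (V ⊓ v i)) (p (V ⊓ v i)) ≤
      locS (X.A (d₁.s V) (d₂.s V) (p V)) (gX X d₁ d₂ r i / lX X d₁ d₂ p V)
        (gX_mem X d₁ d₂ p r i V) := by
  have hS : ∀ z ∈ S.A (d₁.s (V ⊓ v i)) (d₂.s (V ⊓ v i)), X.ofL z ∈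
      locS (X.A (d₁.s V) (d₂.s V) (p V)) (gX X d₁ d₂ r i / lX X d₁ d₂ p V)
        (gX_mem X d₁ d₂ p r i V) := by
    intro z hz
    obtain ⟨n, hn⟩ := sloc S d₁ d₂ i V hz
    refine ⟨n, ?_⟩
    unfold gX lX
    rw [mdm]
    have h1 := mul_mem (X.mem_of_S (k := p V) hn)
      (pow_mem (QQ_mem X (d₁.s V) (d₂.s V) (r i) (p V)) n)
    convert h1 using 1
    rw [map_mul, map_pow, mul_pow]
    change X.ofL _ ^ n * _ * X.ofL z = X.ofL _ ^ n * X.ofL z * _
    ring
  have hle : V ⊓ v i ≤ V := inf_le_left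
  -- the comparison functions
  have ha := hS _ (S.e₁_mem (d₂.s (V ⊓ v i)) (c₁.h_div (d₁.mono _ _ hle)).1)
  have ha' := hS _ (S.e₁_mem (d₂.s (V ⊓ v i)) (c₁.h_div (d₁.mono _ _ hle)).2)
  have hb := hS _ (S.e₂_mem (d₁.s (V ⊓ v i)) (c₂.h_div (d₂.mono _ _ hle)).1)
  have hb' := hS _ (S.e₂_mem (d₁.s (V ⊓ v i)) (c₂.h_div (d₂.mono _ _ hle)).2)
  change al X (c₁.h (d₁.s V) / c₁.h (d₁.s (V ⊓ v i))) ∈ _ at ha
  change al X (c₁.h (d₁.s (V ⊓ v i)) / c₁.h (d₁.s V)) ∈ _ at ha'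
  change be X (c₂.h (d₂.s V) / c₂.h (d₂.s (V ⊓ v i))) ∈ _ at hb
  change be X (c₂.h (d₂.s (V ⊓ v i)) / c₂.h (d₂.s V)) ∈ _ at hb'
  rw [al_div] at ha ha'
  rw [be_div] at hb hb'
  have n1 := al_ne X (c₁.h_ne (d₁.s V))
  have n2 := al_ne X (c₁.h_ne (d₁.s (V ⊓ v i)))
  have n3 := be_ne X (c₂.h_ne (d₂.s V))
  have n4 := be_ne X (c₂.h_ne (d₂.s (V ⊓ v i)))
  have nη := η_ne X
  have hpV : p (V ⊓ v i) = p V ⊓ Cov.one (r i) := by rw [hp, hv]
  -- elements which are in the ring after one multiplication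
  have one : ∀ z : X.E, (QQ X (r i) / nn X (p V)) * z ∈ X.A (d₁.s V) (d₂.s V) (p V) → z ∈
      locS (X.A (d₁.s V) (d₂.s V) (p V)) (gX X d₁ d₂ r i / lX X d₁ d₂ p V)
        (gX_mem X d₁ d₂ p r i V) := by
    intro z hz
    refine ⟨1, ?_⟩
    unfold gX lX
    rw [mdm, pow_one, mul_assoc]
    exact mul_mem (X.mem_of_S (sg_mem S d₁ d₂ i V)) hz
  have zero : ∀ z : X.E, z ∈ X.A (d₁.s V) (d₂.s V) (p V) → z ∈
      locS (X.A (d₁.s V) (d₂.s V) (p V)) (gX X d₁ d₂ r i / lX X d₁ d₂ p V)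
        (gX_mem X d₁ d₂ p r i V) := by
    intro z hz
    exact ⟨0, by simpa using hz⟩
  have hf : false ∈ (p (V ⊓ v i)).s → X.eta (d₁.s V) ∈
      locS (X.A (d₁.s V) (d₂.s V) (p V)) (gX X d₁ d₂ r i / lX X d₁ d₂ p V)
        (gX_mem X d₁ d₂ p r i V) ∧ X.zeta (d₂.s V) ∈
      locS (X.A (d₁.s V) (d₂.s V) (p V)) (gX X d₁ d₂ r i / lX X d₁ d₂ p V)
        (gX_mem X d₁ d₂ p r i V) := by
    intro h
    rw [hpV] at h
    rcases mem_cases false h with h1 | ⟨h1, h2⟩
    · exact ⟨zero _ (X.mem_of_gens (Or.inl ⟨h1, Or.inl rfl⟩)),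
        zero _ (X.mem_of_gens (Or.inl ⟨h1, Or.inr rfl⟩))⟩
    · have h2' : p V = cb := h2
      have ht : true ∈ (p V).s := by rw [h2']; exact t_cb
      have g1 := X.mem_of_gens (i := d₁.s V) (j := d₂.s V) (Or.inr ⟨ht, Or.inl rfl⟩)
      have g2 := X.mem_of_gens (i := d₁.s V) (j := d₂.s V) (Or.inr ⟨ht, Or.inr rfl⟩)
      have g3 := al_mem X (d₂.s V) (p V) (c₁.uinv_mem (d₁.s V))
      have ne := eta_ne X (d₁.s V)
      have e1 : QQ X (r i) / nn X (p V) =
          al X ((c₁.x / c₁.h (d₁.s V) ^ 2)⁻¹) * ((X.eta (d₁.s V))⁻¹) ^ 2 := by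
        rw [h1, h2', QQ_f, nn_cb, one_div, qinv_eq X (d₁.s V)]
      constructor
      · apply one
        rw [e1]
        have := mul_mem g3 g1
        convert this using 1
        field_simp
      · apply one
        rw [e1]
        have := mul_mem (mul_mem g3 g1) g2
        convert this using 1
        field_simp
  have ht : true ∈ (p (V ⊓ v i)).s → (X.eta (d₁.s V))⁻¹ ∈
      locS (X.A (d₁.s V) (d₂.s V) (p V)) (gX X d₁ d₂ r i / lX X d₁ d₂ p V)
        (gX_mem X d₁ d₂ p r i V) ∧ X.zeta (d₂.s V) / X.eta (d₁.s V) ∈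
      locS (X.A (d₁.s V) (d₂.s V) (p V)) (gX X d₁ d₂ r i / lX X d₁ d₂ p V)
        (gX_mem X d₁ d₂ p r i V) := by
    intro h
    rw [hpV] at h
    rcases mem_cases true h with h1 | ⟨h1, h2⟩
    · exact ⟨zero _ (X.mem_of_gens (Or.inr ⟨h1, Or.inl rfl⟩)),
        zero _ (X.mem_of_gens (Or.inr ⟨h1, Or.inr rfl⟩))⟩
    · have h2' : p V = ca := h2
      have ht : false ∈ (p V).s := by rw [h2']; exact f_ca
      have g1 := X.mem_of_gens (i := d₁.s V) (j := d₂.s V) (Or.inl ⟨ht, Or.inl rfl⟩)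
      have g2 := X.mem_of_gens (i := d₁.s V) (j := d₂.s V) (Or.inl ⟨ht, Or.inr rfl⟩)
      have g3 := al_mem X (d₂.s V) (p V) (c₁.u_mem (d₁.s V))
      have ne := eta_ne X (d₁.s V)
      have e1 : QQ X (r i) / nn X (p V) =
          al X (c₁.x / c₁.h (d₁.s V) ^ 2) * X.eta (d₁.s V) ^ 2 := by
        rw [h1, h2', QQ_t, nn_ca, div_one, q_eq X (d₁.s V)]
      constructor
      · apply one
        rw [e1]
        have := mul_mem g3 g1
        convert this using 1
        field_simp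
      · apply one
        rw [e1]
        have := mul_mem (mul_mem g3 g1) g2
        convert this using 1
        field_simp
  refine sup_le ?_ (Algebra.adjoin_le ?_)
  · rintro _ ⟨z, hz, rfl⟩
    exact hS z hz
  · rintro z (⟨hk1, rfl | rfl⟩ | ⟨hk1, rfl | rfl⟩) <;> rw [SetLike.mem_coe]
    · have h := mul_mem ha' (hf hk1).1
      convert h using 1
      rw [eta_eq, eta_eq]
      field_simp
    · have h := mul_mem hb' (hf hk1).2
      convert h using 1
      rw [zeta_eq, zeta_eq]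
      field_simp
    · have h := mul_mem ha (ht hk1).1
      convert h using 1
      rw [eta_eq, eta_eq]
      field_simp
    · have h := mul_mem (mul_mem hb' ha) (ht hk1).2
      convert h using 1
      rw [eta_eq, eta_eq, zeta_eq, zeta_eq]
      field_simp

lemma Xfg (hv : ∀ i, p (v i) = Cov.one (r i)) (i : ι) :
    (X.A (d₁.s (v i)) (d₂.s (v i)) (p (v i))).FG := by
  unfold ConicData.A
  refine ((sfg S d₁ d₂ i).map _).sup ?_
  refine Subalgebra.fg_def.2 ⟨_, ?_, rfl⟩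
  apply Set.Finite.subset (s := {X.eta (d₁.s (v i)), X.zeta (d₂.s (v i)), (X.eta (d₁.s (v i)))⁻¹,
    X.zeta (d₂.s (v i)) / X.eta (d₁.s (v i))})
  · simp
  · rintro z (⟨-, rfl | rfl⟩ | ⟨-, rfl | rfl⟩) <;> simp

lemma Xint (P : Subalgebra K X.E) (s t : Cov Bool) (b : Bool)
    (h1 : ∀ f ∈ c₁.A s, IsIntegral P (al X f)) (h2 : ∀ f ∈ c₂.A t, IsIntegral P (be X f))
    (hq : (if b = true then (q X)⁻¹ else q X) ∈ P)
    (z : X.E) (hz : z ∈ X.A s t (Cov.one b)) : IsIntegral P z := by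
  let I : Subalgebra K X.E := (integralClosure P X.E).restrictScalars K
  have hP : ∀ z ∈ P, IsIntegral P z := fun z hz =>
    isIntegral_algebraMap (R := P) (A := X.E) (x := ⟨z, hz⟩)
  have h : X.A s t (Cov.one b) ≤ I := by
    refine sup_le ?_ (Algebra.adjoin_le ?_)
    · rintro _ ⟨f, hf, rfl⟩
      exact sint S X.ofL P s t h1 h2 f hf
    · rintro z (⟨hk1, rfl | rfl⟩ | ⟨hk1, rfl | rfl⟩) <;> rw [SetLike.mem_coe]
      · have hb : b = false := (Finset.mem_singleton.1 hk1).symm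
        rw [hb] at hq
        simp only [Bool.false_eq_true, if_false] at hq
        change IsIntegral P _
        apply IsIntegral.of_pow (n := 2) (by norm_num)
        have e1 : X.eta s ^ 2 = al X ((c₁.x / c₁.h s ^ 2)⁻¹) * q X := by
          have := al_ne X (u_ne (c₁ := c₁) s)
          rw [q_eq X s, al_inv]
          field_simp
        rw [e1]
        exact (h1 _ (c₁.uinv_mem s)).mul (hP _ hq)
      · have hb : b = false := (Finset.mem_singleton.1 hk1).symm
        rw [hb] at hq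
        simp only [Bool.false_eq_true, if_false] at hq
        change IsIntegral P _
        apply IsIntegral.of_pow (n := 2) (by norm_num)
        rw [z_eq]
        exact (h2 _ (c₂.uinv_mem t)).mul (isIntegral_one.sub (hP _ hq))
      · have hb : b = true := (Finset.mem_singleton.1 hk1).symm
        rw [hb] at hq
        simp only [if_true] at hq
        change IsIntegral P _
        apply IsIntegral.of_pow (n := 2) (by norm_num)
        have e1 : (X.eta s)⁻¹ ^ 2 = al X (c₁.x / c₁.h s ^ 2) * (q X)⁻¹ := by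
          have := al_ne X (u_ne (c₁ := c₁) s)
          have h3 := eta_ne X s
          rw [q_eq X s]
          field_simp
        rw [e1]
        exact (h1 _ (c₁.u_mem s)).mul (hP _ hq)
      · have hb : b = true := (Finset.mem_singleton.1 hk1).symm
        rw [hb] at hq
        simp only [if_true] at hq
        change IsIntegral P _
        apply IsIntegral.of_pow (n := 2) (by norm_num)
        have e1 : (X.zeta t / X.eta s) ^ 2 = be X ((c₂.x / c₂.h t ^ 2)⁻¹) *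
            (al X (c₁.x / c₁.h s ^ 2) * ((q X)⁻¹ - 1)) := by
          have h3 := eta_ne X s
          have h4 := q_ne X
          have h5 : al X (c₁.x / c₁.h s ^ 2) = q X * ((X.eta s)⁻¹) ^ 2 := by
            rw [q_eq X s]
            field_simp
          rw [div_pow, z_eq, h5]
          field_simp
        rw [e1]
        exact (h2 _ (c₂.uinv_mem t)).mul ((h1 _ (c₁.u_mem s)).mul ((hP _ hq).sub isIntegral_one))
  exact h hz

/-- the projective structure of `X` in some directions -/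
theorem main (hp : ∀ V W, p (V ⊓ W) = p V ⊓ p W) (hv : ∀ i, p (v i) = Cov.one (r i))
    (cov : ∀ V, ∃ i, V ≤ v i) (B : Type) [CommRing B] [Algebra K B] (ρ : B →ₐ[K] X.E)
    (ρ_mem : ∀ b V, ρ b ∈ X.A (d₁.s V) (d₂.s V) (p V))
    (h1 : ∀ i, ∀ f ∈ c₁.A (d₁.s (v i)), IsIntegral (Algebra.adjoin K (Set.range ρ ∪
      Set.range (fun j => gX X d₁ d₂ r j / gX X d₁ d₂ r i))) (al X f))
    (h2 : ∀ i, ∀ f ∈ c₂.A (d₂.s (v i)), IsIntegral (Algebra.adjoin K (Set.range ρ ∪
      Set.range (fun j => gX X d₁ d₂ r j / gX X d₁ d₂ r i))) (be X f))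
    (hq : ∀ i, (if r i = true then (q X)⁻¹ else q X) ∈ Algebra.adjoin K (Set.range ρ ∪
      Set.range (fun j => gX X d₁ d₂ r j / gX X d₁ d₂ r i))) :
    ∃ a : AmpF K B ι (fun V => X.A (d₁.s V) (d₂.s V) (p V)), a.v = v ∧ a.ρ = ρ := by
  refine ⟨{
      v := v
      cov := cov
      ρ := ρ
      ρ_mem := ρ_mem
      l := lX X d₁ d₂ p
      l_ne := lX_ne X d₁ d₂ p
      l_div := ?_
      g := gX X d₁ d₂ r
      g_ne := gX_ne X d₁ d₂ r
      g_mem := gX_mem X d₁ d₂ p r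
      inv_mem := ?_
      loc := ?_
      fin := ?_ }, rfl, rfl⟩
  · intro V W h
    have h3 := hp V W
    rw [inf_eq_right.2 h] at h3
    have h4 : p W ≤ p V := inf_eq_right.1 h3.symm
    unfold lX
    rw [mdm, mdm]
    exact ⟨mul_mem (X.mem_of_S (sl_div S d₁ d₂ h).1) (nn_div X _ _ h4).1,
      mul_mem (X.mem_of_S (sl_div S d₁ d₂ h).2) (nn_div X _ _ h4).2⟩
  · intro i V
    unfold lX gX
    rw [mdm]
    refine mul_mem (X.mem_of_S (sinv_mem S d₁ d₂ i V)) ?_
    change _ ∈ X.A _ _ (p (V ⊓ v i))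
    rw [hp, hv]
    exact ninv_mem X _ _ _ _
  · intro i V z hz
    exact Xloc X d₁ d₂ p r hp hv i V hz
  · intro i
    obtain ⟨T, hT⟩ := Xfg X d₁ d₂ p r hv i
    refine ⟨T, hT.symm, fun t ht => ?_⟩
    have h3 : t ∈ X.A (d₁.s (v i)) (d₂.s (v i)) (p (v i)) := by
      rw [← hT]
      exact Algebra.subset_adjoin ht
    rw [hv] at h3
    exact Xint X _ _ _ (r i) (h1 i) (h2 i) (hq i) t h3

end conic

end AFC_

end Pool.CRD.D1
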