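import Pool.Agent.CRD.D1.StmtsB

/-!
# CRD, area D1: AFI, the projective structure given by `AmpF`
-/

open CategoryTheory Opposite Limits Pretriangulated

namespace Pool.CRD.D1

namespace AFI_

/-- localisation of subalgebras of a field -/
theorem away {K F : Type} [Field K] [Field F] [Algebra K F] (S₁ S₂ : Subalgebra K F)
    (h : S₁ ≤ S₂) (x : S₁) (hx : (x : F) ≠ 0) (hinv : (x : F)⁻¹ ∈ S₂)
    (hs : ∀ z ∈ S₂, ∃ n : ℕ, (x : F) ^ n * z ∈ S₁) :
    letI := (Subalgebra.inclusion h).toRingHom.toAlgebra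
    IsLocalization.Away x S₂ := by
  letI : Algebra S₁ S₂ := (Subalgebra.inclusion h).toRingHom.toAlgebra
  refine ⟨?_, ?_, ?_⟩
  · rintro ⟨_, n, rfl⟩
    have h1 : IsUnit (algebraMap S₁ S₂ x) := by
      refine IsUnit.of_mul_eq_one (⟨_, hinv⟩ : S₂) (Subtype.ext ?_)
      exact mul_inv_cancel₀ hx
    show IsUnit (algebraMap S₁ S₂ (x ^ n))
    rw [map_pow]
    exact h1.pow n
  · intro z
    obtain ⟨n, hn⟩ := hs z z.2
    refine ⟨(⟨_, hn⟩, ⟨x ^ n, n, rfl⟩), Subtype.ext ?_⟩
    show (z : F) * (x : F) ^ n = (x : F) ^ n * z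
    exact mul_comm _ _
  · intro y z hyz
    have h2 : (y : F) = z := congrArg (fun t : S₂ => (t : F)) hyz
    have h3 : y = z := Subtype.ext h2
    exact ⟨1, by rw [h3]⟩

/-- finiteness over the image of a polynomial ring -/
theorem finite_of_gens {K F P : Type} [Field K] [Field F] [Algebra K F] [CommRing P]
    (S : Subalgebra K F) (h : P →+* S) (k : K →+* P) (hk : ∀ c, ((h (k c) : S) : F) =
      algebraMap K F c) (G : Set F) (hG : ∀ x ∈ G, ∃ p, ((h p : S) : F) = x)
    (T : Finset F) (hT : S = Algebra.adjoin K (T : Set F))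
    (hint : ∀ t ∈ T, IsIntegral (Algebra.adjoin K G) t) : h.Finite := by
  let f : P →+* F := S.val.toRingHom.comp h
  letI : Algebra P F := f.toAlgebra
  letI : Algebra P S := h.toAlgebra
  have hQ : ∀ q ∈ Algebra.adjoin K G, q ∈ f.range := by
    intro q hq
    refine Algebra.adjoin_induction (p := fun q _ => q ∈ f.range) ?_ ?_ ?_ ?_ hq
    · intro x hx
      obtain ⟨p, hp⟩ := hG x hx
      exact ⟨p, hp⟩
    · intro c
      exact ⟨k c, hk c⟩
    · intro x y _ _ hx hy
      exact add_mem hx hy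
    · intro x y _ _ hx hy
      exact mul_mem hx hy
  letI : Algebra P f.range := f.rangeRestrict.toAlgebra
  haveI : IsScalarTower P f.range F := IsScalarTower.of_algebraMap_eq fun _ => rfl
  haveI : Algebra.IsIntegral P f.range := by
    refine ⟨fun x => ?_⟩
    obtain ⟨p, hp⟩ := f.rangeRestrict_surjective x
    rw [← hp]
    exact isIntegral_algebraMap
  have hint2 : ∀ t ∈ (T : Set F), IsIntegral P t := by
    intro t ht
    have h1 : IsIntegral f.range t := by
      let φ : Algebra.adjoin K G →+* f.range :=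
        { toFun := fun q => ⟨q, hQ q q.2⟩
          map_one' := rfl
          map_mul' := fun _ _ => rfl
          map_zero' := rfl
          map_add' := fun _ _ => rfl }
      exact IsIntegral.map_of_comp_eq φ (RingHom.id F) rfl (hint t ht)
    exact isIntegral_trans t h1
  have hfg := fg_adjoin_of_finite T.finite_toSet hint2
  have hmem : ∀ x ∈ Algebra.adjoin P (T : Set F), x ∈ S := by
    intro x hx
    refine Algebra.adjoin_induction (p := fun q _ => q ∈ S) ?_ ?_ ?_ ?_ hx
    · intro x hx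
      rw [hT]
      exact Algebra.subset_adjoin hx
    · intro c
      exact (h c).2
    · intro x y _ _ hx hy
      exact add_mem hx hy
    · intro x y _ _ hx hy
      exact mul_mem hx hy
  have hmem2 : ∀ x ∈ S, x ∈ Algebra.adjoin P (T : Set F) := by
    intro x hx
    rw [hT] at hx
    refine Algebra.adjoin_induction (p := fun q _ => q ∈ Algebra.adjoin P (T : Set F))
      ?_ ?_ ?_ ?_ hx
    · intro x hx
      exact Algebra.subset_adjoin hx
    · intro c
      have := (Algebra.adjoin P (T : Set F)).algebraMap_mem (k c)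
      rw [show algebraMap P F (k c) = algebraMap K F c from hk c] at this
      exact this
    · intro x y _ _ hx hy
      exact add_mem hx hy
    · intro x y _ _ hx hy
      exact mul_mem hx hy
  let E : (Subalgebra.toSubmodule (Algebra.adjoin P (T : Set F))) →ₗ[P] S :=
    { toFun := fun x => ⟨x.1, hmem x.1 x.2⟩
      map_add' := fun _ _ => rfl
      map_smul' := fun p x => Subtype.ext (by
        show p • (x : F) = ((h p * ⟨x.1, hmem x.1 x.2⟩ : S) : F)
        rw [Algebra.smul_def]
        rfl) }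
  haveI : Module.Finite P (Subalgebra.toSubmodule (Algebra.adjoin P (T : Set F))) :=
    Module.Finite.iff_fg.2 hfg
  have hfin : Module.Finite P S := Module.Finite.of_surjective E fun x =>
    ⟨⟨x.1, hmem2 x.1 x.2⟩, rfl⟩
  exact hfin

section
variable {K B ι : Type} [Field K] [CommRing B] [Algebra K B] {C : Type} [SemilatticeInf C]
    {F : Type} [Field F] [Algebra K F] {A : C → Subalgebra K F}
    (hA : ∀ {U V : C}, V ≤ U → A U ≤ A V) (a : AmpF K B ι A)

/-- the base ring -/
def rho : (Functor.const Cᵒᵖ).obj (CommAlgCat.of K B) ⟶ subAlg A hA where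
  app X := CommAlgCat.ofHom (a.ρ.codRestrict (A X.unop) fun b => a.ρ_mem b _)
  naturality X Y f := by ext x; rfl

/-- the line bundle -/
def lb : UCoc (subAlg A hA) where
  u {X Y} f :=
    { val := (⟨a.l X.unop / a.l Y.unop, (a.l_div (leOfHom f.unop)).1⟩ : A Y.unop)
      inv := (⟨a.l Y.unop / a.l X.unop, (a.l_div (leOfHom f.unop)).2⟩ : A Y.unop)
      val_inv := Subtype.ext (by
        show a.l X.unop / a.l Y.unop * (a.l Y.unop / a.l X.unop) = 1
        rw [div_mul_div_cancel₀ (a.l_ne _), div_self (a.l_ne _)])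
      inv_val := Subtype.ext (by
        show a.l Y.unop / a.l X.unop * (a.l X.unop / a.l Y.unop) = 1
        rw [div_mul_div_cancel₀ (a.l_ne _), div_self (a.l_ne _)]) }
  u_id X := Units.ext (Subtype.ext (div_self (a.l_ne _)))
  u_comp {X Y Z} f g := Subtype.ext (by
    show a.l X.unop / a.l Z.unop = a.l X.unop / a.l Y.unop * (a.l Y.unop / a.l Z.unop)
    rw [div_mul_div_cancel₀ (a.l_ne _)])

/-- the sections -/
def sec' (i : ι) : LSec (lb hA a) where
  a X := (⟨a.g i / a.l X.unop, a.g_mem i _⟩ : A X.unop)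
  compat {X Y} f := Subtype.ext (by
    show a.l X.unop / a.l Y.unop * (a.g i / a.l X.unop) = a.g i / a.l Y.unop
    rw [mul_comm, div_mul_div_cancel₀ (a.l_ne _)])

theorem chart_val (i : ι) (p : MvPolynomial ι B) :
    ((show A (a.v i) from chartHom (rho hA a) (sec' hA a) (a.v i) i p) : F) =
      MvPolynomial.eval₂Hom a.ρ.toRingHom (fun j => a.g j / a.g i) p := by
  have h1 : ((A (a.v i)).val.toRingHom).comp (show MvPolynomial ι B →+* A (a.v i) from
      chartHom (rho hA a) (sec' hA a) (a.v i) i) =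
      MvPolynomial.eval₂Hom a.ρ.toRingHom (fun j => a.g j / a.g i) := by
    refine MvPolynomial.ringHom_ext (fun b => ?_) fun j => ?_
    · rw [MvPolynomial.eval₂Hom_C, RingHom.comp_apply]
      have h2 : (show MvPolynomial ι B →+* A (a.v i) from
        chartHom (rho hA a) (sec' hA a) (a.v i) i) (MvPolynomial.C b) =
        (⟨a.ρ b, a.ρ_mem b _⟩ : A (a.v i)) := MvPolynomial.eval₂Hom_C _ _ _
      rw [h2]
      rfl
    · rw [MvPolynomial.eval₂Hom_X', RingHom.comp_apply]
      have hinv : a.l (a.v i) / a.g i ∈ A (a.v i) := by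
        have := a.inv_mem i (a.v i)
        rwa [inf_idem] at this
      have hu : IsUnit (⟨a.g i / a.l (a.v i), a.g_mem i _⟩ : A (a.v i)) := by
        refine IsUnit.of_mul_eq_one (⟨_, hinv⟩ : A (a.v i)) (Subtype.ext ?_)
        show a.g i / a.l (a.v i) * (a.l (a.v i) / a.g i) = 1
        rw [div_mul_div_cancel₀ (a.l_ne _), div_self (a.g_ne _)]
      have h2 : (show MvPolynomial ι B →+* A (a.v i) from
        chartHom (rho hA a) (sec' hA a) (a.v i) i) (MvPolynomial.X j) =
        (⟨a.g j / a.l (a.v i), a.g_mem j _⟩ : A (a.v i)) *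
          Ring.inverse (⟨a.g i / a.l (a.v i), a.g_mem i _⟩ : A (a.v i)) :=
        MvPolynomial.eval₂Hom_X' _ _ _
      rw [h2]
      have h3 := (Ring.eq_mul_inverse_iff_mul_eq
        ((⟨a.g j / a.l (a.v i), a.g_mem j _⟩ : A (a.v i)) * (⟨_, hinv⟩ : A (a.v i)))
        (⟨a.g j / a.l (a.v i), a.g_mem j _⟩ : A (a.v i))
        (⟨a.g i / a.l (a.v i), a.g_mem i _⟩ : A (a.v i)) hu).2 (Subtype.ext (by
          show a.g j / a.l (a.v i) * (a.l (a.v i) / a.g i) * (a.g i / a.l (a.v i)) =
            a.g j / a.l (a.v i)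
          rw [div_mul_div_cancel₀ (a.l_ne _), div_mul_div_cancel₀ (a.g_ne _)]))
      rw [← h3]
      show a.g j / a.l (a.v i) * (a.l (a.v i) / a.g i) = a.g j / a.g i
      rw [div_mul_div_cancel₀ (a.l_ne _)]
  exact congrArg (fun f => f p) h1

/-- the projective structure -/
def amp : Amp K B ι (subAlg A hA) where
  v := a.v
  cov := a.cov
  ρ := rho hA a
  L := lb hA a
  x := sec' hA a
  loc V i := away (A V) (A (V ⊓ a.v i)) (hA inf_le_left) ⟨a.g i / a.l V, a.g_mem i V⟩
    (div_ne_zero (a.g_ne i) (a.l_ne V)) (by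
      show (a.g i / a.l V)⁻¹ ∈ _
      rw [inv_div]
      exact a.inv_mem i V) (a.loc i V)
  fin i := by
    obtain ⟨T, hT, hint⟩ := a.fin i
    refine finite_of_gens (A (a.v i)) (show MvPolynomial ι B →+* A (a.v i) from
      chartHom (rho hA a) (sec' hA a) (a.v i) i) (MvPolynomial.C.comp (algebraMap K B)) ?_
      (Set.range a.ρ ∪ Set.range (fun j => a.g j / a.g i)) ?_ T hT hint
    · intro c
      refine (chart_val hA a i _).trans ?_
      rw [RingHom.comp_apply, MvPolynomial.eval₂Hom_C]
      exact a.ρ.commutes c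
    · rintro x (⟨b, rfl⟩ | ⟨j, rfl⟩)
      · refine ⟨MvPolynomial.C b, (chart_val hA a i _).trans ?_⟩
        rw [MvPolynomial.eval₂Hom_C]
        rfl
      · refine ⟨MvPolynomial.X j, (chart_val hA a i _).trans ?_⟩
        rw [MvPolynomial.eval₂Hom_X']

end

end AFI_

open AFI_ in
theorem afi_proof : Stmt_AFI := by
  intro K B ι _ _ _ C _ F _ _ A hA a
  exact ⟨amp hA a, rfl, fun b X => rfl⟩

end Pool.CRD.D1
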