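import Pool.Agent.CRD.D1.AFC

open CategoryTheory Opposite Limits Pretriangulated

namespace Pool.CRD.D1

namespace AFS_

open AFC_

/-- the maximal charts -/
def vv (t : Bool × Bool) : Ch2 := ⟨Cov.one t.1, Cov.one t.2⟩

lemma exists_one (s : Cov Bool) : ∃ b, s ≤ Cov.one b := by
  obtain ⟨b, hb⟩ := s.ne
  exact ⟨b, Finset.singleton_subset_iff.2 hb⟩

end AFS_

open AFC_ AFS_ in
theorem afs_proof : Stmt_AFS := by
  intro K _ c₁ c₂ S
  let d₁ : DirD c₁ Ch2 (Bool × Bool) vv :=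
    free c₁ vv (fun s => s.i) (fun _ _ => rfl) (fun t => t.1) (fun _ => rfl)
  let d₂ : DirD c₂ Ch2 (Bool × Bool) vv :=
    free c₂ vv (fun s => s.j) (fun _ _ => rfl) (fun t => t.2) (fun _ => rfl)
  refine ⟨{
      v := vv
      cov := ?_
      ρ := Algebra.ofId K S.L
      ρ_mem := fun b V => (S.A V.i V.j).algebraMap_mem b
      l := sl S d₁ d₂
      l_ne := sl_ne S d₁ d₂
      l_div := fun h => sl_div S d₁ d₂ h
      g := AFC_.sg S d₁ d₂
      g_ne := sg_ne S d₁ d₂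
      g_mem := sg_mem S d₁ d₂
      inv_mem := sinv_mem S d₁ d₂
      loc := ?_
      fin := ?_ }, fun _ _ => rfl⟩
  · intro V
    obtain ⟨b, hb⟩ := exists_one V.i
    obtain ⟨b', hb'⟩ := exists_one V.j
    exact ⟨(b, b'), hb, hb'⟩
  · intro i V z hz
    exact sloc S d₁ d₂ i V hz
  · intro i
    obtain ⟨T, hT⟩ := sfg S d₁ d₂ i
    refine ⟨T, hT.symm, fun t ht => ?_⟩
    have h3 : t ∈ S.A (d₁.s (vv i)) (d₂.s (vv i)) := by
      rw [← hT]
      exact Algebra.subset_adjoin ht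
    have key : ∀ j, AFC_.sg S d₁ d₂ j / AFC_.sg S d₁ d₂ i ∈ Algebra.adjoin K
        (Set.range (Algebra.ofId K S.L) ∪ Set.range (fun j => AFC_.sg S d₁ d₂ j / AFC_.sg S d₁ d₂ i)) :=
      fun j => Algebra.subset_adjoin (Or.inr ⟨j, rfl⟩)
    have h := sint S (AlgHom.id K S.L) (Algebra.adjoin K
        (Set.range (Algebra.ofId K S.L) ∪ Set.range (fun j => AFC_.sg S d₁ d₂ j / AFC_.sg S d₁ d₂ i)))
      (Cov.one i.1) (Cov.one i.2) ?_ ?_ t h3
    · exact h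
    · intro f hf
      refine int_free c₁ S.e₁ _ i.1 ?_ f hf
      have h4 := key (!i.1, i.2)
      convert h4 using 1
      change _ = (S.e₁ (cW c₁ (!i.1)) * S.e₂ (cW c₂ i.2)) / (S.e₁ (cW c₁ i.1) * S.e₂ (cW c₂ i.2))
      rw [mul_div_map, div_self (cW_ne c₂ _), map_one, mul_one]
    · intro f hf
      refine int_free c₂ S.e₂ _ i.2 ?_ f hf
      have h4 := key (i.1, !i.2)
      convert h4 using 1
      change _ = (S.e₁ (cW c₁ i.1) * S.e₂ (cW c₂ (!i.2))) / (S.e₁ (cW c₁ i.1) * S.e₂ (cW c₂ i.2))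
      rw [mul_div_map, div_self (cW_ne c₁ _), map_one, one_mul]

end Pool.CRD.D1
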