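import Pool.Agent.CRD.D1.AFC

open CategoryTheory Opposite Limits Pretriangulated

namespace Pool.CRD.D1

namespace AFX_

open AFC_

/-- the maximal charts -/
def vv (t : Bool × Bool × Bool) : Ch3 := ⟨Cov.one t.1, Cov.one t.2.1, Cov.one t.2.2⟩

lemma exists_one (s : Cov Bool) : ∃ b, s ≤ Cov.one b := by
  obtain ⟨b, hb⟩ := s.ne
  exact ⟨b, Finset.singleton_subset_iff.2 hb⟩

end AFX_

open AFC_ AFX_ in
theorem afx_proof : Stmt_AFX := by
  intro K _ c₁ c₂ S X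
  let d₁ : DirD c₁ Ch3 (Bool × Bool × Bool) vv :=
    free c₁ vv (fun s => s.i) (fun _ _ => rfl) (fun t => t.1) (fun _ => rfl)
  let d₂ : DirD c₂ Ch3 (Bool × Bool × Bool) vv :=
    free c₂ vv (fun s => s.j) (fun _ _ => rfl) (fun t => t.2.1) (fun _ => rfl)
  let r : Bool × Bool × Bool → Bool := fun t => t.2.2
  have key : ∀ i j, gX X d₁ d₂ r j / gX X d₁ d₂ r i ∈ Algebra.adjoin K
      (Set.range (Algebra.ofId K X.E) ∪ Set.range (fun j => gX X d₁ d₂ r j / gX X d₁ d₂ r i)) :=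
    fun i j => Algebra.subset_adjoin (Or.inr ⟨j, rfl⟩)
  have hmain := fun h0 h1 h2 hq => main X d₁ d₂ (fun s => s.k) r (fun _ _ => rfl) (fun _ => rfl) h0 K
    (Algebra.ofId K X.E) (fun b V => (X.A V.i V.j V.k).algebraMap_mem b) h1 h2 hq
  refine Exists.elim (hmain ?_ ?_ ?_ ?_) ?_
  rotate_right
  · rintro a ⟨ha, -⟩
    refine ⟨a, fun i j k => ?_⟩
    rw [ha]
    rfl
  · intro V
    obtain ⟨b, hb⟩ := exists_one V.i
    obtain ⟨b', hb'⟩ := exists_one V.j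
    obtain ⟨b'', hb''⟩ := exists_one V.k
    exact ⟨(b, b', b''), hb, hb', hb''⟩
  · intro i f hf
    refine int_free c₁ (X.ofL.comp S.e₁) _ i.1 ?_ f hf
    have h4 := key i (!i.1, i.2.1, i.2.2)
    convert h4 using 1
    change _ = (X.ofL (S.e₁ (cW c₁ (!i.1)) * S.e₂ (cW c₂ i.2.1)) * QQ X i.2.2) /
      (X.ofL (S.e₁ (cW c₁ i.1) * S.e₂ (cW c₂ i.2.1)) * QQ X i.2.2)
    rw [mdm, mul_div_map, div_self (cW_ne c₂ _), map_one, mul_one, div_self (QQ_ne X _), mul_one]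
    rfl
  · intro i f hf
    refine int_free c₂ (X.ofL.comp S.e₂) _ i.2.1 ?_ f hf
    have h4 := key i (i.1, !i.2.1, i.2.2)
    convert h4 using 1
    change _ = (X.ofL (S.e₁ (cW c₁ i.1) * S.e₂ (cW c₂ (!i.2.1))) * QQ X i.2.2) /
      (X.ofL (S.e₁ (cW c₁ i.1) * S.e₂ (cW c₂ i.2.1)) * QQ X i.2.2)
    rw [mdm, mul_div_map, div_self (cW_ne c₁ _), map_one, one_mul, div_self (QQ_ne X _), mul_one]
    rfl
  · intro i
    have h4 := key i (i.1, i.2.1, !i.2.2)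
    convert h4 using 1
    change _ = (X.ofL (S.e₁ (cW c₁ i.1) * S.e₂ (cW c₂ i.2.1)) * QQ X (!i.2.2)) /
      (X.ofL (S.e₁ (cW c₁ i.1) * S.e₂ (cW c₂ i.2.1)) * QQ X i.2.2)
    rw [mdm, mul_div_map, div_self (cW_ne c₁ _), div_self (cW_ne c₂ _), map_one, map_one, one_mul,
      map_one, one_mul]
    change (if i.2.2 = true then (q X)⁻¹ else q X) = _
    cases i.2.2
    · rw [Bool.not_false, QQ_t, QQ_f, div_one]
      simp
    · rw [Bool.not_true, QQ_t, QQ_f, one_div]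
      simp

end Pool.CRD.D1
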