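import Pool.Agent.CRD.D1.StmtsB

/-!
# CRD, D1: module AMX (the projective structures)
-/

open CategoryTheory Opposite Limits Pretriangulated

namespace Pool.CRD.D1

theorem amx_proof (hAFI : Stmt_AFI) (hAFS : Stmt_AFS) (hAFX : Stmt_AFX) : Stmt_AMX := by
  intro K _ c₁ c₂ S
  refine ⟨?_, fun X => ?_⟩
  · obtain ⟨a, ha⟩ := hAFS K c₁ c₂ S
    obtain ⟨Am, h1, _⟩ := hAFI K K (Bool × Bool) Ch2 S.L (fun s => S.A s.i s.j)
      (fun {U V : Ch2} (h : V ≤ U) => S.A_mono h.1 h.2) a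
    exact ⟨Am, fun i j => (congrFun h1 (i, j)).trans (ha i j)⟩
  · obtain ⟨a, ha⟩ := hAFX K c₁ c₂ S X
    obtain ⟨Am, h1, _⟩ := hAFI K K (Bool × Bool × Bool) Ch3 X.E (fun s => X.A s.i s.j s.k)
      (fun {U V : Ch3} (h : V ≤ U) => X.A_mono h.1 h.2.1 h.2.2) a
    exact ⟨Am, fun i j k => (congrFun h1 (i, j, k)).trans (ha i j k)⟩

end Pool.CRD.D1
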