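import Pool.Agent.CRD.D1.NSH
import Pool.Agent.CRD.A0.Stmts

/-!
# CRD, area D1: Mayer-Vietoris for a direction from the Mayer-Vietoris triangle
-/

open CategoryTheory Opposite Limits Pretriangulated

namespace Pool.CRD.D1

namespace MVX_

variable {K : Type} [Field K] {C : Type} [Preorder C] {R : PAlg K C}

lemma isIso_trι_top (M : PMod R) : IsIso ((trι R (⊤ : LowerSet C)).app M) := by
  apply isIso_pmod
  intro X
  exact ⟨fun x y hxy => Subtype.ext hxy, fun y => ⟨⟨y, fun hX => absurd trivial hX⟩, rfl⟩⟩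

lemma isIso_trDι_top (X : DPM R) : IsIso ((trDι R (⊤ : LowerSet C)).app X) := by
  obtain ⟨X₀, ⟨e⟩⟩ := exists_Q_iso X
  have h : (trDι R (⊤ : LowerSet C)).app X = _ := natTrans_app_iso (trDι R ⊤) e
  rw [h]
  unfold trDι
  rw [natDid_app]
  have : IsIso ((NatTrans.mapHomologicalComplex (trι R (⊤ : LowerSet C))
      (ComplexShape.up ℤ)).app X₀) := by
    have h1 : ∀ n, IsIso (((NatTrans.mapHomologicalComplex (trι R (⊤ : LowerSet C))
      (ComplexShape.up ℤ)).app X₀).f n) := fun n => isIso_trι_top (X₀.X n)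
    exact HomologicalComplex.Hom.isIso_of_components _
  infer_instance

/-- the triangle -/
def HasTri (U V W : LowerSet C) (hU : W ≤ U) (hV : W ≤ V) : Prop :=
  ∀ X : DPM R, ∃ δ : X ⟶ ((trD R W).obj X)⟦(1 : ℤ)⟧,
    Triangle.mk (biprod.lift ((trDLE R hU).app X) ((trDLE R hV).app X))
      (biprod.desc ((trDι R U).app X) (-(trDι R V).app X)) δ ∈ distTriang (DPM R)

lemma hasTri (U V W : LowerSet C) (hU : W ≤ U) (hV : W ≤ V) (hW : U ⊓ V = W) (hT : U ⊔ V = ⊤)
    (m : Nonempty (MVData R U V)) : HasTri (R := R) U V W hU hV := by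
  subst hW
  obtain ⟨m⟩ := m
  intro X
  have h2 : IsIso ((trDι R (U ⊔ V)).app X) := by
    rw [hT]; exact isIso_trDι_top X
  refine ⟨inv ((trDι R (U ⊔ V)).app X) ≫ m.δ.app X, ?_⟩
  refine isomorphic_distinguished _ (m.dist X) _ ?_
  refine Triangle.isoMk _ _ (Iso.refl _) (Iso.refl _) (asIso ((trDι R (U ⊔ V)).app X)).symm
    ?_ ?_ ?_
  · change _ ≫ 𝟙 _ = 𝟙 _ ≫ _
    rw [Category.comp_id, Category.id_comp]
    rfl
  · change biprod.desc ((trDι R U).app X) (-(trDι R V).app X) ≫ inv ((trDι R (U ⊔ V)).app X) =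
      𝟙 _ ≫ biprod.desc ((trDLE R (le_sup_left : U ≤ U ⊔ V)).app X)
      (-(trDLE R (le_sup_right : V ≤ U ⊔ V)).app X)
    rw [Category.id_comp, IsIso.comp_inv_eq]
    apply biprod.hom_ext'
    · rw [biprod.inl_desc, biprod.inl_desc_assoc, trDLE_trDι_app]
    · rw [biprod.inr_desc, biprod.inr_desc_assoc, Preadditive.neg_comp, trDLE_trDι_app]
  · change (inv ((trDι R (U ⊔ V)).app X) ≫ m.δ.app X) ≫ (𝟙 _)⟦(1 : ℤ)⟧' =
      inv ((trDι R (U ⊔ V)).app X) ≫ m.δ.app X
    rw [CategoryTheory.Functor.map_id]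
    exact Category.comp_id _

end MVX_

open MVX_

/-- MVX: Mayer-Vietoris for a direction -/
def Stmt_MVX : Prop :=
  ∀ (K : Type) [Field K] (c : CurveData K) (C : Type) [Preorder C] (R : PAlg K C) (D : Dir c R),
    Nonempty (MV D)

theorem mvx_proof (hMVT : Stmt_MVT) : Stmt_MVX := by
  intro K _ c C _ R D
  have hW : D.U ca ⊓ D.U cb = D.U cab := by
    ext s
    change D.p s ≤ ca ∧ D.p s ≤ cb ↔ D.p s ≤ cab
    rw [← ca_inf_cb, le_inf_iff]
  have hT : D.U ca ⊔ D.U cb = ⊤ := by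
    ext s
    simp only [LowerSet.coe_sup, LowerSet.coe_top, Set.mem_univ, iff_true]
    rcases cov_bool_cases (D.p s) with h | h | h
    · left; change D.p s ≤ ca; rw [h]
    · right; change D.p s ≤ cb; rw [h]
    · left; change D.p s ≤ ca; rw [h]; exact cab_le _
  have tri := hasTri (R := R) (D.U ca) (D.U cb) (D.U cab) (D.U_mono (cab_le ca))
    (D.U_mono (cab_le cb)) hW hT (hMVT K C R _ _)
  choose δ hδ using tri
  refine ⟨⟨δ, ?_, ?_, ?_, ?_, ?_⟩⟩
  · intro X Y u v huv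
    have h0 : biprod.lift ((trDLE R (D.U_mono (cab_le ca))).app X)
        ((trDLE R (D.U_mono (cab_le cb))).app X) ≫ biprod.desc u (-v) = 0 := by
      rw [biprod.lift_desc, Preadditive.comp_neg]
      unfold Dir.rst at huv
      rw [huv, add_neg_cancel]
    obtain ⟨φ, hφ⟩ := Triangle.yoneda_exact₂ _ (hδ X) (biprod.desc u (-v)) h0
    change biprod.desc u (-v) = biprod.desc ((trDι R (D.U ca)).app X)
      (-(trDι R (D.U cb)).app X) ≫ φ at hφ
    refine ⟨φ, ?_, ?_⟩
    · have := congrArg (fun t => biprod.inl ≫ t) hφ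
      simp only [biprod.inl_desc, biprod.inl_desc_assoc] at this
      exact this.symm
    · have := congrArg (fun t => biprod.inr ≫ t) hφ
      simp only [biprod.inr_desc, biprod.inr_desc_assoc] at this
      rw [Preadditive.neg_comp, neg_inj] at this
      exact this.symm
  · intro X Y g hg
    obtain ⟨w', hw'⟩ := Triangle.yoneda_exact₃ _ (rot_of_distTriang _ (hδ X)) (g⟦(1 : ℤ)⟧') hg
    obtain ⟨w, rfl⟩ := (shiftFunctor (DPM R) (1 : ℤ)).map_surjective w'
    change g⟦(1 : ℤ)⟧' = (-(biprod.lift ((trDLE R (D.U_mono (cab_le ca))).app X)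
      ((trDLE R (D.U_mono (cab_le cb))).app X))⟦(1 : ℤ)⟧') ≫ w⟦(1 : ℤ)⟧' at hw'
    rw [Preadditive.neg_comp, ← Functor.map_comp, ← Functor.map_neg] at hw'
    have h3 := (shiftFunctor (DPM R) (1 : ℤ)).map_injective hw'
    refine ⟨-(biprod.inl ≫ w), biprod.inr ≫ w, ?_⟩
    rw [h3]
    have h4 : w = biprod.desc (biprod.inl ≫ w) (biprod.inr ≫ w) := by
      apply biprod.hom_ext'
      · rw [biprod.inl_desc]
      · rw [biprod.inr_desc]
    unfold Dir.rst
    rw [Preadditive.comp_neg]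
    nth_rewrite 1 [h4]
    rw [biprod.lift_desc]
    abel
  · intro X Y φ h1 h2
    have h0 : biprod.desc ((trDι R (D.U ca)).app X) (-(trDι R (D.U cb)).app X) ≫ φ = 0 := by
      apply biprod.hom_ext'
      · rw [biprod.inl_desc_assoc, comp_zero]; exact h1
      · rw [biprod.inr_desc_assoc, comp_zero, Preadditive.neg_comp]
        rw [show (trDι R (D.U cb)).app X ≫ φ = 0 from h2, neg_zero]
    obtain ⟨g, hg⟩ := Triangle.yoneda_exact₃ _ (hδ X) φ h0
    exact ⟨g, hg⟩
  · intro X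
    have h := comp_distTriang_mor_zero₃₁ _ (hδ X)
    change δ X ≫ (biprod.lift ((trDLE R (D.U_mono (cab_le ca))).app X)
      ((trDLE R (D.U_mono (cab_le cb))).app X))⟦(1 : ℤ)⟧' = 0 at h
    have h2 := congrArg (fun t => t ≫ (biprod.fst)⟦(1 : ℤ)⟧') h
    simp only [Category.assoc, ← Functor.map_comp, biprod.lift_fst, zero_comp] at h2
    exact h2
  · intro X
    have h := comp_distTriang_mor_zero₃₁ _ (hδ X)
    change δ X ≫ (biprod.lift ((trDLE R (D.U_mono (cab_le ca))).app X)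
      ((trDLE R (D.U_mono (cab_le cb))).app X))⟦(1 : ℤ)⟧' = 0 at h
    have h2 := congrArg (fun t => t ≫ (biprod.snd)⟦(1 : ℤ)⟧') h
    simp only [Category.assoc, ← Functor.map_comp, biprod.lift_snd, zero_comp] at h2
    exact h2

end Pool.CRD.D1

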