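import Pool.Agent.CRD.D1.StmtsC
import Pool.Agent.CRD.D1.MVX
import Pool.Agent.CRD.A0.LOC
import Pool.Agent.CRD.D2.Vb
import Pool.Agent.CRD.D2.LNK
import Pool.Agent.CRD.C.FV3

/-!
# CRD, D1: assembly
-/

open CategoryTheory Opposite Limits Pretriangulated

namespace Pool.CRD.D1

namespace ASM_

section OneDir

variable {K : Type} [Field K] {c : CurveData K} {C : Type} [Preorder C] {R : PAlg K C}
  (D : Dir c R)

lemma point [CharZero K] (hCLS : Stmt_CLS) (hTOM : Stmt_TOM) (hPTD : Stmt_PTD) (mv : MV D)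
    (P : DPM R) (h3 : 3 ≤ Module.finrank K c.H1)
    (hfin : Module.Finite K (P ⟶ P⟦(1 : ℤ)⟧)) (h2 : Module.finrank K (P ⟶ P⟦(1 : ℤ)⟧) ≤ 2)
    (hloc : LocP D P P) (hfg : FgP D P P) (hend : ∀ φ : P ⟶ P, ∃ k : K, φ = k • 𝟙 P)
    (hne : 𝟙 P ≠ 0) : ∃ z : c.Pt, AtPt D z P := by
  obtain ⟨f, u, v, hf, huv⟩ := hCLS K c C R D mv P h3 hfin h2
  exact hPTD K c C R D mv P hloc hend hne (hTOM K c C R D P hloc hfg f u v hf huv)

lemma factor (hRET : Stmt_RET) (hRES : Stmt_RES) (hSEQ : Stmt_SEQ) (mv : MV D) (P : DPM R)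
    (z : c.Pt) (hz : AtPt D z P) (N : CochainComplex (PMod R) ℤ)
    (hN : ∀ n, TorsionFree D z.t (N.X n))
    (h1 : LocP D (DerivedCategory.Q.obj (idCx D z N)) P)
    (h2 : LocP D ((DerivedCategory.Q.obj (idCx D z N))⟦(1 : ℤ)⟧) P)
    (r : DerivedCategory.Q.obj N ⟶ P) :
    ∃ r' : DerivedCategory.Q.obj (quCx D z N) ⟶ P,
      DerivedCategory.Q.map (quCxπ D z N) ≫ r' = r := by
  apply hSEQ K c C R D z P N r
  apply hRES K c C R D mv P z hz _ h1 h2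
  exact hRET K c C R D z P (fun f hf => (hz z.t f).1 hf) N hN r

end OneDir

section Bdd

variable {A B : Type 1} [Category.{0} A] [Category.{0} B] [Abelian A] [Abelian B] (F : A ⥤ B)
  [F.Additive] (N : CochainComplex A ℤ)

lemma ge_map (a : ℤ) (h : N.IsStrictlyGE a) :
    CochainComplex.IsStrictlyGE ((F.mapHomologicalComplex (ComplexShape.up ℤ)).obj N) a := by
  rw [CochainComplex.isStrictlyGE_iff] at h ⊢
  exact fun i hi => F.map_isZero (h i hi)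

lemma le_map (a : ℤ) (h : N.IsStrictlyLE a) :
    CochainComplex.IsStrictlyLE ((F.mapHomologicalComplex (ComplexShape.up ℤ)).obj N) a := by
  rw [CochainComplex.isStrictlyLE_iff] at h ⊢
  exact fun i hi => F.map_isZero (h i hi)

end Bdd

section Coh

variable {K : Type} [Field K] {c : CurveData K} {C : Type} [Preorder C] {R : PAlg K C}
  (D : Dir c R) (z : c.Pt) (N : CochainComplex (PMod R) ℤ) (hN : CohCx N)

include hN

lemma coh_id [R.Good] (hCOI : Stmt_COI) : CohCx (idCx D z N) := by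
  obtain ⟨⟨a, b, ha, hb⟩, hc⟩ := hN
  exact ⟨⟨a, b, ge_map _ _ _ ha, le_map _ _ _ hb⟩, fun n => hCOI K c C R D z _ (hc n)⟩

lemma coh_qu (hCOQ : Stmt_COQ) : CohCx (quCx D z N) := by
  obtain ⟨⟨a, b, ha, hb⟩, hc⟩ := hN
  exact ⟨⟨a, b, ge_map _ _ _ ha, le_map _ _ _ hb⟩, fun n => hCOQ K c C R D z _ (hc n)⟩

end Coh

section Killed

variable {K : Type} [Field K] {c c' : CurveData K} {C : Type} [Preorder C] {R : PAlg K C}
  (D : Dir c R) (D' : Dir c' R) (z : c.Pt) (z' : c'.Pt) (M : PMod R)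

lemma killed_qu : KilledBy D z (quObj D z M) := by
  intro X f hf m
  obtain ⟨m, rfl⟩ := Submodule.Quotient.mk_surjective _ m
  exact (Submodule.Quotient.mk_eq_zero (idSub D z M X)).2 (smul_mem_idSub D z hf m)

lemma killed_of (h : KilledBy D' z' M) : KilledBy D' z' (quObj D z M) := by
  intro X f hf m
  obtain ⟨m, rfl⟩ := Submodule.Quotient.mk_surjective _ m
  have h1 := congrArg (Submodule.Quotient.mk (p := idSub D z M X)) (h X f hf m)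
  exact h1.trans (Submodule.Quotient.mk_zero _)

end Killed

section Her

variable {K : Type} [Field K] {a b : Kˣ} [(Cnc a b K).Good]

lemma hered (hEX2 : Stmt_EX2) (hFFD : Stmt_FFD) (h2 : (2 : K) ≠ 0) (hE : Effac (Cnc a b K))
    (M N : Coh (Cnc a b K)) (n : ℤ) (hn : 2 ≤ n)
    (φ : (DerivedCategory.singleFunctor (Coh (Cnc a b K)) 0).obj M ⟶
      ((DerivedCategory.singleFunctor (Coh (Cnc a b K)) 0).obj N)⟦n⟧) : φ = 0 := by
  obtain ⟨-, hf, -⟩ := hFFD K (Cov Bool) (Cnc a b K) hE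
  let J := DerivedCategory.Bounded.ι (C := Coh (Cnc a b K))
  let i : J.obj (((sgB (Cnc a b K)).obj N)⟦n⟧) ≅
      ((DerivedCategory.singleFunctor (Coh (Cnc a b K)) 0).obj N)⟦n⟧ :=
    (J.commShiftIso n).app ((sgB (Cnc a b K)).obj N)
  obtain ⟨f, hf'⟩ := J.map_surjective (X := (sgB (Cnc a b K)).obj M) (φ ≫ i.inv)
  have h0 : f = 0 := Sky.FV3_.zero_of hf M N n
    (fun g => hEX2 K a b h2 M.obj N.obj M.property N.property n hn g) f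
  rw [h0, Functor.map_zero] at hf'
  exact (cancel_mono i.inv).1 (hf'.symm.trans zero_comp.symm)

end Her

section Fin

variable {K : Type} [Field K] {c₁ c₂ : CurveData K} {S : SurfData c₁ c₂} (X : ConicData S)
  (z : S.Pt)

/-- `I_z` on coherent modules -/
noncomputable abbrev F₀ : Coh (Cnc z.u z.v K) ⥤ PMod X.R :=
  (IsCoh (Cnc z.u z.v K)).ι ⋙ X.IF z

lemma F₀_full (hIFF : FB.Stmt_IFF) : (F₀ X z).Full := by
  have : (X.IF z).Full := ⟨fun f => (hIFF K c₁ c₂ S X z _ _).2 f⟩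
  infer_instance

lemma F₀_faithful (hIFF : FB.Stmt_IFF) : (F₀ X z).Faithful := by
  have : (X.IF z).Faithful := ⟨fun h => (hIFF K c₁ c₂ S X z _ _).1 h⟩
  infer_instance

lemma F₀_ex [(Cnc z.u z.v K).Good] (hIEX : FB.Stmt_IEX) : ExF (F₀ X z) := by
  have := hIEX K c₁ c₂ S X z
  have : ExF (IsCoh (Cnc z.u z.v K)).ι :=
    { add := inferInstance, lim := inferInstance, colim := inferInstance }
  infer_instance

/-- the last step: from a complex of modules on the fibre to a single module -/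
lemma last (hIFF : FB.Stmt_IFF) (hIEX : FB.Stmt_IEX) (hIES : FB.Stmt_IES) (hLFT : Stmt_LFT)
    (hHER : Stmt_HER) (hRTR : Stmt_RTR) (hEX2 : Stmt_EX2) (hFFD : Stmt_FFD)
    (hHFC : FB.Stmt_HFC) (hCND : Cn.Stmt_CND) (h2 : (2 : K) ≠ 0) (P : DPM X.R)
    (hend : ∀ φ : P ⟶ P, ∃ k : K, φ = k • 𝟙 P) (hne : 𝟙 P ≠ 0)
    (W : CochainComplex (PMod X.R) ℤ) (hW : CohCx W)
    (hk₁ : ∀ n, KilledBy X.dir₁ z.z₁ (W.X n)) (hk₂ : ∀ n, KilledBy X.dir₂ z.z₂ (W.X n))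
    (i : P ⟶ DerivedCategory.Q.obj W) (r : DerivedCategory.Q.obj W ⟶ P) (hir : i ≫ r = 𝟙 P) :
    ∃ (n : ℤ) (N : Coh (Cnc z.u z.v K)),
      Nonempty (P ≅ (DerivedCategory.singleFunctor (PMod X.R) n).obj ((F₀ X z).obj N)) := by
  haveI : (Cnc z.u z.v K).Good := hCND K K z.u z.v
  haveI := F₀_full X z hIFF
  haveI := F₀_faithful X z hIFF
  haveI := F₀_ex X z hIEX
  obtain ⟨⟨a, b, hWa, hWb⟩, hWc⟩ := hW
  obtain ⟨W₀, ⟨e⟩⟩ := hLFT (Coh (Cnc z.u z.v K)) (PMod X.R) (F₀ X z) W (fun n => by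
    obtain ⟨M, hM, ⟨e⟩⟩ := hIES K c₁ c₂ S X z (W.X n) (hWc n) (hk₁ n) (hk₂ n)
    exact ⟨⟨M, hM⟩, ⟨e⟩⟩)
  have hz : ∀ n, IsZero (W.X n) → IsZero (W₀.X n) := by
    intro n hn
    have h1 : IsZero ((F₀ X z).obj (W₀.X n)) :=
      hn.of_iso ((HomologicalComplex.eval _ _ n).mapIso e)
    rw [IsZero.iff_id_eq_zero] at h1 ⊢
    apply (F₀ X z).map_injective
    rw [CategoryTheory.Functor.map_id, Functor.map_zero]
    exact h1
  have ha : CochainComplex.IsStrictlyGE W₀ a := by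
    rw [CochainComplex.isStrictlyGE_iff] at hWa ⊢
    exact fun i hi => hz i (hWa i hi)
  have hb : CochainComplex.IsStrictlyLE W₀ b := by
    rw [CochainComplex.isStrictlyLE_iff] at hWb ⊢
    exact fun i hi => hz i (hWb i hi)
  let eQ : (mD (F₀ X z)).obj (DerivedCategory.Q.obj W₀) ≅ DerivedCategory.Q.obj W :=
    (F₀ X z).mapDerivedCategoryFactors.app W₀ ≪≫ DerivedCategory.Q.mapIso e
  have hloc : ∀ φ ψ : P ⟶ P, φ + ψ = 𝟙 P → IsIso φ ∨ IsIso ψ := by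
    intro φ ψ h
    obtain ⟨k, rfl⟩ := hend φ
    obtain ⟨l, rfl⟩ := hend ψ
    have key : ∀ k : K, k ≠ 0 → IsIso (k • 𝟙 P) := fun k hk =>
      ⟨k⁻¹ • 𝟙 P, by rw [Linear.smul_comp, Linear.comp_smul, Category.comp_id, smul_smul,
        mul_inv_cancel₀ hk, one_smul], by rw [Linear.smul_comp, Linear.comp_smul,
        Category.comp_id, smul_smul, inv_mul_cancel₀ hk, one_smul]⟩
    by_cases hk : k = 0
    · right
      apply key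
      rintro rfl
      rw [hk, zero_smul, zero_add] at h
      exact hne h.symm
    · exact Or.inl (key k hk)
  obtain ⟨M, n, i', r', hir'⟩ := hHER (Coh (Cnc z.u z.v K))
    (fun M N n hn φ => hered hEX2 hFFD h2 (hHFC K z.u z.v h2).1 M N n hn φ) (DPM X.R)
    (mD (F₀ X z)) P hloc (DerivedCategory.Q.obj W₀) a b
    (by rw [DerivedCategory.isGE_Q_obj_iff]; infer_instance)
    (by rw [DerivedCategory.isLE_Q_obj_iff]; infer_instance)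
    (i ≫ eQ.inv) (eQ.hom ≫ r) (by
      rw [Category.assoc, eQ.inv_hom_id_assoc, hir])
  let eS : (mD (F₀ X z)).obj ((DerivedCategory.singleFunctor _ n).obj M) ≅
      (F₀ X z ⋙ DerivedCategory.singleFunctor (PMod X.R) n).obj M :=
    ((F₀ X z).mapDerivedCategorySingleFunctor n).app M
  obtain ⟨N, hN⟩ := hRTR (Coh (Cnc z.u z.v K)) (DPM X.R)
    (F₀ X z ⋙ DerivedCategory.singleFunctor (PMod X.R) n) P M (i' ≫ eS.hom) (eS.inv ≫ r') (by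
      rw [Category.assoc, eS.hom_inv_id_assoc, hir'])
  exact ⟨n, N, hN⟩

end Fin

end ASM_

open ASM_ LOC_

/-- the result of D1 -/
theorem d1f_proof (hMVX : Stmt_MVX) (hLCX : Stmt_LCX) (hFGX : Stmt_FGX) (hAMX : Stmt_AMX)
    (hSEF : Stmt_SEF) (hFFD : Stmt_FFD) (hSRA : Stmt_SRA) (hTWK : Stmt_TWK) (hVBD : Stmt_VBD)
    (hXGL : FB.Stmt_XGL) (hCLS : Stmt_CLS) (hTOM : Stmt_TOM) (hPTD : Stmt_PTD)
    (hRET : Stmt_RET) (hRES : Stmt_RES) (hSEQ : Stmt_SEQ) (hCOI : Stmt_COI) (hCOQ : Stmt_COQ)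
    (hCCD : Stmt_CCD) (hTFA : Stmt_TFA) (hTFB : Stmt_TFB) (hLFT : Stmt_LFT)
    (hHER : Stmt_HER) (hRTR : Stmt_RTR) (hEX2 : Stmt_EX2) (hICO : FB.Stmt_ICO)
    (hIEX : FB.Stmt_IEX) (hIFF : FB.Stmt_IFF) (hIES : FB.Stmt_IES) (hHFC : FB.Stmt_HFC)
    (hCND : Cn.Stmt_CND) : FB.Stmt_D1F := by
  intro K _ _ _ c₁ c₂ S X _ hg₁ hg₂ _ P hP
  have h2 : (2 : K) ≠ 0 := two_ne_zero
  obtain ⟨A, -⟩ := (hAMX K c₁ c₂ S).2 X
  have hE : Effac X.R := hSEF K K _ Ch3 X.R A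
  obtain ⟨hfull, hfaith, himg⟩ := hFFD K Ch3 X.R hE
  have hGD : ∀ s : Ch3ᵒᵖ, GDim (X.R.obj s) 3 := fun s => (hXGL K h2 c₁ c₂ S X s.unop).2
  -- the object of `D(Mod R)`
  let P' : DPM X.R := (ιD X.R).obj P
  have hcoh : IsCohD X.R P' := (himg P').2 ⟨P, ⟨Iso.refl _⟩⟩
  have e0 : (P ⟶ P⟦(0 : ℤ)⟧) ≃ₗ[K] (P' ⟶ P') :=
    (FB.LNK_.ffEquiv (K := K) (ιD X.R) P P 0).trans
      (Linear.homCongr K (Iso.refl _) ((shiftFunctorZero (DPM X.R) ℤ).app P'))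
  have e1 : (P ⟶ P⟦(1 : ℤ)⟧) ≃ₗ[K] (P' ⟶ P'⟦(1 : ℤ)⟧) :=
    FB.LNK_.ffEquiv (K := K) (ιD X.R) P P 1
  obtain ⟨hfin, hf0, hf1, -, -⟩ := hP
  have hr0 : Module.finrank K (P' ⟶ P') = 1 := by rw [← e0.finrank_eq, hf0]
  have hr1 : Module.finrank K (P' ⟶ P'⟦(1 : ℤ)⟧) ≤ 2 := by rw [← e1.finrank_eq, hf1]
  have hfin1 : Module.Finite K (P' ⟶ P'⟦(1 : ℤ)⟧) := by
    have := hfin 1
    exact Module.Finite.equiv e1
  have hne : 𝟙 P' ≠ 0 := by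
    intro h
    have : Subsingleton (P' ⟶ P') := ⟨fun x y => by
      rw [← Category.comp_id x, ← Category.comp_id y, h, comp_zero, comp_zero]⟩
    rw [Module.finrank_zero_of_subsingleton] at hr0
    exact zero_ne_one hr0
  have hend : ∀ φ : P' ⟶ P', ∃ k : K, φ = k • 𝟙 P' := fun φ => by
    obtain ⟨k, hk⟩ := (finrank_eq_one_iff_of_nonzero' (𝟙 P') hne).1 hr0 φ
    exact ⟨k, hk.symm⟩
  -- the points
  obtain ⟨mv₁⟩ := hMVX K c₁ Ch3 X.R X.dir₁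
  obtain ⟨mv₂⟩ := hMVX K c₂ Ch3 X.R X.dir₂
  obtain ⟨z₁, hz₁⟩ := point X.dir₁ hCLS hTOM hPTD mv₁ P' hg₁ hfin1 hr1
    (hLCX K c₁ c₂ S X P' P' hcoh hcoh).1 (hFGX K c₁ c₂ S X P' P' hcoh hcoh).1 hend hne
  obtain ⟨z₂, hz₂⟩ := point X.dir₂ hCLS hTOM hPTD mv₂ P' hg₂ hfin1 hr1
    (hLCX K c₁ c₂ S X P' P' hcoh hcoh).2 (hFGX K c₁ c₂ S X P' P' hcoh hcoh).2 hend hne
  -- the complex of vector bundles
  obtain ⟨V, a, b, ha, hb, hV, ⟨eP⟩⟩ := hVBD K Ch3 X.R 3 (enough_vb hSRA hTWK X.R A) hGD P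
  let V' : CochainComplex (PMod X.R) ℤ :=
    ((IsCoh X.R).ι.mapHomologicalComplex (ComplexShape.up ℤ)).obj V
  have hV' : CohCx V' := ⟨⟨a, b, ge_map _ _ _ ha, le_map _ _ _ hb⟩, fun n => (V.X n).property⟩
  let e : DerivedCategory.Q.obj V' ≅ P' :=
    ((IsCoh X.R).ι.mapDerivedCategoryFactors.app V).symm ≪≫
      (IsCoh X.R).ι.mapDerivedCategory.mapIso eP.symm
  -- the first direction
  have hid₁ : CohCx (idCx X.dir₁ z₁ V') := coh_id X.dir₁ z₁ V' hV' hCOI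
  have hqu₁ : CohCx (quCx X.dir₁ z₁ V') := coh_qu X.dir₁ z₁ V' hV' hCOQ
  have hcd₁ := hCCD K Ch3 X.R _ hid₁
  obtain ⟨r₁, hr₁⟩ := factor X.dir₁ hRET hRES hSEQ mv₁ P' z₁ hz₁ V'
    (fun n => hTFA K c₁ c₂ S X z₁.t _ (hV n).2)
    (hLCX K c₁ c₂ S X _ P' hcd₁ hcoh).1
    (hLCX K c₁ c₂ S X _ P' (isCohD_shift _ _ hcd₁ 1) hcoh).1 e.hom
  -- the second direction
  have hid₂ : CohCx (idCx X.dir₂ z₂ (quCx X.dir₁ z₁ V')) := coh_id X.dir₂ z₂ _ hqu₁ hCOI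
  have hqu₂ : CohCx (quCx X.dir₂ z₂ (quCx X.dir₁ z₁ V')) := coh_qu X.dir₂ z₂ _ hqu₁ hCOQ
  have hcd₂ := hCCD K Ch3 X.R _ hid₂
  obtain ⟨r₂, hr₂⟩ := factor X.dir₂ hRET hRES hSEQ mv₂ P' z₂ hz₂ (quCx X.dir₁ z₁ V')
    (fun n => hTFB K c₁ c₂ S X z₁ z₂.t _ (hV n).2)
    (hLCX K c₁ c₂ S X _ P' hcd₂ hcoh).2
    (hLCX K c₁ c₂ S X _ P' (isCohD_shift _ _ hcd₂ 1) hcoh).2 r₁
  let z : S.Pt := ⟨z₁, z₂⟩
  obtain ⟨n, N, ⟨i⟩⟩ := last X z hIFF hIEX hIES hLFT hHER hRTR hEX2 hFFD hHFC hCND h2 P' hend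
    hne (quCx X.dir₂ z₂ (quCx X.dir₁ z₁ V')) hqu₂
    (fun n => killed_of X.dir₂ X.dir₁ z₂ z₁ _ (killed_qu X.dir₁ z₁ _))
    (fun n => killed_qu X.dir₂ z₂ _)
    (e.inv ≫ DerivedCategory.Q.map (quCxπ X.dir₁ z₁ V') ≫
      DerivedCategory.Q.map (quCxπ X.dir₂ z₂ (quCx X.dir₁ z₁ V'))) r₂
    (by rw [Category.assoc, Category.assoc, hr₂, hr₁, e.inv_hom_id])
  let P₀ : Coh X.R := ⟨(X.IF z).obj N.obj, hICO K c₁ c₂ S X z N.obj N.property⟩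
  let j : P' ≅ (ιD X.R).obj (((sgB X.R).obj P₀)⟦(-n)⟧) :=
    i ≪≫ ((DerivedCategory.singleFunctors (PMod X.R)).shiftIso (-n) n 0 (by simp)).symm.app _ ≪≫
      (Sky.FV3_.toSgSh P₀ (-n)).symm
  exact ⟨-n, z, N.obj, P₀, N.property, ⟨Iso.refl _⟩, ⟨(ιD X.R).preimageIso j⟩⟩

end Pool.CRD.D1
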