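import Pool.Agent.CRD.D1.Stmts

/-!
# CRD, D1: module CCD (bounded complexes of coherent modules)
-/

open CategoryTheory Opposite Limits Pretriangulated

namespace Pool.CRD.D1

theorem ccd_proof : Stmt_CCD := by
  intro K _ C _ R _ N hN
  obtain ⟨⟨a, b, ha, hb⟩, hc⟩ := hN
  refine ⟨⟨a, b, ?_, ?_⟩, fun n => ?_⟩
  · rw [DerivedCategory.isGE_Q_obj_iff]
    infer_instance
  · rw [DerivedCategory.isLE_Q_obj_iff]
    infer_instance
  · have h1 : IsCoh R (N.cycles n) := by
      refine isCoh_ker (ShortComplex.mk (N.iCycles n) (N.d n (n + 1)) (by simp)) ?_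
        (hc n) (hc (n + 1))
      exact ShortComplex.exact_of_f_is_kernel _ (N.cyclesIsKernel n (n + 1) (by simp))
    have h2 : IsCoh R (N.homology n) := by
      refine isCoh_coker (ShortComplex.mk (N.toCycles (n - 1) n) (N.homologyπ n) (by simp)) ?_
        (hc (n - 1)) h1
      exact ShortComplex.exact_of_g_is_cokernel _ (N.homologyIsCokernel (n - 1) n (by simp))
    exact (IsCoh R).prop_of_iso
      ((DerivedCategory.homologyFunctorFactors (PMod R) n).symm.app N) h2

end Pool.CRD.D1
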