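import Pool.Agent.CRD.D1.Stmts

/-!
# CRD, D1: module CLS (an element of `H^1(C, O)` kills `P`)
-/

open CategoryTheory Opposite Limits Pretriangulated

namespace Pool.CRD.D1

namespace CLS_

variable {K : Type} [Field K] {c : CurveData K} {C : Type} [Preorder C] {R : PAlg K C}
  (D : Dir c R)

lemma sm_smul {t : Cov Bool} {X Y : DPM R} (k : K) (f : c.A t)
    (φ : (trD R (D.U t)).obj X ⟶ Y) : D.sm (k • f) φ = k • D.sm f φ := by
  unfold Dir.sm
  rw [D.act_smul, Linear.smul_comp]

/-- `H^1(C, O)` acts -/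
noncomputable def L (mv : MV D) (P : DPM R) : c.A cab →ₗ[K] (P ⟶ P⟦(1 : ℤ)⟧) where
  toFun f := mv.δ P ≫ (D.sm f (D.io cab P))⟦(1 : ℤ)⟧'
  map_add' f g := by rw [D.sm_add, Functor.map_add, Preadditive.comp_add]
  map_smul' k f := by
    rw [sm_smul, Functor.map_smul, Linear.comp_smul]
    rfl

end CLS_

open CLS_

theorem cls_proof : Stmt_CLS := by
  intro K _ c C _ R D mv P hg hfin h2
  by_contra hcon
  let N := Submodule.comap (c.A cab).val.toLinearMap
    ((Subalgebra.toSubmodule (c.A ca)) ⊔ (Subalgebra.toSubmodule (c.A cb)))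
  have hle : LinearMap.ker (L D mv P) ≤ N := by
    intro f hf
    by_contra hfN
    obtain ⟨u, v, huv⟩ := mv.diff (D.sm f (D.io cab P)) hf
    exact hcon ⟨f, u, v, hfN, huv⟩
  let e := (L D mv P).quotKerEquivRange
  let q : LinearMap.range (L D mv P) →ₗ[K] (c.A cab ⧸ N) :=
    (Submodule.factor hle).comp e.symm.toLinearMap
  have hq : Function.Surjective q :=
    (Submodule.factor_surjective hle).comp e.symm.surjective
  have h3 : Module.finrank K (c.A cab ⧸ N) ≤ Module.finrank K (LinearMap.range (L D mv P)) := by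
    have := LinearMap.finrank_range_le q
    rwa [LinearMap.range_eq_top.2 hq, finrank_top] at this
  have h4 : Module.finrank K (LinearMap.range (L D mv P)) ≤
      Module.finrank K (P ⟶ P⟦(1 : ℤ)⟧) := Submodule.finrank_le _
  have h5 : 3 ≤ Module.finrank K (c.A cab ⧸ N) := hg
  omega

end Pool.CRD.D1
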