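import Pool.Agent.CRD.D1.Stmts

/-!
# CRD, D1: module COI (`J_z M` is coherent)
-/

open CategoryTheory Opposite Limits Pretriangulated

namespace Pool.CRD.D1

theorem coi_proof (hCOQ : Stmt_COQ) : Stmt_COI := by
  intro K _ c C _ R _ D z M hM
  have w : (idι D z).app M ≫ (quπ D z).app M = 0 := by
    apply pmod_ext; intro X x
    exact (Submodule.Quotient.mk_eq_zero (idSub D z M X)).2 (x : idSub D z M X).2
  have hm : Mono ((idι D z).app M) := by
    rw [pmod_mono_iff]
    intro X x y h
    exact Subtype.ext h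
  refine isCoh_ker (ShortComplex.mk ((idι D z).app M) ((quπ D z).app M) w) ?_ hM
    (hCOQ K c C R D z M hM)
  rw [pmod_exact_iff]
  intro X x
  constructor
  · intro h
    exact ⟨(⟨x, (Submodule.Quotient.mk_eq_zero (idSub D z M X)).1 h⟩ : idSub D z M X), rfl⟩
  · rintro ⟨y, rfl⟩
    exact congr(($w).app X y)

end Pool.CRD.D1
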