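import Pool.Agent.CRD.D1.Stmts

/-!
# CRD, D1: module COQ (`M / J_z M` is coherent)
-/

open CategoryTheory Opposite Limits Pretriangulated TensorProduct

namespace Pool.CRD.D1

namespace COQ_

section Alg

variable {A B : Type} [CommRing A] [CommRing B] [Algebra A B]
  {M N : Type} [AddCommGroup M] [AddCommGroup N] [Module A M] [Module B N] [Module A N]
  [IsScalarTower A B N] (m : M →ₗ[A] N) {ι : Type}

lemma finsupp_surj (h : Function.Surjective (cmp B m)) :
    Function.Surjective
      (cmp B (Finsupp.mapRange.linearMap m : (ι →₀ M) →ₗ[A] (ι →₀ N))) := by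
  intro z
  induction z using Finsupp.induction_linear with
  | zero => exact ⟨0, map_zero _⟩
  | add x y hx hy =>
    obtain ⟨a, rfl⟩ := hx
    obtain ⟨b, rfl⟩ := hy
    exact ⟨a + b, map_add _ _ _⟩
  | single j n =>
    obtain ⟨t, rfl⟩ := h n
    refine ⟨(Finsupp.lsingle j : M →ₗ[A] (ι →₀ M)).lTensor B t, ?_⟩
    have := cmp_comm (B := B) (Finsupp.lsingle j : M →ₗ[A] (ι →₀ M))
      (Finsupp.lsingle j : N →ₗ[B] (ι →₀ N)) m
      (Finsupp.mapRange.linearMap m : (ι →₀ M) →ₗ[A] (ι →₀ N)) (fun x => by simp)
    exact (LinearMap.congr_fun this t).symm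

/-- quotients by the submodules generated by the multiples by a family of elements -/
lemma quot_bc (hm : IsBaseChange B m) (e : ι → A) (J : Submodule A M) (J' : Submodule B N)
    (hJ : J = LinearMap.range (Finsupp.lsum A (fun j => e j • (LinearMap.id : M →ₗ[A] M))))
    (hJ' : J' = LinearMap.range (Finsupp.lsum B
      (fun j => algebraMap A B (e j) • (LinearMap.id : N →ₗ[B] N))))
    (q : (M ⧸ J) →ₗ[A] (N ⧸ J')) (hq : ∀ x, q (J.mkQ x) = J'.mkQ (m x)) :
    IsBaseChange B q := by
  rw [isBaseChange_iff_cmp] at *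
  let f₁ : (ι →₀ M) →ₗ[A] M := Finsupp.lsum A (fun j => e j • (LinearMap.id : M →ₗ[A] M))
  let g₁ : (ι →₀ N) →ₗ[B] N := Finsupp.lsum B
      (fun j => algebraMap A B (e j) • (LinearMap.id : N →ₗ[B] N))
  let m₁ : (ι →₀ M) →ₗ[A] (ι →₀ N) := Finsupp.mapRange.linearMap m
  have h₁ : ∀ x, g₁ (m₁ x) = m (f₁ x) := by
    intro x
    induction x using Finsupp.induction_linear with
    | zero => simp
    | add x y hx hy => rw [map_add, map_add, hx, hy, map_add, map_add]
    | single j x => simp [g₁, m₁, f₁]
  have hf : Function.Exact f₁ J.mkQ := by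
    rw [LinearMap.exact_iff, Submodule.ker_mkQ, hJ]
  have hg : Function.Exact g₁ J'.mkQ := by
    rw [LinearMap.exact_iff, Submodule.ker_mkQ, hJ']
  exact LinearMap.bijective_of_surjective_of_bijective_of_right_exact (f₁.lTensor B)
    (J.mkQ.lTensor B) (g₁.restrictScalars A) (J'.mkQ.restrictScalars A) (cmp B m₁) (cmp B m)
    (cmp B q)
    (cmp_comm f₁ g₁ m₁ m h₁) (cmp_comm J.mkQ J'.mkQ m q (fun x => (hq x).symm))
    (lTensor_exact B hf J.mkQ_surjective) hg (finsupp_surj m hm.2)
    hm (LinearMap.lTensor_surjective B J.mkQ_surjective) J'.mkQ_surjective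

lemma range_le (e : ι → A) (N : Submodule A M) (h : ∀ j x, e j • x ∈ N) :
    LinearMap.range (Finsupp.lsum A (fun j => e j • (LinearMap.id : M →ₗ[A] M))) ≤ N := by
  rintro _ ⟨x, rfl⟩
  induction x using Finsupp.induction_linear with
  | zero => rw [map_zero]; exact zero_mem _
  | add x y hx hy => rw [map_add]; exact add_mem hx hy
  | single j x => simpa using h j x

lemma mem_range (e : ι → A) (j : ι) (x : M) :
    e j • x ∈ LinearMap.range (Finsupp.lsum A (fun j => e j • (LinearMap.id : M →ₗ[A] M))) :=
  ⟨Finsupp.single j x, by simp⟩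

end Alg

end COQ_

open COQ_

theorem coq_proof : Stmt_COQ := by
  intro K _ c C _ R D z M hM
  refine ⟨fun X => ?_, fun {X Y} f => ?_⟩
  · have := hM.1 X
    exact Module.Finite.of_surjective (idSub D z M X).mkQ (Submodule.mkQ_surjective _)
  · letI : Algebra (R.obj X) (R.obj Y) := (R.map f).hom.toRingHom.toAlgebra
    letI : Module (R.obj X) (M.obj X) := inferInstanceAs (Module (R.toRing.obj X) (M.obj X))
    letI : Module (R.obj Y) (M.obj Y) := inferInstanceAs (Module (R.toRing.obj Y) (M.obj Y))
    letI : Module (R.obj X) (M.obj Y) := Module.compHom (M.obj Y) (R.map f).hom.toRingHom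
    haveI : IsScalarTower (R.obj X) (R.obj Y) (M.obj Y) :=
      ⟨fun a b c => by rw [Algebra.smul_def, mul_smul]; rfl⟩
    have hle := D.mono (leOfHom f.unop)
    refine quot_bc (A := R.obj X) (B := R.obj Y) (M := M.obj X) (N := M.obj Y)
      (ι := z.J (D.p X.unop)) _ (hM.2 f) (fun j => D.el X j.1) (idSub D z M X) (idSub D z M Y)
      ?_ ?_ _ (fun x => rfl)
    · apply le_antisymm
      · rw [idSub_le_iff]
        intro g hg m
        exact mem_range (A := R.obj X) (M := M.obj X) (ι := z.J (D.p X.unop))
          (fun j => D.el X j.1) ⟨g, hg⟩ m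
      · exact range_le (A := R.obj X) (M := M.obj X) (ι := z.J (D.p X.unop)) (fun j => D.el X j.1)
          (idSub D z M X) (fun j x => smul_mem_idSub D z j.2 x)
    · have key : ∀ g : c.A (D.p X.unop), algebraMap (R.obj X) (R.obj Y) (D.el X g) =
          D.el Y (c.res hle g) := fun g => D.el_map f g
      apply le_antisymm
      · rw [idSub_le_iff]
        intro g hg
        rw [← z.J_map hle, Ideal.map] at hg
        induction hg using Submodule.span_induction with
        | mem g hg =>
          obtain ⟨g, hg, rfl⟩ := hg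
          intro m
          have := mem_range (A := R.obj Y) (M := M.obj Y) (ι := z.J (D.p X.unop))
            (fun j => algebraMap (R.obj X) (R.obj Y) (D.el X j.1)) ⟨g, hg⟩ m
          rw [key] at this
          exact this
        | zero => intro m; rw [D.el_zero, zero_smul]; exact zero_mem _
        | add x y _ _ hx hy => intro m; rw [D.el_add, add_smul]; exact add_mem (hx m) (hy m)
        | smul a x _ hx =>
          intro m
          rw [smul_eq_mul, mul_comm, D.el_mul, mul_smul]
          exact hx _
      · refine range_le (A := R.obj Y) (M := M.obj Y) (ι := z.J (D.p X.unop))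
          (fun j => algebraMap (R.obj X) (R.obj Y) (D.el X j.1)) (idSub D z M Y) (fun j x => ?_)
        rw [key]
        exact smul_mem_idSub D z (z.res_mem_J hle j.2) x

end Pool.CRD.D1
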