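import Pool.Agent.CRD.D1.NSH
import Pool.Agent.CRD.B.Stmts

/-!
# CRD, area D1: projective structures on diagrams of subalgebras of a field
-/

open CategoryTheory Opposite Limits Pretriangulated

namespace Pool.CRD

/-- data giving a projective structure (`Amp`) on a diagram of subalgebras of a field `F`: the line
bundle is given by generators `l V ∈ F`, its sections by elements `g i ∈ F` -/
structure AmpF (K B ι : Type) [Field K] [CommRing B] [Algebra K B] {C : Type} [SemilatticeInf C]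
    {F : Type} [Field F] [Algebra K F] (A : C → Subalgebra K F) where
  v : ι → C
  cov : ∀ V, ∃ i, V ≤ v i
  ρ : B →ₐ[K] F
  ρ_mem : ∀ b V, ρ b ∈ A V
  l : C → F
  l_ne : ∀ V, l V ≠ 0
  l_div : ∀ {V W : C}, W ≤ V → l V / l W ∈ A W ∧ l W / l V ∈ A W
  g : ι → F
  g_ne : ∀ i, g i ≠ 0
  g_mem : ∀ i V, g i / l V ∈ A V
  inv_mem : ∀ i V, l V / g i ∈ A (V ⊓ v i)
  loc : ∀ i V, ∀ z ∈ A (V ⊓ v i), ∃ n : ℕ, (g i / l V) ^ n * z ∈ A V
  fin : ∀ i, ∃ T : Finset F, A (v i) = Algebra.adjoin K (T : Set F) ∧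
    ∀ t ∈ T, IsIntegral (Algebra.adjoin K (Set.range ρ ∪ Set.range (fun j => g j / g i))) t

/-- inclusion of the charts over the chart `t` of the first curve -/
def m₁ (t : Cov Bool) : InfHom Ch2 Ch3 where
  toFun d := ⟨t, d.i, d.j⟩
  map_inf' a b := Ch3.ext (inf_idem t).symm rfl rfl

/-- inclusion of the charts over the chart `t` of the second curve -/
def m₂ (t : Cov Bool) : InfHom Ch2 Ch3 where
  toFun d := ⟨d.i, t, d.j⟩
  map_inf' a b := Ch3.ext rfl (inf_idem t).symm rfl

end Pool.CRD
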