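import Pool.Agent.CRD.D1.StmtsC
import Pool.Agent.CRD.D1.MVX
import Pool.Agent.CRD.A0.LOC
import Pool.Agent.CRD.B.FGC

/-!
# CRD, D1: module EX2 (no extensions of degree at least 2 on the conic)
-/

open CategoryTheory Opposite Limits Pretriangulated

namespace Pool.CRD.D1

open LOC_

namespace EX2_

section Ev

variable {K : Type} [CommRing K] {C : Type} [Preorder C] (R : PAlg K C)

/-- a module in degree `0`, evaluated -/
noncomputable def al (V : C) (M : PMod R) :
    (mD (LOC_.evc R (op V))).obj ((sg R).obj M) ≅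
      (DerivedCategory.singleFunctor (ModuleCat.{0} (R.obj (op V))) 0).obj
        ((LOC_.evc R (op V)).obj M) :=
  ((LOC_.evc R (op V)).mapDerivedCategorySingleFunctor 0).app M

/-- evaluation of extension classes -/
noncomputable def Ph (hTRF : Stmt_TRF) (V : C) (M N : PMod R) (n : ℤ)
    (g : (trD R (LowerSet.Iic V)).obj ((sg R).obj M) ⟶ ((sg R).obj N)⟦n⟧) :
    (DerivedCategory.singleFunctor (ModuleCat.{0} (R.obj (op V))) 0).obj
        ((LOC_.evc R (op V)).obj M) ⟶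
      ((DerivedCategory.singleFunctor (ModuleCat.{0} (R.obj (op V))) 0).obj
        ((LOC_.evc R (op V)).obj N))⟦n⟧ :=
  haveI := T7c (R := R) hTRF (show V ∈ LowerSet.Iic V from le_refl V) ((sg R).obj M)
  (al R V M).inv ≫ inv ((mD (LOC_.evc R (op V))).map
      ((trDι R (LowerSet.Iic V)).app ((sg R).obj M))) ≫
    (mD (LOC_.evc R (op V))).map g ≫ ((mD (LOC_.evc R (op V))).commShiftIso n).hom.app ((sg R).obj N) ≫
      (al R V N).hom⟦n⟧'

variable {R}

lemma Ph_zero (hTRF : Stmt_TRF) (V : C) (M N : PMod R) (n : ℤ) :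
    Ph R hTRF V M N n 0 = 0 := by
  unfold Ph
  rw [Functor.map_zero, zero_comp, comp_zero, comp_zero]

lemma Ph_inj (hEVB : Stmt_EVB) (hTRF : Stmt_TRF) [R.Flt] (V : C) (M N : PMod R) (n : ℤ)
    (hM : CartB M V) : Function.Injective (Ph R hTRF V M N n) := by
  intro f g hfg
  haveI := T7c (R := R) hTRF (show V ∈ LowerSet.Iic V from le_refl V) ((sg R).obj M)
  apply (hEVB K C R V ((sg R).obj M) (((sg R).obj N)⟦n⟧) (fun m => ?_)).1
  · have h1 := (cancel_epi (al R V M).inv).1 hfg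
    have h2 := (cancel_epi (inv ((mD (LOC_.evc R (op V))).map
      ((trDι R (LowerSet.Iic V)).app ((sg R).obj M))))).1 h1
    exact (cancel_mono _).1 h2
  · rcases lt_trichotomy m 0 with h | h | h
    · exact FGC_.cart_zero _ (DerivedCategory.isZero_of_isGE _ 0 m h) V
    · subst h
      intro W h
      exact FGC_.cart_iso ((DerivedCategory.singleFunctorCompHomologyFunctorIso (PMod R) 0).app
        M).symm _ (hM W h)
    · exact FGC_.cart_zero _ (DerivedCategory.isZero_of_isLE _ 0 m h) V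

lemma Ph_smul (hTRF : Stmt_TRF) (V : C) (M N : PMod R) (n : ℤ)
    (s : SecOn R (LowerSet.Iic V))
    (g : (trD R (LowerSet.Iic V)).obj ((sg R).obj M) ⟶ ((sg R).obj N)⟦n⟧) :
    Ph R hTRF V M N n ((mulD s).app _ ≫ g) = wa s V • Ph R hTRF V M N n g := by
  unfold Ph
  rw [Functor.map_comp, ev_mulD]
  simp only [Linear.smul_comp, Linear.comp_smul, Category.id_comp]

/-- sections given by an element of the ring of the maximal chart -/
noncomputable def secV (V : C) (x : R.obj (op V)) : SecOn R (LowerSet.Iic V) where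
  a X := by
    classical
    exact if h : X.unop ≤ V then (R.map (homOfLE h).op).hom x else 0
  compat {X Y} g hX := by
    have hX' : X.unop ≤ V := hX
    have hY' : Y.unop ≤ V := (leOfHom g.unop).trans hX'
    rw [dif_pos hX', dif_pos hY']
    change (R.map g).hom ((R.map (homOfLE hX').op).hom x) = (R.map (homOfLE hY').op).hom x
    have : (homOfLE hY').op = (homOfLE hX').op ≫ g := Subsingleton.elim _ _
    rw [this, R.map_comp]
    rfl

lemma secV_a (V : C) (x : R.obj (op V)) {W : C} (h : W ≤ V) :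
    (secV V x).a (op W) = (R.map (homOfLE h).op).hom x := dif_pos h

lemma Ph_itr (hTRF : Stmt_TRF) (V : C) (M N : PMod R) (n : ℤ)
    (s : SecOn R (LowerSet.Iic V)) (k : ℕ)
    (g : (trD R (LowerSet.Iic V)).obj ((sg R).obj M) ⟶ ((sg R).obj N)⟦n⟧) :
    Ph R hTRF V M N n (itr ((mulD s).app _) k ≫ g) = wa s V ^ k • Ph R hTRF V M N n g := by
  induction k with
  | zero => rw [itr, Category.id_comp, pow_zero, one_smul]
  | succ k ih => rw [itr, Category.assoc, Ph_smul, ih, smul_smul, pow_succ']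

/-- vanishing over a chart -/
lemma van (hEVB : Stmt_EVB) (hTRF : Stmt_TRF) (hEXC : Stmt_EXC) [R.Flt] (V : C) (M N : PMod R)
    (n : ℤ) (hM : CartB M V) (r : ℕ) (h : HasProjectiveDimensionLE ((LOC_.evc R (op V)).obj M) r)
    (hn : (r : ℤ) < n)
    (g : (trD R (LowerSet.Iic V)).obj ((sg R).obj M) ⟶ ((sg R).obj N)⟦n⟧) : g = 0 := by
  apply Ph_inj hEVB hTRF V M N n hM
  rw [Ph_zero]
  exact hEXC (R.obj (op V)) _ _ r h n hn _

end Ev

section Pol

variable {K : Type} [Field K] {A : Type} [CommRing A] [Algebra K A]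

/-- a unit of an algebra whose quotient by `y` is finite has a polynomial inverse modulo `y` -/
lemma exists_pol (y w : A) (hw : IsUnit w) (hf : Module.Finite K (A ⧸ Ideal.span {y})) (k : ℕ) :
    ∃ (b : Polynomial K) (c : A), Polynomial.aeval w b * w ^ k + c * y = 1 := by
  obtain ⟨q, hq, hq0⟩ := IsIntegral.of_finite K (Ideal.Quotient.mk (Ideal.span {y}) w)
  have hq1 : Polynomial.aeval w q ∈ Ideal.span {y} := by
    rw [← Ideal.Quotient.eq_zero_iff_mem]
    have : Ideal.Quotient.mk (Ideal.span {y}) (Polynomial.aeval w q) =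
        Polynomial.aeval (Ideal.Quotient.mk (Ideal.span {y}) w) q :=
      (Polynomial.aeval_algHom_apply (Ideal.Quotient.mkₐ K (Ideal.span {y})) w q).symm
    rw [this]
    exact hq0
  obtain ⟨c, hc⟩ := Ideal.mem_span_singleton'.1 hq1
  obtain ⟨q', hqq, hq'⟩ := Polynomial.exists_eq_pow_rootMultiplicity_mul_and_not_dvd q
    hq.ne_zero 0
  rw [map_zero, sub_zero] at hqq hq'
  have hcop : IsCoprime (Polynomial.X ^ k : Polynomial K) q' :=
    ((Polynomial.irreducible_X.coprime_iff_not_dvd).2 hq').pow_left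
  obtain ⟨u, v, huv⟩ := hcop
  obtain ⟨w', hw'⟩ := hw
  set j := Polynomial.rootMultiplicity 0 q
  have h1 : Polynomial.aeval w q' = (↑w'⁻¹ : A) ^ j * c * y := by
    have h2 : w ^ j * Polynomial.aeval w q' = c * y := by
      rw [hc, hqq]
      simp
    rw [mul_assoc, ← h2, ← mul_assoc, ← hw', ← mul_pow, Units.inv_mul, one_pow, one_mul]
  refine ⟨u, Polynomial.aeval w v * ((↑w'⁻¹ : A) ^ j * c), ?_⟩
  have h3 := congrArg (Polynomial.aeval w) huv
  rw [map_add, map_mul, map_mul, map_pow, Polynomial.aeval_X, map_one, h1] at h3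
  rw [← h3]
  ring

end Pol

section Con

variable {K : Type} [Field K] (a b : Kˣ)

lemma isUnit_T : IsUnit (Cn.Tn (K := K) a b 1) := by
  have h : Cn.Tn (K := K) a b 1 * Cn.Tn (K := K) a b (-1) = 1 := by
    have := Tel_mul a b K (k := cab) (exR_all ⟨Finset.mem_univ _, Finset.mem_univ _⟩ 1)
      (exR_all ⟨Finset.mem_univ _, Finset.mem_univ _⟩ (-1))
      (exR_all ⟨Finset.mem_univ _, Finset.mem_univ _⟩ 0) (by norm_num)
    exact this.trans (Tel_zero a b K _)
  exact IsUnit.of_mul_eq_one _ h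

/-- the open `U_ab` is the part `{T ≠ 0}` of `U_a` -/
lemma isDOn (hCLA : Cn.Stmt_CLA) :
    IsDOn (Cnc a b K) (LowerSet.Iic ca) (LowerSet.Iic cab)
      (secV (R := Cnc a b K) ca (Cn.TA (K := K) a b)) := by
  intro W hW
  have hW' : W ≤ ca := hW
  rcases CurveData.Pt.cov_bool_le_cases hW' with rfl | rfl
  · refine ⟨cab, cab_le_ca, le_refl cab, fun W _ h => h, ?_⟩
    have h1 : (secV (R := Cnc a b K) ca (Cn.TA (K := K) a b)).a (op ca) =
        Cn.TA (K := K) a b := by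
      rw [secV_a (R := Cnc a b K) ca _ (le_refl ca)]
      rfl
    rw [h1]
    exact hCLA K K a b
  · refine ⟨cab, le_refl cab, le_refl cab, fun W _ h => h, ?_⟩
    have h1 : (secV (R := Cnc a b K) ca (Cn.TA (K := K) a b)).a (op cab) =
        Cn.Tn (K := K) a b 1 := by
      rw [secV_a (R := Cnc a b K) ca _ cab_le_ca]
      rfl
    rw [h1]
    letI := ((Cnc a b K).map (homOfLE (le_refl cab)).op).hom.toRingHom.toAlgebra
    exact IsLocalization.away_of_isUnit_of_bijective _ (isUnit_T a b)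
      ⟨fun x y h => h, fun y => ⟨y, rfl⟩⟩

lemma lift (hEVB : Stmt_EVB) (hTRF : Stmt_TRF) (hEXB : Stmt_EXB) (hLOC : Stmt_LOC)
    (hCDM : Cn.Stmt_CDM) (hCFD : Cn.Stmt_CFD) (hCLA : Cn.Stmt_CLA)
    (h2 : (2 : K) ≠ 0) [(Cnc a b K).Good] (M N : PMod (Cnc a b K))
    (hM : IsCoh (Cnc a b K) M) (hN : IsCoh (Cnc a b K) N)
    (hMD : IsCohD _ ((sg (Cnc a b K)).obj M)) (hND : IsCohD _ (((sg (Cnc a b K)).obj N)⟦(1 : ℤ)⟧))
    (hab : LowerSet.Iic cab ≤ LowerSet.Iic ca)
    (g : (trD (Cnc a b K) (LowerSet.Iic cab)).obj ((sg _).obj M) ⟶ ((sg _).obj N)⟦(1 : ℤ)⟧) :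
    ∃ f : (trD (Cnc a b K) (LowerSet.Iic ca)).obj ((sg _).obj M) ⟶ ((sg _).obj N)⟦(1 : ℤ)⟧,
      g = (trDLE (Cnc a b K) hab).app _ ≫ f := by
  haveI := hCDM K a b h2 cab
  have hcM : ∀ V, CartB M V := fun V W h => hM.2 _
  obtain ⟨y, hy, hyg⟩ := hEXB ((Cnc a b K).ring cab) _ _ (hM.1 (op cab)) 1 le_rfl
    (Ph (Cnc a b K) hTRF cab M N 1 g)
  obtain ⟨-, hloc⟩ := hLOC K (Cov Bool) (Cnc a b K) _ _ hab _ (isDOn a b hCLA) _ _ hMD hND
  obtain ⟨k, f, hkf⟩ := hloc g
  have hw : wa ((secV (R := Cnc a b K) ca (Cn.TA (K := K) a b)).res hab) cab =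
      Cn.Tn (K := K) a b 1 := by
    change (secV (R := Cnc a b K) ca (Cn.TA (K := K) a b)).a (op cab) = _
    rw [secV_a (R := Cnc a b K) ca _ cab_le_ca]
    rfl
  obtain ⟨p, c, hpc⟩ := exists_pol (K := K) y (Cn.Tn (K := K) a b 1)
    (isUnit_T a b)
    (hCFD K a b h2 cab y hy) k
  refine ⟨(mulD (secV (R := Cnc a b K) ca (Polynomial.aeval (Cn.TA (K := K) a b) p))).app _ ≫ f,
    ?_⟩
  apply Ph_inj hEVB hTRF cab M N 1 (hcM cab)
  rw [← Category.assoc, trDLE_mulD, Category.assoc, Ph_smul, ← hkf, Ph_itr, smul_smul, hw]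
  have h3 : wa ((secV (R := Cnc a b K) ca
      (Polynomial.aeval (Cn.TA (K := K) a b) p)).res hab) cab =
      Polynomial.aeval (Cn.Tn (K := K) a b 1) p := by
    change (secV (R := Cnc a b K) ca (Polynomial.aeval (Cn.TA (K := K) a b) p)).a (op cab) = _
    rw [secV_a (R := Cnc a b K) ca _ cab_le_ca]
    exact (Polynomial.aeval_algHom_apply ((Cnc a b K).map (homOfLE cab_le_ca).op).hom
      (Cn.TA (K := K) a b) p).symm
  rw [h3]
  have h4 : Ph (Cnc a b K) hTRF cab M N 1 g = (Polynomial.aeval (Cn.Tn (K := K) a b 1) p *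
      Cn.Tn (K := K) a b 1 ^ k + c * y) • Ph (Cnc a b K) hTRF cab M N 1 g := by
    rw [hpc, one_smul]
  have hyg' : y • Ph (Cnc a b K) hTRF cab M N 1 g = 0 := hyg
  rw [add_smul, mul_smul c y, hyg', smul_zero, add_zero] at h4
  exact h4

end Con

end EX2_

open EX2_

/-- a module is a coherent object of the derived category -/
lemma EX2_.isCohD_sg {K : Type} [CommRing K] {C : Type} [SmallCategory C] {R : PAlg K C}
    (M : PMod R) (hM : IsCoh R M) : IsCohD R ((sg R).obj M) := by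
  refine ⟨⟨0, 0, inferInstance, inferInstance⟩, fun n => ?_⟩
  rcases lt_trichotomy n 0 with h | h | h
  · exact isCoh_zero (DerivedCategory.isZero_of_isGE _ 0 n h)
  · subst h
    exact (IsCoh R).prop_of_iso
      ((DerivedCategory.singleFunctorCompHomologyFunctorIso (PMod R) 0).app M).symm hM
  · exact isCoh_zero (DerivedCategory.isZero_of_isLE _ 0 n h)

theorem ex2_proof (hEVB : Stmt_EVB) (hTRF : Stmt_TRF) (hMVT : Stmt_MVT) (hLOC : Stmt_LOC)
    (hEXB : Stmt_EXB) (hEXC : Stmt_EXC) (hCGL : FB.Stmt_CGL) (hCND : Cn.Stmt_CND)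
    (hCLA : Cn.Stmt_CLA) (hCDM : Cn.Stmt_CDM) (hCFD : Cn.Stmt_CFD) : Stmt_EX2 := by
  intro K _ a b h2 M N hM hN n hn e
  haveI : (Cnc a b K).Good := hCND K K a b
  have hgd : ∀ k, GDim (conSub a b K k) (0 + 1) := fun k =>
    (hCGL K a b K 0 (Ne.isUnit h2) (fun P => by
      haveI : Module.Projective K P := inferInstance
      haveI : Projective P := (IsProjective.iff_projective P).1 inferInstance
      change HasProjectiveDimensionLT P 1
      infer_instance) k).2
  have hcM : ∀ V, CartB M V := fun V W h => hM.2 _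
  have hv : ∀ (V : Cov Bool) (m : ℤ), 2 ≤ m →
      ∀ g : (trD (Cnc a b K) (LowerSet.Iic V)).obj ((sg (Cnc a b K)).obj M) ⟶
        ((sg (Cnc a b K)).obj N)⟦m⟧, g = 0 := fun V m hm g =>
    van hEVB hTRF hEXC V M N m (hcM V) 1 (hgd V _ (hM.1 (op V))) (by omega) g
  have hab : LowerSet.Iic cab ≤ LowerSet.Iic ca := LowerSet.Iic_le.2 cab_le_ca
  have hbb : LowerSet.Iic cab ≤ LowerSet.Iic cb := LowerSet.Iic_le.2 cab_le_cb
  obtain ⟨δ, hδ⟩ := MVX_.hasTri (R := Cnc a b K) (LowerSet.Iic ca) (LowerSet.Iic cb)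
    (LowerSet.Iic cab) hab hbb (by rw [← LowerSet.Iic_inf, ca_inf_cb]) (by
      ext s
      simp only [LowerSet.coe_sup, LowerSet.coe_top, Set.mem_univ, iff_true]
      rcases cov_bool_cases s with h | h | h
      · left; change s ≤ ca; rw [h]
      · right; change s ≤ cb; rw [h]
      · left; change s ≤ ca; rw [h]; exact cab_le _) (hMVT K _ _ _ _) ((sg (Cnc a b K)).obj M)
  have h0 : biprod.desc ((trDι (Cnc a b K) (LowerSet.Iic ca)).app ((sg (Cnc a b K)).obj M))
      (-(trDι (Cnc a b K) (LowerSet.Iic cb)).app ((sg (Cnc a b K)).obj M)) ≫ e = 0 := by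
    apply biprod.hom_ext'
    · exact (hv ca n hn _).trans (hv ca n hn _).symm
    · exact (hv cb n hn _).trans (hv cb n hn _).symm
  obtain ⟨g', hg'⟩ := Triangle.yoneda_exact₃ _ hδ e h0
  change ((trD (Cnc a b K) (LowerSet.Iic cab)).obj ((sg (Cnc a b K)).obj M))⟦(1 : ℤ)⟧ ⟶ _ at g'
  change e = δ ≫ g' at hg'
  let i := (shiftFunctorAdd' (DPM (Cnc a b K)) (n - 1) 1 n (by omega)).app
    ((sg (Cnc a b K)).obj N)
  obtain ⟨g, hg⟩ := (shiftFunctor (DPM (Cnc a b K)) (1 : ℤ)).map_surjective (g' ≫ i.hom)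
  have hgi : g' = g⟦(1 : ℤ)⟧' ≫ i.inv := by
    rw [hg, Category.assoc, i.hom_inv_id, Category.comp_id]
  rw [hg', hgi]
  by_cases h3 : 3 ≤ n
  · rw [hv cab (n - 1) (by omega) g, Functor.map_zero, zero_comp, comp_zero]
  · obtain rfl : n = 2 := by omega
    obtain ⟨f, hf⟩ := lift a b hEVB hTRF hEXB hLOC hCDM hCFD hCLA h2 M N hM hN
      (EX2_.isCohD_sg M hM) (isCohD_shift _ _ (EX2_.isCohD_sg N hN) 1) hab g
    have hz := comp_distTriang_mor_zero₃₁ _ hδ
    change δ ≫ (biprod.lift ((trDLE (Cnc a b K) hab).app ((sg (Cnc a b K)).obj M))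
        ((trDLE (Cnc a b K) hbb).app ((sg (Cnc a b K)).obj M)))⟦(1 : ℤ)⟧' = 0 at hz
    have hz2 := congrArg (fun t => t ≫ (biprod.fst)⟦(1 : ℤ)⟧') hz
    simp only [Category.assoc, ← Functor.map_comp, biprod.lift_fst, zero_comp] at hz2
    rw [hf, Functor.map_comp, Category.assoc, ← Category.assoc, hz2, zero_comp]

end Pool.CRD.D1
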