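import Pool.Agent.CRD.D1.StmtsC

/-!
# CRD / D1: EXA, surjections over a domain split after multiplication by a non-zero element
-/

open CategoryTheory Opposite Limits Pretriangulated

namespace Pool.CRD.D1

theorem exa_proof : Stmt_EXA := by
  intro A P P' _ _ _ _ _ _ _ p hp
  obtain ⟨n, e, he⟩ := Module.Finite.exists_fin (R := A) (M := P)
  obtain ⟨s, hs, hmax⟩ := exists_maximal_linearIndepOn A e
  have h1 : ∀ i, ∃ a : A, a ≠ 0 ∧ a • e i ∈ Submodule.span A (e '' s) := by
    intro i
    by_cases hi : i ∈ s
    · exact ⟨1, one_ne_zero, by rw [one_smul]; exact Submodule.subset_span ⟨i, hi, rfl⟩⟩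
    · exact hmax i hi
  choose a ha0 ha using h1
  let x : A := ∏ i, a i
  have hx : x ≠ 0 := Finset.prod_ne_zero_iff.2 (fun i _ => ha0 i)
  have hr : e '' s = Set.range (fun i : s => e i) := by
    ext y
    simp
  have h2 : ∀ m : P, x • m ∈ Submodule.span A (Set.range (fun i : s => e i)) := by
    intro m
    rw [← hr]
    have hm : m ∈ Submodule.span A (Set.range e) := by rw [he]; exact Submodule.mem_top
    induction hm using Submodule.span_induction with
    | mem y hy =>
      obtain ⟨i, rfl⟩ := hy
      obtain ⟨c, hc⟩ : a i ∣ x := Finset.dvd_prod_of_mem _ (Finset.mem_univ i)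
      rw [hc, mul_comm, mul_smul]
      exact Submodule.smul_mem _ _ (ha i)
    | zero => rw [smul_zero]; exact Submodule.zero_mem _
    | add y z _ _ hy hz => rw [smul_add]; exact Submodule.add_mem _ hy hz
    | smul c y _ hy =>
      rw [smul_comm]
      exact Submodule.smul_mem _ _ hy
  have hli : LinearIndependent A (fun i : s => e i) := hs
  choose q hq using fun i : s => hp (e i)
  let α : P →ₗ[A] Submodule.span A (Set.range (fun i : s => e i)) :=
    (LinearMap.lsmul A P x).codRestrict _ h2
  refine ⟨x, (Finsupp.linearCombination A q) ∘ₗ (hli.repr : _ →ₗ[A] _) ∘ₗ α, hx, fun m => ?_⟩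
  have h3 : ∀ c : s →₀ A, p (Finsupp.linearCombination A q c) =
      Finsupp.linearCombination A (fun i : s => e i) c := by
    intro c
    rw [Finsupp.linearCombination_apply, Finsupp.linearCombination_apply, map_finsuppSum]
    refine Finsupp.sum_congr (fun i _ => ?_)
    rw [map_smul, hq]
  rw [LinearMap.comp_apply, h3]
  exact hli.linearCombination_repr (α m)

end Pool.CRD.D1
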