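import Pool.Agent.CRD.D1.StmtsC

/-!
# CRD / D1: EXB, extension classes of positive degree over a domain are torsion
-/

open CategoryTheory Opposite Limits Pretriangulated

namespace Pool.CRD.D1

theorem exb_proof (hEFA : Pool.CRD.Stmt_EFA) (hEXA : Stmt_EXA) : Stmt_EXB := by
  intro A _ _ P Q hP n hn g
  obtain ⟨M', p, hp, hpg⟩ := hEFA (ModuleCat.{0} A) P Q n hn g
  obtain ⟨x, σ, hx, hσ⟩ := hEXA A P M' p.hom ((ModuleCat.epi_iff_surjective p).1 hp)
  refine ⟨x, hx, ?_⟩
  have h1 : ModuleCat.ofHom σ ≫ p = x • 𝟙 P := by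
    ext m
    exact hσ m
  have h2 : (DerivedCategory.singleFunctor (ModuleCat.{0} A) 0).map (ModuleCat.ofHom σ) ≫
      (DerivedCategory.singleFunctor (ModuleCat.{0} A) 0).map p ≫ g = x • g := by
    rw [← Functor.map_comp_assoc, h1, Functor.map_smul, CategoryTheory.Functor.map_id,
      Linear.smul_comp, Category.id_comp]
  rw [← h2, hpg, comp_zero]

end Pool.CRD.D1
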