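import Pool.Agent.CRD.D1.StmtsC

/-!
# CRD, D1: module EXC (extension classes above the projective dimension)
-/

open CategoryTheory Opposite Limits Pretriangulated

namespace Pool.CRD.D1

theorem exc_proof : Stmt_EXC := by
  intro A _ P Q r hr n hn g
  obtain ⟨m, rfl⟩ : ∃ m : ℕ, n = (m : ℤ) := ⟨n.toNat, by omega⟩
  have h1 : r + 1 ≤ m := by omega
  have h2 := (Abelian.Ext.homEquiv (X := P) (Y := Q) (n := m)).apply_symm_apply g
  have h3 : (Abelian.Ext.homEquiv (X := P) (Y := Q) (n := m)).symm g = 0 := by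
    have := HasProjectiveDimensionLT.subsingleton P (r + 1) m h1 Q
    exact Subsingleton.elim _ _
  rw [← h2, h3]
  exact Abelian.Ext.zero_hom _ _ _

end Pool.CRD.D1
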