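import Pool.Agent.CRD.D1.StmtsB

/-!
# CRD, area D1: FGX: finiteness of `Hom` over the charts of the curves
-/

open CategoryTheory Opposite Limits Pretriangulated

namespace Pool.CRD.D1

namespace FGX_

variable {K : Type} [Field K] {c₁ c₂ : CurveData K} {S : SurfData c₁ c₂}

theorem finite_Ch2 : Finite Ch2 := by
  refine Finite.of_injective (fun s : Ch2 => (s.i, s.j)) ?_
  intro s t h
  cases s; cases t
  simpa using h

theorem part1 (hFGU : Pool.CRD.Stmt_FGU) (hAFI : Stmt_AFI) (hAF1 : Stmt_AF1) (hGOX : Stmt_GOX)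
    (X : ConicData S) (M N : DPM X.R) (hM : IsCohD X.R M) (hN : IsCohD X.R N) :
    FgP X.dir₁ M N := by
  intro t ht
  obtain ⟨a, ha⟩ := hAF1 K c₁ c₂ S X t ht
  obtain ⟨Am, -, hAm⟩ := hAFI K (c₁.A t) (Bool × Bool) Ch2 X.E (fun d : Ch2 => X.A t d.i d.j)
    (fun {U V : Ch2} (h : V ≤ U) => X.A_mono (le_refl t) h.1 h.2) a
  have : X.R.Good := (hGOX K c₁ c₂ S).2 X
  have := finite_Ch2
  have : IsDedekindDomain (c₁.A t) := c₁.ded t
  have : IsNoetherianRing (c₁.A t) := inferInstance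
  exact hFGU K (c₁.A t) (Bool × Bool) Ch3 Ch2 X.R (m₁ t) (X.dir₁.U t)
    (fun V => ⟨fun h => ⟨⟨V.j, V.k⟩, ⟨h, le_refl _, le_refl _⟩⟩, fun ⟨d, hd⟩ => hd.1⟩)
    Am (fun b => X.dir₁.sec t b)
    (fun b Y => (Dir.sec_a X.dir₁ b (X := (OrderHomClass.mono (m₁ t)).functor.op.obj Y)
      (show X.dir₁.p (m₁ t Y.unop) ≤ t from le_refl t)).trans
      (Subtype.ext ((hAm b Y).trans (ha b)).symm)) M N hM hN

theorem part2 (hFGU : Pool.CRD.Stmt_FGU) (hAFI : Stmt_AFI) (hAF2 : Stmt_AF2) (hGOX : Stmt_GOX)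
    (X : ConicData S) (M N : DPM X.R) (hM : IsCohD X.R M) (hN : IsCohD X.R N) :
    FgP X.dir₂ M N := by
  intro t ht
  obtain ⟨a, ha⟩ := hAF2 K c₁ c₂ S X t ht
  obtain ⟨Am, -, hAm⟩ := hAFI K (c₂.A t) (Bool × Bool) Ch2 X.E (fun d : Ch2 => X.A d.i t d.j)
    (fun {U V : Ch2} (h : V ≤ U) => X.A_mono h.1 (le_refl t) h.2) a
  have : X.R.Good := (hGOX K c₁ c₂ S).2 X
  have := finite_Ch2
  have : IsDedekindDomain (c₂.A t) := c₂.ded t
  have : IsNoetherianRing (c₂.A t) := inferInstance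
  exact hFGU K (c₂.A t) (Bool × Bool) Ch3 Ch2 X.R (m₂ t) (X.dir₂.U t)
    (fun V => ⟨fun h => ⟨⟨V.i, V.k⟩, ⟨le_refl _, h, le_refl _⟩⟩, fun ⟨d, hd⟩ => hd.2.1⟩)
    Am (fun b => X.dir₂.sec t b)
    (fun b Y => (Dir.sec_a X.dir₂ b (X := (OrderHomClass.mono (m₂ t)).functor.op.obj Y)
      (show X.dir₂.p (m₂ t Y.unop) ≤ t from le_refl t)).trans
      (Subtype.ext ((hAm b Y).trans (ha b)).symm)) M N hM hN

end FGX_

theorem fgx_proof (hFGU : Pool.CRD.Stmt_FGU) (hAFI : Stmt_AFI) (hAF1 : Stmt_AF1)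
    (hAF2 : Stmt_AF2) (hGOX : Stmt_GOX) : Stmt_FGX := by
  intro K _ c₁ c₂ S X M N hM hN
  exact ⟨FGX_.part1 hFGU hAFI hAF1 hGOX X M N hM hN, FGX_.part2 hFGU hAFI hAF2 hGOX X M N hM hN⟩

end Pool.CRD.D1
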