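import Pool.Agent.CRD.D1.StmtsB

/-!
# CRD, D1: module GOX (the diagrams are good)
-/

open CategoryTheory Opposite Limits Pretriangulated

namespace Pool.CRD.D1

namespace GOX_

lemma le_one {U : Cov Bool} {a : Bool} : U ≤ Cov.one a ↔ a ∈ U.s := by
  rw [Cov.le_def]
  exact Finset.singleton_subset_iff

end GOX_

open GOX_

theorem gox_proof (hSGD : Pool.CRD.Stmt_SGD) (hAMX : Stmt_AMX) : Stmt_GOX := by
  intro K _ c₁ c₂ S
  obtain ⟨⟨AS, hS⟩, hX⟩ := hAMX K c₁ c₂ S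
  refine ⟨?_, fun X => ?_⟩
  · apply hSGD K K (Bool × Bool) Ch2 S.R AS
    intro V
    refine ⟨V.i.s ×ˢ V.j.s, V.i.ne.product V.j.ne, le_antisymm ?_ ?_⟩
    · rw [Finset.le_inf'_iff]
      rintro ⟨a, b⟩ hab
      rw [Finset.mem_product] at hab
      rw [hS]
      exact ⟨le_one.2 hab.1, le_one.2 hab.2⟩
    · have key : ∀ a ∈ V.i.s, ∀ b ∈ V.j.s,
          (V.i.s ×ˢ V.j.s).inf' (V.i.ne.product V.j.ne) AS.v ≤ ⟨Cov.one a, Cov.one b⟩ := by
        intro a ha b hb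
        rw [← hS]
        exact Finset.inf'_le _ (Finset.mem_product.2 ⟨ha, hb⟩)
      obtain ⟨a₀, ha₀⟩ := V.i.ne
      obtain ⟨b₀, hb₀⟩ := V.j.ne
      refine ⟨?_, ?_⟩
      · intro a ha
        exact le_one.1 (key a ha b₀ hb₀).1
      · intro b hb
        exact le_one.1 (key a₀ ha₀ b hb).2
  · obtain ⟨AX, hX⟩ := hX X
    apply hSGD K K (Bool × Bool × Bool) Ch3 X.R AX
    intro V
    refine ⟨V.i.s ×ˢ (V.j.s ×ˢ V.k.s), V.i.ne.product (V.j.ne.product V.k.ne),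
      le_antisymm ?_ ?_⟩
    · rw [Finset.le_inf'_iff]
      rintro ⟨a, b, d⟩ hab
      rw [Finset.mem_product, Finset.mem_product] at hab
      rw [hX]
      exact ⟨le_one.2 hab.1, le_one.2 hab.2.1, le_one.2 hab.2.2⟩
    · have key : ∀ a ∈ V.i.s, ∀ b ∈ V.j.s, ∀ d ∈ V.k.s,
          (V.i.s ×ˢ (V.j.s ×ˢ V.k.s)).inf' (V.i.ne.product (V.j.ne.product V.k.ne)) AX.v ≤
            ⟨Cov.one a, Cov.one b, Cov.one d⟩ := by
        intro a ha b hb d hd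
        rw [← hX]
        exact Finset.inf'_le _ (Finset.mem_product.2 ⟨ha, Finset.mem_product.2 ⟨hb, hd⟩⟩)
      obtain ⟨a₀, ha₀⟩ := V.i.ne
      obtain ⟨b₀, hb₀⟩ := V.j.ne
      obtain ⟨d₀, hd₀⟩ := V.k.ne
      refine ⟨?_, ?_, ?_⟩
      · intro a ha
        exact le_one.1 (key a ha b₀ hb₀ d₀ hd₀).1
      · intro b hb
        exact le_one.1 (key a₀ ha₀ b hb d₀ hd₀).2.1
      · intro d hd
        exact le_one.1 (key a₀ ha₀ b₀ hb₀ d hd).2.2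

end Pool.CRD.D1
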