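import Pool.Agent.CRD.D1.Stmts

/-!
CRD area D1, module HER: over a hereditary abelian category an object with local endomorphism
ring which is a retract of the image of a bounded object is a retract of the image of a shifted
object of the category.
-/

set_option autoImplicit false

open CategoryTheory Opposite Limits Pretriangulated

namespace Pool.CRD.D1

namespace HER_

open DerivedCategory DerivedCategory.TStructure

variable {A : Type 1} [Category.{0} A] [Abelian A] [HasDerivedCategory.{1} A]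

/-- the hereditary property, for objects in arbitrary degrees -/
theorem hom_single
    (hA : ∀ (M N : A) (n : ℤ), 2 ≤ n →
      ∀ φ : (DerivedCategory.singleFunctor A 0).obj M ⟶
        ((DerivedCategory.singleFunctor A 0).obj N)⟦n⟧, φ = 0)
    (M N : A) (b c : ℤ) (hbc : c + 2 ≤ b)
    (φ : (DerivedCategory.singleFunctor A b).obj M ⟶
      (DerivedCategory.singleFunctor A c).obj N) : φ = 0 := by
  let e₁ : ((DerivedCategory.singleFunctor A b).obj M)⟦b⟧ ≅
      (DerivedCategory.singleFunctor A 0).obj M :=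
    ((DerivedCategory.singleFunctors A).shiftIso b 0 b (by simp)).app M
  let e₂ : ((DerivedCategory.singleFunctor A c).obj N)⟦b⟧ ≅
      (DerivedCategory.singleFunctor A (c - b)).obj N :=
    ((DerivedCategory.singleFunctors A).shiftIso b (c - b) c (by simp)).app N
  let e₃ : ((DerivedCategory.singleFunctor A 0).obj N)⟦b - c⟧ ≅
      (DerivedCategory.singleFunctor A (c - b)).obj N :=
    ((DerivedCategory.singleFunctors A).shiftIso (b - c) (c - b) 0 (by simp)).app N
  have h := hA M N (b - c) (by lia) (e₁.inv ≫ φ⟦b⟧' ≫ e₂.hom ≫ e₃.inv)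
  have h1 : φ⟦b⟧' = 0 := by
    have h2 : φ⟦b⟧' = e₁.hom ≫ (e₁.inv ≫ φ⟦b⟧' ≫ e₂.hom ≫ e₃.inv) ≫ e₃.hom ≫ e₂.inv := by
      simp
    rw [h2, h]; simp
  exact (shiftFunctor (DerivedCategory A) b).map_injective (by rw [h1]; simp)

/-- truncation triangle of a bounded object -/
theorem exists_tri (W : DerivedCategory A) (a b : ℤ) (hWa : W.IsGE a) (hWb : W.IsLE b) :
    ∃ (X : DerivedCategory A) (N : A) (f : X ⟶ W)
      (g : W ⟶ (DerivedCategory.singleFunctor A b).obj N)
      (h : (DerivedCategory.singleFunctor A b).obj N ⟶ X⟦(1 : ℤ)⟧),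
      Triangle.mk f g h ∈ distTriang (DerivedCategory A) ∧ X.IsGE a ∧ X.IsLE (b - 1) := by
  have hle : ((TStructure.t.truncGE b).obj W).IsLE b := inferInstance
  have hge : ((TStructure.t.truncGE b).obj W).IsGE b := inferInstance
  have hle' : ((TStructure.t.truncLT b).obj W).IsLE (b - 1) := inferInstance
  have hge' : ((TStructure.t.truncLT b).obj W).IsGE a := inferInstance
  obtain ⟨N, ⟨e⟩⟩ := exists_iso_singleFunctor_obj_of_isGE_of_isLE
    ((TStructure.t.truncGE b).obj W) b
  refine ⟨(TStructure.t.truncLT b).obj W, N, (TStructure.t.truncLTι b).app W,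
    (TStructure.t.truncGEπ b).app W ≫ e.hom, e.inv ≫ (TStructure.t.truncGEδLT b).app W,
    ?_, hge', hle'⟩
  refine isomorphic_distinguished _ (TStructure.t.triangleLTGE_distinguished b W) _ ?_
  refine Triangle.isoMk _ _ (Iso.refl _) (Iso.refl _) e.symm ?_ ?_ ?_
  · exact (Category.comp_id _).trans (Category.id_comp _).symm
  · have h1 : ((TStructure.t.truncGEπ b).app W ≫ e.hom) ≫ e.inv =
        𝟙 _ ≫ (TStructure.t.truncGEπ b).app W := by
      rw [Category.assoc, e.hom_inv_id, Category.comp_id, Category.id_comp]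
    exact h1
  · have h1 : (e.inv ≫ (TStructure.t.truncGEδLT b).app W) ≫
        (shiftFunctor (DerivedCategory A) (1 : ℤ)).map (𝟙 ((TStructure.t.truncLT b).obj W)) =
        e.inv ≫ (TStructure.t.truncGEδLT b).app W := by
      rw [CategoryTheory.Functor.map_id]
      exact Category.comp_id _
    exact h1

/-- no maps from an object in degree `b` to an object concentrated in degrees `≤ b - 2` -/
theorem hom_zero
    (hA : ∀ (M N : A) (n : ℤ), 2 ≤ n →
      ∀ φ : (DerivedCategory.singleFunctor A 0).obj M ⟶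
        ((DerivedCategory.singleFunctor A 0).obj N)⟦n⟧, φ = 0)
    (a : ℤ) (k : ℕ) : ∀ (c : ℤ), c < a + k → ∀ (Y : DerivedCategory A), Y.IsGE a → Y.IsLE c →
    ∀ (M : A) (b : ℤ), c + 2 ≤ b →
    ∀ φ : (DerivedCategory.singleFunctor A b).obj M ⟶ Y, φ = 0 := by
  induction k with
  | zero =>
    intro c hc Y hYa hYc M b hb φ
    have hz : IsZero Y := TStructure.t.isZero Y c a (by simpa using hc)
    exact hz.eq_of_tgt _ _
  | succ k ih =>
    intro c hc Y hYa hYc M b hb φ
    obtain ⟨X, N, f, g, h, hT, hXa, hXc⟩ := exists_tri Y a c hYa hYc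
    obtain ⟨ψ, hψ⟩ := Triangle.coyoneda_exact₂ _ hT φ (hom_single hA M N b c hb _)
    have h5 : ψ = (0 : _ ⟶ X) := ih (c - 1) (by push_cast at hc; lia) X hXa hXc M b (by lia) ψ
    rw [hψ, h5]
    exact zero_comp

/-- splitting of a triangle with vanishing connecting morphism -/
theorem split {X Y Z : DerivedCategory A} (f : X ⟶ Y) (g : Y ⟶ Z) (h : Z ⟶ X⟦(1 : ℤ)⟧)
    (hT : Triangle.mk f g h ∈ distTriang (DerivedCategory A)) (h0 : h = 0) :
    ∃ (s : Z ⟶ Y) (t : Y ⟶ X), 𝟙 Y = t ≫ f + g ≫ s := by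
  obtain ⟨s, hs⟩ : ∃ s : Z ⟶ Y, 𝟙 Z = s ≫ g :=
    Triangle.coyoneda_exact₃ _ hT (𝟙 Z) (by rw [h0]; exact comp_zero)
  obtain ⟨t, ht⟩ : ∃ t : Y ⟶ X, 𝟙 Y - g ≫ s = t ≫ f :=
    Triangle.coyoneda_exact₂ _ hT (𝟙 Y - g ≫ s) (by
      have : (𝟙 Y - g ≫ s) ≫ g = 0 := by
        rw [Preadditive.sub_comp, Category.assoc, ← hs]; simp
      exact this)
  exact ⟨s, t, by rw [← ht]; simp⟩

end HER_

open HER_ in
open DerivedCategory DerivedCategory.TStructure ZeroObject in
theorem her_proof : Stmt_HER := by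
  intro A _ _ _ hA T _ _ G _ P hP W a b hWa hWb
  obtain ⟨k, hk⟩ : ∃ k : ℕ, b < a + k := ⟨(b - a + 1).toNat, by lia⟩
  induction k generalizing b W with
  | zero =>
    intro i r hir
    have hz : IsZero W := TStructure.t.isZero W b a (by simpa using hk)
    have hz' : IsZero (G.obj W) := G.map_isZero hz
    refine ⟨0, 0, 0, 0, ?_⟩
    rw [← hir, hz'.eq_zero_of_tgt i, zero_comp, zero_comp]
  | succ k ih =>
    intro i r hir
    obtain ⟨X, N, f, g, h, hT, hXa, hXb⟩ := exists_tri W a b hWa hWb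
    have hsge : (X⟦(1 : ℤ)⟧).IsGE (a - 1) := TStructure.t.isGE_shift _ a 1 (a - 1)
    have hsle : (X⟦(1 : ℤ)⟧).IsLE (b - 2) := TStructure.t.isLE_shift _ (b - 1) 1 (b - 2)
    have h0 : h = 0 := hom_zero hA (a - 1) (k + 1) (b - 2) (by push_cast at hk ⊢; lia) _ hsge hsle
      N b (by lia) h
    obtain ⟨s, t, hst⟩ := split f g h hT h0
    have hsum : (i ≫ G.map t ≫ G.map f ≫ r) + (i ≫ G.map g ≫ G.map s ≫ r) = 𝟙 P := by
      have h2 : G.map t ≫ G.map f + G.map g ≫ G.map s = 𝟙 (G.obj W) := by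
        rw [← G.map_comp, ← G.map_comp, ← G.map_add, ← hst, G.map_id]
      rw [← hir, ← Preadditive.comp_add]
      congr 1
      rw [← Category.assoc, ← Category.assoc (G.map g), ← Preadditive.add_comp, h2,
        Category.id_comp]
    rcases hP _ _ hsum with hφ | hψ
    · refine ih X (b - 1) hXa hXb (by push_cast at hk; lia)
        (i ≫ G.map t) (G.map f ≫ r ≫ inv (i ≫ G.map t ≫ G.map f ≫ r)) ?_
      have h3 := IsIso.hom_inv_id (i ≫ G.map t ≫ G.map f ≫ r)
      simpa only [Category.assoc] using h3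
    · refine ⟨N, b, i ≫ G.map g, G.map s ≫ r ≫ inv (i ≫ G.map g ≫ G.map s ≫ r), ?_⟩
      have h3 := IsIso.hom_inv_id (i ≫ G.map g ≫ G.map s ≫ r)
      simpa only [Category.assoc] using h3

end Pool.CRD.D1
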