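import Pool.Agent.CRD.D1.StmtsC
import Pool.Agent.CRD.D1.Act

/-!
# CRD, area D1: LCX: localisation of `Hom` over the charts of the curves
-/

open CategoryTheory Opposite Limits Pretriangulated

namespace Pool.CRD.D1

namespace LCX_

section
variable {K : Type} [Field K] {c : CurveData K} {C : Type} [Preorder C] {R : PAlg K C}
  (D : Dir c R)

/-- every chart has a largest subchart over `U_ab`, and it is the localisation at `v` -/
def HLoc : Prop :=
  ∀ V : C, ∃ (V' : C) (h : V' ≤ V), D.p V' ≤ cab ∧ (∀ W ≤ V, D.p W ≤ cab → W ≤ V') ∧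
    (letI := (R.map (homOfLE h).op).hom.toRingHom.toAlgebra
     @IsLocalization.Away (R.ring V) _ (D.e V (c.vt (D.p V))) (R.ring V') _ _)

theorem isDOn (H : HLoc D) (t : Cov Bool) :
    IsDOn R (D.U t) (D.U cab) (D.sec t (c.vt t)) := by
  intro V hV
  have hV' : D.p V ≤ t := hV
  rcases CurveData.Pt.cov_bool_le_cases hV' with h | h
  · subst h
    obtain ⟨V', hle, h1, h2, h3⟩ := H V
    refine ⟨V', hle, h1, h2, ?_⟩
    rw [Dir.sec_a D (c.vt (D.p V)) (X := op V) hV']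
    exact h3
  · refine ⟨V, le_refl V, le_of_eq h, fun W hW _ => hW, ?_⟩
    letI := (R.map (homOfLE (le_refl V)).op).hom.toRingHom.toAlgebra
    apply IsLocalization.away_of_isUnit_of_bijective
    · rw [Dir.sec_a D (c.vt t) (X := op V) hV']
      have hu := c.isUnit_res_vt t
      have h1 := (hu.map (c.res (le_of_eq h))).map (D.e V)
      exact h1
    · have h2 : (R.map (homOfLE (le_refl V)).op) = 𝟙 _ := R.map_id (op V)
      change Function.Bijective (fun x => (R.map (homOfLE (le_refl V)).op).hom x)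
      rw [h2]
      exact Function.bijective_id

theorem itr_act (t : Cov Bool) (f : c.A t) (X : DPM R) (k : ℕ) :
    itr ((D.act t f).app X) k = (D.act t (f ^ k)).app X := by
  induction k with
  | zero =>
    rw [pow_zero, Dir.act_one]
    rfl
  | succ k ih =>
    rw [pow_succ', Dir.act_mul]
    change (D.act t f).app X ≫ itr ((D.act t f).app X) k = _
    rw [ih]
    rfl

theorem locP (K : Type) [Field K] (c : CurveData K) (C : Type) [SemilatticeInf C] [Finite C]
    (R : PAlg K C) [R.Good] (D : Dir c R) (hLOC : Pool.CRD.Stmt_LOC) (H : HLoc D)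
    (M N : DPM R) (hM : IsCohD R M) (hN : IsCohD R N) : LocP D M N := by
  intro t
  obtain ⟨L1, L2⟩ := hLOC K C R (D.U t) (D.U cab) (D.U_mono (cab_le t)) (D.sec t (c.vt t))
    (isDOn D H t) M N hM hN
  constructor
  · intro g
    obtain ⟨k, f, hf⟩ := L2 g
    refine ⟨k, f, ?_⟩
    rw [← Dir.act_res, itr_act] at hf
    exact hf
  · intro g' hg'
    obtain ⟨k, hk⟩ := L1 g' hg'
    refine ⟨k, ?_⟩
    have := itr_act D t (c.vt t) M k
    unfold Dir.sm
    rw [← this]
    exact hk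

end

variable {K : Type} [Field K] {c₁ c₂ : CurveData K} {S : SurfData c₁ c₂}

theorem h1 (hXLO : FB.Stmt_XLO) (X : ConicData S) : HLoc X.dir₁ := by
  intro V
  exact ⟨⟨cab, V.j, V.k⟩, ⟨cab_le V.i, le_rfl, le_rfl⟩, le_refl _,
    fun W hW hc => ⟨hc, hW.2.1, hW.2.2⟩, (hXLO K c₁ c₂ S X V).1⟩

theorem h2 (hXLO : FB.Stmt_XLO) (X : ConicData S) : HLoc X.dir₂ := by
  intro V
  exact ⟨⟨V.i, cab, V.k⟩, ⟨le_rfl, cab_le V.j, le_rfl⟩, le_refl _,
    fun W hW hc => ⟨hW.1, hc, hW.2.2⟩, (hXLO K c₁ c₂ S X V).2.1⟩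

end LCX_

open LCX_ in
theorem lcx_proof (hLOC : Pool.CRD.Stmt_LOC) (hXLO : FB.Stmt_XLO) (hGOX : Stmt_GOX) :
    Stmt_LCX := by
  intro K _ c₁ c₂ S X M N hM hN
  haveI : X.R.Good := (hGOX K c₁ c₂ S).2 X
  exact ⟨locP K c₁ Ch3 X.R X.dir₁ hLOC (h1 hXLO X) M N hM hN,
    locP K c₂ Ch3 X.R X.dir₂ hLOC (h2 hXLO X) M N hM hN⟩

end Pool.CRD.D1
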