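import Pool.Agent.CRD.D1.Stmts

/-!
# CRD, D1: module LFT (complexes with terms in the essential image)
-/

open CategoryTheory Opposite Limits Pretriangulated

namespace Pool.CRD.D1

theorem lft_proof : Stmt_LFT := by
  intro A B _ _ _ _ F _ _ _ W hW
  let e : ∀ n, F.obj (hW n).witness ≅ W.X n := fun n => (hW n).getIso
  let W₀ : CochainComplex A ℤ :=
    { X := fun n => (hW n).witness
      d := fun i j => F.preimage ((e i).hom ≫ W.d i j ≫ (e j).inv)
      shape := fun i j hij => by
        apply F.map_injective
        rw [F.map_preimage, W.shape _ _ hij, zero_comp, comp_zero, F.map_zero]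
      d_comp_d' := fun i j k _ _ => by
        apply F.map_injective
        rw [F.map_comp, F.map_preimage, F.map_preimage, F.map_zero]
        simp }
  refine ⟨W₀, ⟨HomologicalComplex.Hom.isoOfComponents e (fun i j _ => ?_)⟩⟩
  change (e i).hom ≫ W.d i j = F.map (F.preimage ((e i).hom ≫ W.d i j ≫ (e j).inv)) ≫ (e j).hom
  rw [F.map_preimage]
  simp

end Pool.CRD.D1
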