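import Pool.Agent.CRD.D1.Stmts

/-!
# CRD, D1: module MUY (multiplication by the inverse of the ideal of a point)
-/

open CategoryTheory Opposite Limits Pretriangulated

namespace Pool.CRD.D1

namespace MUY_

variable {K : Type} [Field K] {c : CurveData K} {C : Type} [Preorder C] {R : PAlg K C}
  (D : Dir c R) (z : c.Pt)

/-- `y` multiplies the ideal of `z` into the ring -/
def Mult (y : c.F) : Prop := ∀ f ∈ z.J z.t, y * (f : c.A z.t) ∈ c.A z.t

variable {z}

lemma mult_of_le {y : c.F} (hy : Mult z y) {s : Cov Bool} (hs : s ≤ z.t) {f : c.A s}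
    (hf : f ∈ z.J s) : y * (f : c.F) ∈ c.A s := by
  rw [← z.J_map hs] at hf
  unfold Ideal.map at hf
  induction hf using Submodule.span_induction with
  | mem x hx =>
    obtain ⟨g, hg, rfl⟩ := hx
    exact c.mono hs (hy g hg)
  | zero => rw [ZeroMemClass.coe_zero, mul_zero]; exact zero_mem _
  | add x x' _ _ hx hx' =>
    have e : y * ((x + x' : c.A s) : c.F) = y * x + y * x' := by push_cast; ring
    rw [e]; exact add_mem hx hx'
  | smul a x _ hx =>
    have e : y * ((a • x : c.A s) : c.F) = a * (y * x) := by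
      rw [smul_eq_mul]; push_cast; ring
    rw [e]; exact mul_mem a.2 hx

variable (z)

lemma el_smul_comm {M : PMod R} {X : Cᵒᵖ} (f : c.A (D.p X.unop)) (r : R.toRing.obj X)
    (m : M.obj X) : D.el X f • r • m = r • D.el X f • m := by
  rw [smul_smul, smul_smul, D.el_comm]

variable {M : PMod R} (hM : TorsionFree D z.t M) {y : c.F} (hy : Mult z y)
  {p q : c.A z.t} (hq : q ≠ 0) (hpq : y = (p : c.F) / q)

include hy hq hpq in
lemma exists_m {X : Cᵒᵖ} (h : D.p X.unop ≤ z.t) (x : M.obj X) (hx : x ∈ idSub D z M X) :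
    ∃ m : M.obj X, D.el X (c.res h q) • m = D.el X (c.res h p) • x := by
  unfold idSub at hx
  induction hx using Submodule.span_induction with
  | mem x hx =>
    obtain ⟨f, hf, m, rfl⟩ := hx
    refine ⟨D.el X ⟨_, mult_of_le hy h hf⟩ • m, ?_⟩
    rw [smul_smul, smul_smul, ← D.el_mul, ← D.el_mul]
    congr 2
    apply Subtype.ext
    change (q : c.F) * (y * f) = p * f
    have hq' : (q : c.F) ≠ 0 := fun h => hq (Subtype.ext h)
    rw [hpq]
    field_simp
  | zero => exact ⟨0, by rw [smul_zero, smul_zero]⟩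
  | add x x' _ _ hx hx' =>
    obtain ⟨m, hm⟩ := hx
    obtain ⟨m', hm'⟩ := hx'
    exact ⟨m + m', by rw [smul_add, smul_add, hm, hm']⟩
  | smul a x _ hx =>
    obtain ⟨m, hm⟩ := hx
    exact ⟨a • m, by rw [el_smul_comm, hm, el_smul_comm]⟩

include hM hq in
lemma unique_m {X : Cᵒᵖ} (h : D.p X.unop ≤ z.t) {m m' : M.obj X}
    (e : D.el X (c.res h q) • m = D.el X (c.res h q) • m') : m = m' := by
  have := hM X h q hq (m - m') (by rw [smul_sub, e, sub_self])
  exact sub_eq_zero.1 this

include hM hy hq hpq in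
lemma exists_mu {X : Cᵒᵖ} (h : D.p X.unop ≤ z.t) :
    ∃ μ : idSub D z M X →ₗ[R.toRing.obj X] M.obj X, ∀ x : idSub D z M X,
      D.el X (c.res h q) • μ x = D.el X (c.res h p) • (x : M.obj X) := by
  choose m hm using fun x : idSub D z M X => exists_m D z hy hq hpq h x.1 x.2
  refine ⟨{ toFun := m, map_add' := fun x x' => ?_, map_smul' := fun a x => ?_ }, hm⟩
  · apply unique_m D z hM hq h
    rw [hm, smul_add, hm, hm, ← smul_add]
    rfl
  · apply unique_m D z hM hq h
    rw [hm, RingHom.id_apply, el_smul_comm, hm, ← el_smul_comm]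
    rfl

open Classical in
/-- multiplication by `y = p / q` over `X` -/
noncomputable def mu (hM : TorsionFree D z.t M) (hy : Mult z y) (hq : q ≠ 0)
    (hpq : y = (p : c.F) / q) (X : Cᵒᵖ) : idSub D z M X →ₗ[R.toRing.obj X] M.obj X :=
  if h : D.p X.unop ≤ z.t then (exists_mu D z hM hy hq hpq h).choose else 0

lemma mu_spec {X : Cᵒᵖ} (h : D.p X.unop ≤ z.t) (x : idSub D z M X) :
    D.el X (c.res h q) • mu D z hM hy hq hpq X x = D.el X (c.res h p) • (x : M.obj X) := by
  unfold mu
  rw [dif_pos h]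
  exact (exists_mu D z hM hy hq hpq h).choose_spec x

lemma mu_gen {X : Cᵒᵖ} (h : D.p X.unop ≤ z.t) (f : c.A (D.p X.unop))
    (hf : f ∈ z.J (D.p X.unop)) (m : M.obj X) :
    mu D z hM hy hq hpq X ⟨_, smul_mem_idSub D z hf m⟩ =
      D.el X ⟨_, mult_of_le hy h hf⟩ • m := by
  apply unique_m D z hM hq h
  rw [mu_spec, smul_smul, smul_smul, ← D.el_mul, ← D.el_mul]
  congr 2
  apply Subtype.ext
  change (p : c.F) * f = q * (y * f)
  have hq' : (q : c.F) ≠ 0 := fun h => hq (Subtype.ext h)
  rw [hpq]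
  field_simp

lemma mu_rs {X Y : Cᵒᵖ} (g : X ⟶ Y) (h : D.p X.unop ≤ z.t) (x : idSub D z M X) :
    mu D z hM hy hq hpq Y ⟨rs M g x.1, rs_mem_idSub D z g x.2⟩ =
      rs M g (mu D z hM hy hq hpq X x) := by
  have h' : D.p Y.unop ≤ z.t := (D.mono (leOfHom g.unop)).trans h
  apply unique_m D z hM hq h'
  rw [mu_spec]
  have h1 := congrArg (rs M g) (mu_spec D z hM hy hq hpq h x)
  rw [rs_smul, rs_smul, D.el_map, D.el_map] at h1
  exact h1.symm

/-- the morphism `μ` -/
noncomputable def muHom : trObj (D.U z.t) (idObj D z M) ⟶ trObj (D.U z.t) M :=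
  mkHom (fun X =>
    { toFun := fun x => (⟨mu D z hM hy hq hpq X ((x : trSub (D.U z.t) (idObj D z M) X).1),
        fun hX => by rw [(x : trSub (D.U z.t) (idObj D z M) X).2 hX]; exact map_zero _⟩ :
          trSub (D.U z.t) M X)
      map_add' := fun x y => Subtype.ext (map_add _ _ _)
      map_smul' := fun r x => Subtype.ext (map_smul _ _ _) })
    (fun {X Y} g x => by
      apply Subtype.ext
      by_cases h : D.p X.unop ≤ z.t
      · exact mu_rs D z hM hy hq hpq g h ((x : trSub (D.U z.t) (idObj D z M) X).1)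
      · have hx : (x : trSub (D.U z.t) (idObj D z M) X) = 0 :=
          Subtype.ext ((x : trSub (D.U z.t) (idObj D z M) X).2 h)
        change mu D z hM hy hq hpq Y ⟨rs M g ((x : trSub (D.U z.t) (idObj D z M) X).1).1, _⟩ =
          rs M g (mu D z hM hy hq hpq X ((x : trSub (D.U z.t) (idObj D z M) X).1))
        have h0 : (x : trSub (D.U z.t) (idObj D z M) X).1 = (0 : idSub D z M X) :=
          congrArg Subtype.val hx
        have e1 : (⟨rs M g ((x : trSub (D.U z.t) (idObj D z M) X).1).1,
            rs_mem_idSub D z g ((x : trSub (D.U z.t) (idObj D z M) X).1).2⟩ :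
            idSub D z M Y) = 0 := by
          apply Subtype.ext
          change rs M g ((x : trSub (D.U z.t) (idObj D z M) X).1).1 = 0
          rw [h0]
          exact rs_zero M g
        rw [e1, map_zero, h0, map_zero, rs_zero])

/-- evaluation at an element, as an additive map -/
noncomputable def evB (U : LowerSet C) (P M : PMod R) (X : Cᵒᵖ) (x : P.obj X) :
    (P ⟶ trObj U M) →+ M.obj X where
  toFun φ := (φ.app X x : trSub U M X).1
  map_zero' := rfl
  map_add' _ _ := rfl

lemma evB_ext {U : LowerSet C} {P M : PMod R} {φ ψ : P ⟶ trObj U M}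
    (h : ∀ (X : Cᵒᵖ) (x : P.obj X), X.unop ∈ U → evB U P M X x φ = evB U P M X x ψ) :
    φ = ψ := by
  apply pmod_ext; intro X x
  apply Subtype.ext
  by_cases hX : X.unop ∈ U
  · exact h X x hX
  · exact ((φ.app X x : trSub U M X).2 hX).trans ((ψ.app X x : trSub U M X).2 hX).symm

end MUY_

open MUY_

theorem muy_proof : Stmt_MUY := by
  intro K _ c C _ R D z
  obtain ⟨n, u, y, hu, hy, hsum⟩ := c.exists_dual z.t (z.J z.t) (z.J_ne_bot z.t)
  have hy' : ∀ k, Mult z (y k) := hy
  have hf : ∀ k, ∃ p q : c.A z.t, q ≠ 0 ∧ y k = (p : c.F) / q := by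
    intro k
    obtain ⟨p, hp, q, hq, hq0, h⟩ := c.frac z.t (y k)
    exact ⟨⟨p, hp⟩, ⟨q, hq⟩, fun h' => hq0 (congrArg Subtype.val h'), h⟩
  choose p q hq hpq using hf
  refine ⟨n, u, fun k M hM => muHom D z hM (hy' k) (hq k) (hpq k), hu, ?_, ?_⟩
  · intro k M N hM hN φ
    apply pmod_ext; intro X x
    apply Subtype.ext
    by_cases h : D.p X.unop ≤ z.t
    · apply unique_m D z hN (hq k) h
      have e1 := mu_spec D z hN (hy' k) (hq k) (hpq k) h
        ⟨φ.app X ((x : trSub (D.U z.t) (idObj D z M) X).1).1,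
          app_mem_idSub D z φ ((x : trSub (D.U z.t) (idObj D z M) X).1).2⟩
      have e2 := congrArg (φ.app X) (mu_spec D z hM (hy' k) (hq k) (hpq k) h
        ((x : trSub (D.U z.t) (idObj D z M) X).1))
      rw [map_smul, map_smul] at e2
      exact e1.trans e2.symm
    · exact ((((((tr R (D.U z.t)).map ((idF D z).map φ)) ≫
        muHom D z hN (hy' k) (hq k) (hpq k)).app X x : trSub (D.U z.t) N X)).2 h).trans
        (((muHom D z hM (hy' k) (hq k) (hpq k) ≫ (tr R (D.U z.t)).map φ).app X x :
          trSub (D.U z.t) N X).2 h).symm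
  · intro M hM
    apply evB_ext
    intro X x hX
    have key : ∀ (h : D.p X.unop ≤ z.t) (w : idSub D z M X),
        ∑ k, D.el X (c.res h (u k)) • mu D z hM (hy' k) (hq k) (hpq k) X w = w.1 := by
      intro h w
      obtain ⟨w, hw⟩ := w
      have hw' := hw
      unfold idSub at hw'
      induction hw' using Submodule.span_induction with
      | mem w hw' =>
        obtain ⟨f, hf, m, rfl⟩ := hw'
        have e : ∀ k, D.el X (c.res h (u k)) • mu D z hM (hy' k) (hq k) (hpq k) X
            ⟨_, smul_mem_idSub D z hf m⟩ =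
            D.el X (c.res h (u k) * ⟨_, mult_of_le (hy' k) h hf⟩) • m := fun k => by
          rw [mu_gen D z hM (hy' k) (hq k) (hpq k) h f hf m, smul_smul, ← D.el_mul]
        rw [Finset.sum_congr rfl (fun k _ => e k), ← Finset.sum_smul]
        congr 1
        change ∑ k, D.e X.unop (c.res h (u k) * ⟨_, mult_of_le (hy' k) h hf⟩) =
          D.e X.unop f
        rw [← map_sum]
        congr 1
        apply Subtype.ext
        rw [AddSubmonoidClass.coe_finset_sum]
        change ∑ k, (u k : c.F) * (y k * f) = f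
        have e2 : ∀ k, (u k : c.F) * (y k * f) = (u k : c.F) * y k * f := fun k =>
          (mul_assoc _ _ _).symm
        rw [Finset.sum_congr rfl (fun k _ => e2 k), ← Finset.sum_mul, hsum, one_mul]
      | zero =>
        have e : (⟨0, hw⟩ : idSub D z M X) = 0 := rfl
        rw [e]
        simp
      | add w w' h1 h2 hw1 hw2 =>
        have e : (⟨w + w', hw⟩ : idSub D z M X) = ⟨w, h1⟩ + ⟨w', h2⟩ := rfl
        rw [e]
        have := hw1 h1
        have := hw2 h2
        simp only [map_add, smul_add, Finset.sum_add_distrib]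
        rw [hw1 h1, hw2 h2]
        rfl
      | smul a w h1 hw1 =>
        have e : (⟨a • w, hw⟩ : idSub D z M X) = a • ⟨w, h1⟩ := rfl
        rw [e]
        have h3 := hw1 h1
        simp only [map_smul, el_smul_comm]
        rw [← Finset.smul_sum, h3]
        rfl
    refine (map_sum (evB (D.U z.t) (trObj (D.U z.t) (idObj D z M)) M X x)
      (fun k => muHom D z hM (hy' k) (hq k) (hpq k) ≫ (mulU (D.sec z.t (u k))).app M)
      Finset.univ).trans ?_
    refine Eq.trans ?_ (key hX ((x : trSub (D.U z.t) (idObj D z M) X).1))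
    apply Finset.sum_congr rfl
    intro k _
    exact D.mulU_sec_app (u k) M hX _

end Pool.CRD.D1
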