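import Pool.Agent.CRD.D1.Act

/-!
# CRD, area D1: `natD` commutes with the shift
-/

open CategoryTheory Opposite Limits Pretriangulated

universe w₁ w₂ v₁ v₂ u₁ u₂

namespace Pool.CRD

section

variable {A : Type u₁} [Category.{v₁} A] [Abelian A] [HasDerivedCategory.{w₁} A]
  {B : Type u₂} [Category.{v₂} B] [Abelian B] [HasDerivedCategory.{w₂} B]

instance nsh_hc {F G : A ⥤ B} [F.Additive] [G.Additive] (τ : F ⟶ G) :
    NatTrans.CommShift (NatTrans.mapHomologicalComplex τ (ComplexShape.up ℤ)) ℤ where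
  shift_comm n := by
    ext X₀ i
    simp [Functor.mapHomologicalComplex_commShiftIso_hom_app_f]
    exact (Category.id_comp _).trans (Category.comp_id _).symm

lemma whisker_natD {F G : A ⥤ B} [ExF F] [ExF G] (τ : F ⟶ G) :
    Functor.whiskerLeft DerivedCategory.Q (natD τ) = F.mapDerivedCategoryFactors.hom ≫
      Functor.whiskerRight (NatTrans.mapHomologicalComplex τ (ComplexShape.up ℤ))
        DerivedCategory.Q ≫ G.mapDerivedCategoryFactors.inv := by
  ext X
  exact natD_app τ X

instance nsh_wh {F G : A ⥤ B} [ExF F] [ExF G] (τ : F ⟶ G) :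
    NatTrans.CommShift (Functor.whiskerLeft DerivedCategory.Q (natD τ)) ℤ := by
  rw [whisker_natD]
  infer_instance

instance natD_commShift {F G : A ⥤ B} [ExF F] [ExF G] (τ : F ⟶ G) :
    NatTrans.CommShift (natD τ) ℤ where
  shift_comm a := by
    apply natTrans_D_ext
    intro X₀
    have h := NatTrans.shift_app_comm (Functor.whiskerLeft DerivedCategory.Q (natD τ)) a X₀
    rw [Functor.commShiftIso_comp_hom_app, Functor.commShiftIso_comp_hom_app] at h
    have h2 : (natD τ).app (DerivedCategory.Q.obj (X₀⟦a⟧)) ≫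
        (mD G).map ((DerivedCategory.Q.commShiftIso a).hom.app X₀) =
        (mD F).map ((DerivedCategory.Q.commShiftIso a).hom.app X₀) ≫
        (natD τ).app ((DerivedCategory.Q.obj X₀)⟦a⟧) :=
      ((natD τ).naturality ((DerivedCategory.Q.commShiftIso a).hom.app X₀)).symm
    have h3 : (mD F).map ((DerivedCategory.Q.commShiftIso a).hom.app X₀) ≫
        ((mD F).commShiftIso a).hom.app (DerivedCategory.Q.obj X₀) ≫
          ((natD τ).app (DerivedCategory.Q.obj X₀))⟦a⟧' =
        (natD τ).app (DerivedCategory.Q.obj (X₀⟦a⟧)) ≫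
        (mD G).map ((DerivedCategory.Q.commShiftIso a).hom.app X₀) ≫
        ((mD G).commShiftIso a).hom.app (DerivedCategory.Q.obj X₀) := by
      refine Eq.trans ?_ h
      simp
    change ((mD F).commShiftIso a).hom.app (DerivedCategory.Q.obj X₀) ≫
        ((natD τ).app (DerivedCategory.Q.obj X₀))⟦a⟧' =
      (natD τ).app ((DerivedCategory.Q.obj X₀)⟦a⟧) ≫
        ((mD G).commShiftIso a).hom.app (DerivedCategory.Q.obj X₀)
    rw [← cancel_epi ((mD F).map ((DerivedCategory.Q.commShiftIso a).hom.app X₀)), h3,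
      ← Category.assoc, h2, Category.assoc]

/-- `natD τ` on a shifted object -/
lemma natD_app_shift {F G : A ⥤ B} [ExF F] [ExF G] (τ : F ⟶ G) (n : ℤ) (X : DerivedCategory A) :
    (natD τ).app (X⟦n⟧) ≫ ((mD G).commShiftIso n).hom.app X =
      ((mD F).commShiftIso n).hom.app X ≫ ((natD τ).app X)⟦n⟧' :=
  (NatTrans.shift_app_comm (natD τ) n X).symm

end

section

variable {K : Type} [CommRing K] {C : Type} [Preorder C] {R : PAlg K C} {U V : LowerSet C}

/-- the shift isomorphism `(X[n])_U = X_U[n]` -/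
noncomputable def trSh (R : PAlg K C) (U : LowerSet C) (n : ℤ) (X : DPM R) :
    (trD R U).obj (X⟦n⟧) ≅ ((trD R U).obj X)⟦n⟧ := ((trD R U).commShiftIso n).app X

/-- restriction maps commute with the shift isomorphisms -/
lemma trDLE_shift (h : V ≤ U) (n : ℤ) (X : DPM R) :
    (trDLE R h).app (X⟦n⟧) ≫ (trSh R U n X).hom =
      (trSh R V n X).hom ≫ ((trDLE R h).app X)⟦n⟧' :=
  natD_app_shift _ n X

lemma mulD_shift (s : SecOn R U) (n : ℤ) (X : DPM R) :
    (mulD s).app (X⟦n⟧) ≫ (trSh R U n X).hom =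
      (trSh R U n X).hom ≫ ((mulD s).app X)⟦n⟧' :=
  natD_app_shift _ n X

end

end Pool.CRD
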