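import Pool.Agent.CRD.D1.Stmts

/-!
# CRD / D1 / PNT: families of ideals given by a point
-/

open CategoryTheory Opposite Limits Pretriangulated

namespace Pool.CRD.D1

namespace PNT_

theorem artin {A : Type} [CommRing A] [IsDedekindDomain A] (J : Ideal A) (hJ : J ≠ ⊥) :
    IsArtinianRing (A ⧸ J) := by
  rw [isArtinianRing_iff_krullDimLE_zero, Ring.krullDimLE_zero_iff]
  intro P hP
  have h1 : (P.comap (Ideal.Quotient.mk J)).IsPrime := Ideal.comap_isPrime _ _
  have h2 : P.comap (Ideal.Quotient.mk J) ≠ ⊥ := by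
    intro h
    apply hJ
    rw [eq_bot_iff, ← h]
    intro x hx
    rw [Ideal.mem_comap, Ideal.Quotient.eq_zero_iff_mem.2 hx]
    exact zero_mem P
  have h3 : (P.comap (Ideal.Quotient.mk J)).IsMaximal := h1.isMaximal h2
  have h4 := Ideal.map_eq_top_or_isMaximal_of_surjective (Ideal.Quotient.mk J)
    Ideal.Quotient.mk_surjective h3
  rw [Ideal.map_comap_of_surjective _ Ideal.Quotient.mk_surjective] at h4
  exact h4.resolve_left hP.ne_top

variable {K : Type} [Field K] (c : CurveData K)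

theorem surj (t : Cov Bool) (J : Ideal (c.A t)) (hJ : J ≠ ⊥) (f : c.A cab) :
    ∃ g : c.A t, f - c.res (cab_le t) g ∈ Ideal.map (c.res (cab_le t)) J := by
  have hA := artin J hJ
  obtain ⟨n, y, hy⟩ := IsArtinian.exists_pow_succ_smul_dvd
    (Ideal.Quotient.mk J (c.vt t)) (1 : c.A t ⧸ J)
  obtain ⟨b, rfl⟩ := Ideal.Quotient.mk_surjective y
  have h1 : c.vt t ^ n * (c.vt t * b - 1) ∈ J := by
    rw [← Ideal.Quotient.eq_zero_iff_mem, map_mul, map_sub, map_mul, map_pow, map_one, mul_sub,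
      mul_one, sub_eq_zero]
    rw [smul_eq_mul, smul_eq_mul, mul_one, pow_succ, mul_assoc] at hy
    exact hy
  have hu := c.isUnit_res_vt t
  have h2 : c.res (cab_le t) (c.vt t) * c.res (cab_le t) b - 1 ∈
      Ideal.map (c.res (cab_le t)) J := by
    have h3 := Ideal.mem_map_of_mem (c.res (cab_le t)) h1
    rw [map_mul, map_pow, map_sub, map_mul, map_one] at h3
    exact (Ideal.unit_mul_mem_iff_mem _ (hu.pow n)).1 h3
  obtain ⟨m, g, hg⟩ := c.exists_eq_div t f
  refine ⟨g * b ^ m, ?_⟩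
  rw [← Ideal.Quotient.eq_zero_iff_mem] at h2 ⊢
  rw [map_sub, map_one, map_mul, sub_eq_zero] at h2
  rw [map_sub, map_mul (c.res (cab_le t)), map_pow (c.res (cab_le t)), ← hg, map_mul, map_mul,
    map_pow, map_pow, mul_assoc, ← mul_pow, h2, one_pow, mul_one, sub_self]

variable {c} in
theorem mem_iff (z : c.Pt) {t : Cov Bool} (ht : t ≠ z.t) (hz : cab ≠ z.t) (f : c.A t) :
    f ∈ z.J t ↔ c.res (cab_le t) f ∈ z.J cab := by
  rw [z.mem_J, z.mem_J]
  constructor
  · rintro ⟨n, g, -, h1, h2⟩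
    exact ⟨n, g, fun h => absurd h hz, h1, h2⟩
  · rintro ⟨n, g, -, h1, h2⟩
    exact ⟨n, g, fun h => absurd h ht, h1, h2⟩

theorem core (t t' : Cov Bool) (ht : t = ca ∨ t = cb) (htt : t' ≠ t)
    (J : ∀ t : Cov Bool, Ideal (c.A t))
    (hmap : ∀ t, Ideal.map (c.res (cab_le t)) (J t) = J cab) (hJt : J t ≠ ⊤)
    (h2 : ∀ f : c.A t, ∃ k : K, f - algebraMap K _ k ∈ J t)
    (h2' : ∀ f : c.A t', ∃ k : K, f - algebraMap K _ k ∈ J t')
    (hpair : J cab = ⊤ → ∃ k : K, 1 - algebraMap K _ k ∈ J t ∧ 0 - algebraMap K _ k ∈ J t') :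
    ∃ z : c.Pt, z.J t = J t ∧ z.J t' = J t' ∧ z.J cab = J cab := by
  have hcab : cab ≠ t := by
    rintro rfl
    rcases ht with h | h
    · exact not_ca_le_cb (h ▸ cab_le cb)
    · exact not_cb_le_ca (h ▸ cab_le ca)
  have hnt : Nontrivial (c.A t ⧸ J t) := Ideal.Quotient.nontrivial_iff.2 hJt
  have hbij : Function.Bijective (Algebra.ofId K (c.A t ⧸ J t)) := by
    constructor
    · exact (Algebra.ofId K (c.A t ⧸ J t)).toRingHom.injective
    · intro y
      obtain ⟨f, rfl⟩ := Ideal.Quotient.mk_surjective y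
      obtain ⟨k, hk⟩ := h2 f
      refine ⟨k, ?_⟩
      have h3 := Ideal.Quotient.eq_zero_iff_mem.2 hk
      rw [map_sub, sub_eq_zero] at h3
      exact h3.symm
  let e : K ≃ₐ[K] (c.A t ⧸ J t) := AlgEquiv.ofBijective _ hbij
  let χ : c.A t →ₐ[K] K := e.symm.toAlgHom.comp (Ideal.Quotient.mkₐ K (J t))
  have hχ : RingHom.ker χ = J t := by
    ext f
    rw [RingHom.mem_ker]
    have h3 : χ f = e.symm (Ideal.Quotient.mk (J t) f) := rfl
    rw [h3, EmbeddingLike.map_eq_zero_iff, Ideal.Quotient.eq_zero_iff_mem]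
  let z : c.Pt := ⟨t, ht, χ⟩
  have hz1 : z.J t = J t := (z.J_self).trans hχ
  have hz2 : z.J cab = J cab := by
    rw [← hmap t, ← hz1]
    exact (z.J_map (cab_le t)).symm
  refine ⟨z, hz1, ?_, hz2⟩
  have hle : J t' ≤ z.J t' := by
    intro f hf
    rw [mem_iff z htt hcab, hz2, ← hmap t']
    exact Ideal.mem_map_of_mem _ hf
  refine le_antisymm ?_ hle
  by_cases hc : J cab = ⊤
  · obtain ⟨k, hk1, hk2⟩ := hpair hc
    have hk : k ≠ 0 := by
      rintro rfl
      rw [map_zero, sub_zero] at hk1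
      exact hJt ((Ideal.eq_top_iff_one _).2 hk1)
    have h3 : J t' = ⊤ := by
      rw [Ideal.eq_top_iff_one]
      have h4 := (J t').mul_mem_left (algebraMap K _ (-k⁻¹)) hk2
      rw [zero_sub, ← map_neg, ← map_mul, neg_mul_neg, inv_mul_cancel₀ hk, map_one] at h4
      exact h4
    rw [h3]
    exact le_top
  · intro f hf
    obtain ⟨k, hk⟩ := h2' f
    have h3 : algebraMap K (c.A t') k ∈ z.J t' := by
      have h4 := sub_mem hf (hle hk)
      rwa [sub_sub_cancel] at h4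
    have hk0 : k = 0 := by
      by_contra hk0
      apply hc
      have h4 : z.J t' = ⊤ := by
        rw [Ideal.eq_top_iff_one]
        have h5 := (z.J t').mul_mem_left (algebraMap K _ (k⁻¹)) h3
        rw [← map_mul, inv_mul_cancel₀ hk0, map_one] at h5
        exact h5
      rw [← hz2, ← z.J_map (cab_le t'), h4, Ideal.map_top]
    rw [hk0, map_zero, sub_zero] at hk
    exact hk

end PNT_

open PNT_

theorem pnt_proof : Stmt_PNT := by
  intro K _ c J hmap hJ hglue htop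
  have hne : ∀ t, J t ≠ ⊥ := by
    intro t h
    apply hJ
    rw [← hmap t, h, Ideal.map_bot]
  have h2a : ∀ f : c.A ca, ∃ k : K, f - algebraMap K _ k ∈ J ca := by
    intro f
    obtain ⟨g, hg⟩ := surj c cb (J cb) (hne cb) (c.res (cab_le ca) f)
    rw [hmap] at hg
    obtain ⟨k, hk, -⟩ := hglue f g hg
    exact ⟨k, hk⟩
  have h2b : ∀ f : c.A cb, ∃ k : K, f - algebraMap K _ k ∈ J cb := by
    intro f
    obtain ⟨g, hg⟩ := surj c ca (J ca) (hne ca) (c.res (cab_le cb) f)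
    rw [hmap, ← neg_mem_iff, neg_sub] at hg
    obtain ⟨k, -, hk⟩ := hglue g f hg
    exact ⟨k, hk⟩
  by_cases ha : J ca = ⊤
  · have hb : J cb ≠ ⊤ := fun h => htop ⟨ha, h⟩
    obtain ⟨z, h1, h2, h3⟩ := core c cb ca (Or.inr rfl) ca_ne_cb J hmap hb h2b h2a (by
      intro hc
      obtain ⟨k, hk1, hk2⟩ := hglue 0 1 (by rw [hc]; trivial)
      exact ⟨k, hk2, hk1⟩)
    refine ⟨z, fun t => ?_⟩
    rcases cov_bool_cases t with rfl | rfl | rfl
    · exact h2
    · exact h1
    · exact h3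
  · obtain ⟨z, h1, h2, h3⟩ := core c ca cb (Or.inl rfl) ca_ne_cb.symm J hmap ha h2a h2b (by
      intro hc
      obtain ⟨k, hk1, hk2⟩ := hglue 1 0 (by rw [hc]; trivial)
      exact ⟨k, hk1, hk2⟩)
    refine ⟨z, fun t => ?_⟩
    rcases cov_bool_cases t with rfl | rfl | rfl
    · exact h1
    · exact h2
    · exact h3

end Pool.CRD.D1
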