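import Pool.Agent.CRD.D1.Stmts

set_option autoImplicit false

open CategoryTheory Opposite Limits Pretriangulated

namespace Pool.CRD.D1

namespace PTD_

variable {K : Type} [Field K] {c : CurveData K} {C : Type} [Preorder C] {R : PAlg K C}
  (D : Dir c R) (P : DPM R)

/-- the functions on the chart `t` acting as zero -/
def J (t : Cov Bool) : Ideal (c.A t) where
  carrier := {f | D.sm f (D.io t P) = 0}
  add_mem' {a b} ha hb := by
    change D.sm (a + b) (D.io t P) = 0
    rw [D.sm_add, show D.sm a (D.io t P) = 0 from ha, show D.sm b (D.io t P) = 0 from hb, add_zero]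
  zero_mem' := D.sm_zero _
  smul_mem' a f hf := by
    change D.sm (a * f) (D.io t P) = 0
    rw [D.sm_mul, show D.sm f (D.io t P) = 0 from hf, D.sm_zero_right]

theorem mem_J {t : Cov Bool} {f : c.A t} : f ∈ J D P t ↔ D.sm f (D.io t P) = 0 := Iff.rfl

theorem rst_zero {t t' : Cov Bool} (h : t' ≤ t) {X Y : DPM R} :
    D.rst h (0 : (trD R (D.U t)).obj X ⟶ Y) = 0 := comp_zero

theorem J_map (hL : LocP D P P) (t : Cov Bool) :
    Ideal.map (c.res (cab_le t)) (J D P t) = J D P cab := by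
  apply le_antisymm
  · rw [Ideal.map_le_iff_le_comap]
    intro f hf
    rw [Ideal.mem_comap, mem_J, ← D.rst_io (cab_le t), ← D.rst_sm, (mem_J D P).1 hf, rst_zero]
  · intro f hf
    obtain ⟨n, g, hg⟩ := c.exists_eq_div t f
    have h1 : D.rst (cab_le t) (D.sm g (D.io t P)) = 0 := by
      rw [D.rst_sm, D.rst_io, ← hg, mul_comm, D.sm_mul, (mem_J D P).1 hf, D.sm_zero_right]
    obtain ⟨m, hm⟩ := (hL t).2 _ h1
    rw [← D.sm_mul] at hm
    have h2 : c.res (cab_le t) (c.vt t ^ m * g) ∈ Ideal.map (c.res (cab_le t)) (J D P t) :=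
      Ideal.mem_map_of_mem _ hm
    have h3 : c.res (cab_le t) (c.vt t ^ m * g) =
        c.res (cab_le t) (c.vt t) ^ (m + n) * f := by
      rw [map_mul, ← hg, map_pow, pow_add]
      ring
    rw [h3] at h2
    exact (Ideal.unit_mul_mem_iff_mem _ ((c.isUnit_res_vt t).pow _)).1 h2

end PTD_

open PTD_ in
theorem ptd_proof (hPNT : Stmt_PNT) : Stmt_PTD := by
  intro K _ c C _ R D mv P hL hE h1 hg
  have key := hPNT K c (J D P) (J_map D P hL) ?_ ?_ ?_
  · obtain ⟨z, hz⟩ := key
    refine ⟨z, fun t f => ?_⟩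
    rw [hz t, mem_J]
  · obtain ⟨g, hg0, hg⟩ := hg
    intro h
    have : g ∈ J D P cab := hg
    rw [h, Ideal.mem_bot] at this
    exact hg0 this
  · intro ga gb hab
    have h2 : D.rst (cab_le ca) (D.sm ga (D.io ca P)) =
        D.rst (cab_le cb) (D.sm gb (D.io cb P)) := by
      rw [D.rst_sm, D.rst_sm, D.rst_io, D.rst_io, ← sub_eq_zero, ← D.sm_sub]
      exact hab
    obtain ⟨φ, hφa, hφb⟩ := mv.glue _ _ h2
    obtain ⟨k, rfl⟩ := hE φ
    have h3 : ∀ t, D.io t P ≫ (k • 𝟙 P) = D.sm (algebraMap K _ k) (D.io t P) := by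
      intro t
      rw [D.sm_algebraMap, Linear.comp_smul, Category.comp_id]
    refine ⟨k, ?_, ?_⟩
    · rw [mem_J, D.sm_sub, ← h3, hφa, sub_self]
    · rw [mem_J, D.sm_sub, ← h3, hφb, sub_self]
  · rintro ⟨ha, hb⟩
    have ea : D.io ca P = 0 := by
      have : (1 : c.A ca) ∈ J D P ca := by rw [ha]; trivial
      rw [mem_J, D.sm_one] at this
      exact this
    have eb : D.io cb P = 0 := by
      have : (1 : c.A cb) ∈ J D P cb := by rw [hb]; trivial
      rw [mem_J, D.sm_one] at this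
      exact this
    obtain ⟨g, hg'⟩ := mv.uniq (𝟙 P) (by rw [ea, zero_comp]) (by rw [eb, zero_comp])
    have e0 : D.io cab P = 0 := by
      rw [← D.rst_io (cab_le ca), ea, rst_zero]
    have hid : 𝟙 ((trD R (D.U cab)).obj P) = 0 := by
      apply trD_hom_ext (le_refl _)
      have : (trDι R (D.U cab)).app P = 0 := e0
      rw [this, comp_zero, comp_zero]
    have hid1 : 𝟙 (((trD R (D.U cab)).obj P)⟦(1 : ℤ)⟧) = 0 := by
      have := congrArg (fun φ => φ⟦(1 : ℤ)⟧') hid
      simpa using this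
    have hg0 : g = 0 := by
      rw [← Category.id_comp g, hid1, zero_comp]
    apply h1
    rw [hg', hg0, comp_zero]

end Pool.CRD.D1
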