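import Pool.Agent.CRD.D1.Stmts
import Pool.Agent.CRD.D1.NSH

/-!
# CRD, D1: module RES (an object concentrated at a point is determined over the chart of the point)
-/

open CategoryTheory Opposite Limits Pretriangulated

namespace Pool.CRD.D1

namespace RES_

variable {K : Type} [Field K] {c : CurveData K} {C : Type} [Preorder C] {R : PAlg K C}
  {D : Dir c R} {z : c.Pt} {P : DPM R}

/-- the other maximal chart -/
lemma exists_other (z : c.Pt) : ∃ t : Cov Bool, (t = ca ∨ t = cb) ∧ t ≠ z.t ∧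
    ((z.t = ca ∧ t = cb) ∨ (z.t = cb ∧ t = ca)) := by
  rcases z.max with h | h
  · exact ⟨cb, Or.inr rfl, by rw [h]; exact ca_ne_cb.symm, Or.inl ⟨h, rfl⟩⟩
  · exact ⟨ca, Or.inl rfl, by rw [h]; exact ca_ne_cb, Or.inr ⟨h, rfl⟩⟩

lemma one_mem_of_cab {t : Cov Bool} (ht : t ≠ z.t) (hc : t ≠ cab) (h : z.J cab = ⊤) :
    z.J t = ⊤ := by
  have h1 : (1 : c.A cab) ∈ z.J cab := by rw [h]; trivial
  obtain ⟨n, g, _, hg, hfg⟩ := h1
  rw [Ideal.eq_top_iff_one]
  refine ⟨n, g, fun h' => absurd h' ht, hg, ?_⟩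
  rw [← hfg]
  rfl

/-- action on a morphism to `P` from the action on `P` -/
lemma sm_of_scalar {t : Cov Bool} {f : c.A t} {k : K}
    (h : D.sm f (D.io t P) = k • D.io t P) {Y : DPM R} (φ : (trD R (D.U t)).obj Y ⟶ P) :
    D.sm f φ = k • φ := by
  rw [D.sm_eq_hat, h, Linear.comp_smul, hat_ι]

lemma eq_zero_of_io {t : Cov Bool} (h : D.io t P = 0) {Y : DPM R}
    (φ : (trD R (D.U t)).obj Y ⟶ P) : φ = 0 := by
  rw [← hat_ι (le_refl _) φ, show (trDι R (D.U t)).app P = 0 from h, comp_zero]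

lemma sm_pow {t : Cov Bool} (f : c.A t) {k : K} {Y : DPM R} (φ : (trD R (D.U t)).obj Y ⟶ P)
    (h : ∀ φ : (trD R (D.U t)).obj Y ⟶ P, D.sm f φ = k • φ) (n : ℕ) :
    D.sm (f ^ n) φ = k ^ n • φ := by
  induction n with
  | zero => rw [pow_zero, pow_zero, D.sm_one, one_smul]
  | succ n ih => rw [pow_succ', D.sm_mul, ih, h, smul_smul, ← pow_succ']

/-- restriction to `U_ab` is bijective over the chart which is not the chart of `z` -/
lemma bij (hP : AtPt D z P) {t : Cov Bool} (ht : t ≠ z.t) (hc : t ≠ cab) {Y : DPM R}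
    (hloc : LocP D Y P) :
    (∀ φ : (trD R (D.U t)).obj Y ⟶ P, D.rst (cab_le t) φ = 0 → φ = 0) ∧
    (∀ g : (trD R (D.U cab)).obj Y ⟶ P, ∃ φ : (trD R (D.U t)).obj Y ⟶ P,
      D.rst (cab_le t) φ = g) := by
  by_cases htop : z.J t = ⊤
  · have h1 : D.io t P = 0 := by
      have := (hP t 1).1 (by rw [htop]; trivial)
      rwa [D.sm_one] at this
    have h2 : D.io cab P = 0 := by
      rw [← D.rst_io (cab_le t), h1]
      exact comp_zero
    exact ⟨fun φ _ => eq_zero_of_io h1 φ, fun g => ⟨0, by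
      rw [eq_zero_of_io h2 g]; exact comp_zero⟩⟩
  · obtain ⟨χ, hχ, -⟩ := z.exists_ev t htop
    have hv : χ (c.vt t) ≠ 0 := by
      intro hv
      apply htop
      apply one_mem_of_cab ht hc
      rw [← z.J_map (cab_le t)]
      have h1 : c.vt t ∈ z.J t := by rw [← hχ]; exact hv
      exact Ideal.eq_top_of_isUnit_mem _ (Ideal.mem_map_of_mem _ h1) (c.isUnit_res_vt t)
    have hs : D.sm (c.vt t) (D.io t P) = χ (c.vt t) • D.io t P := by
      have h1 : c.vt t - algebraMap K _ (χ (c.vt t)) ∈ z.J t := by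
        rw [← hχ, RingHom.mem_ker, map_sub]
        change χ (c.vt t) - χ (algebraMap K _ (χ (c.vt t))) = 0
        rw [AlgHom.commutes]
        exact sub_self _
      have h2 := (hP t _).1 h1
      rw [D.sm_sub, D.sm_algebraMap, sub_eq_zero] at h2
      exact h2
    have hs' : D.sm (c.res (cab_le t) (c.vt t)) (D.io cab P) = χ (c.vt t) • D.io cab P := by
      rw [← D.rst_io (cab_le t), ← D.rst_sm, hs]
      exact Linear.comp_smul _ _ _ _ _ _
    constructor
    · intro φ h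
      obtain ⟨n, hn⟩ := (hloc t).2 φ h
      rw [sm_pow _ _ (fun φ => sm_of_scalar hs φ)] at hn
      exact (smul_eq_zero.1 hn).resolve_left (pow_ne_zero n hv)
    · intro g
      obtain ⟨n, g', hg⟩ := (hloc t).1 g
      rw [sm_pow _ _ (fun φ => sm_of_scalar hs' φ)] at hg
      refine ⟨(χ (c.vt t) ^ n)⁻¹ • g', ?_⟩
      have : D.rst (cab_le t) ((χ (c.vt t) ^ n)⁻¹ • g') =
          (χ (c.vt t) ^ n)⁻¹ • D.rst (cab_le t) g' := Linear.comp_smul _ _ _ _ _ _
      rw [this, ← hg, smul_smul, inv_mul_cancel₀ (pow_ne_zero n hv), one_smul]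

end RES_

open RES_

theorem res_proof : Stmt_RES := by
  intro K _ c C _ R D mv P z hP X hX hX1 φ hφ
  obtain ⟨t, _, htz, hcase⟩ := exists_other z
  have hc : t ≠ cab := by
    rintro rfl
    rcases hcase with ⟨_, h⟩ | ⟨_, h⟩
    · exact not_cb_le_ca (h ▸ cab_le ca)
    · exact not_ca_le_cb (h ▸ cab_le cb)
  have h0 : D.io cab X ≫ φ = 0 := by
    rw [← D.rst_io (cab_le z.t)]
    unfold Dir.rst
    rw [Category.assoc, hφ, comp_zero]
  have h1 : D.io t X ≫ φ = 0 := by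
    apply (bij hP htz hc hX).1
    unfold Dir.rst
    rw [← Category.assoc]
    have := D.rst_io (X := X) (cab_le t)
    unfold Dir.rst at this
    rw [this, h0]
  have h2 : D.io ca X ≫ φ = 0 ∧ D.io cb X ≫ φ = 0 := by
    rcases hcase with ⟨ha, hb⟩ | ⟨ha, hb⟩
    · rw [ha] at hφ; rw [hb] at h1; exact ⟨hφ, h1⟩
    · rw [ha] at hφ; rw [hb] at h1; exact ⟨h1, hφ⟩
  obtain ⟨g, hg⟩ := mv.uniq φ h2.1 h2.2
  obtain ⟨g', hg'⟩ := (bij hP htz hc hX1).2 ((trSh R (D.U cab) 1 X).hom ≫ g)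
  have e1 := trDLE_shift (R := R) (D.U_mono (cab_le t)) 1 X
  have e2 : g = ((trDLE R (D.U_mono (cab_le t))).app X)⟦(1 : ℤ)⟧' ≫
      (trSh R (D.U t) 1 X).inv ≫ g' := by
    rw [← cancel_epi (trSh R (D.U cab) 1 X).hom, ← hg']
    unfold Dir.rst
    rw [← Category.assoc, ← Category.assoc, ← e1]
    simp
  have e3 : mv.δ X ≫ ((trDLE R (D.U_mono (cab_le t))).app X)⟦(1 : ℤ)⟧' = 0 := by
    rcases hcase with ⟨ha, hb⟩ | ⟨ha, hb⟩
    · subst hb; exact mv.dzb X
    · subst hb; exact mv.dza X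
  rw [hg, e2, ← Category.assoc, e3, zero_comp]

end Pool.CRD.D1
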