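import Pool.Agent.CRD.D1.Stmts

/-!
# CRD, D1: module RET (the composition `J_z N ⟶ N ⟶ P` vanishes over the chart of `z`)
-/

open CategoryTheory Opposite Limits Pretriangulated

namespace Pool.CRD.D1

namespace RET_

variable {K : Type} [Field K] {C : Type} [Preorder C] {R : PAlg K C}

/-- a morphism of complexes from a family of morphisms compatible with the differentials -/
noncomputable def mkCx {F : PMod R ⥤ PMod R} [F.Additive] (G : PMod R ⥤ PMod R) [G.Additive]
    {N N' : CochainComplex (PMod R) ℤ} (μ : ∀ n, F.obj (N'.X n) ⟶ G.obj (N.X n))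
    (h : ∀ i j, μ i ≫ G.map (N.d i j) = F.map (N'.d i j) ≫ μ j) :
    (F.mapHomologicalComplex (ComplexShape.up ℤ)).obj N' ⟶
      (G.mapHomologicalComplex (ComplexShape.up ℤ)).obj N where
  f n := μ n
  comm' i j _ := h i j

end RET_

open RET_

theorem ret_proof (hMUY : Stmt_MUY) : Stmt_RET := by
  intro K _ c C _ R D z P hP N hN r
  obtain ⟨n, u, μ, hu, hnat, hsum⟩ := hMUY K c C R D z
  -- the morphisms of complexes
  let F := tr R (D.U z.t)
  let m : ∀ k : Fin n, (F.mapHomologicalComplex (ComplexShape.up ℤ)).obj (idCx D z N) ⟶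
      (F.mapHomologicalComplex (ComplexShape.up ℤ)).obj N := fun k =>
    mkCx (F := F) F (N := N) (N' := idCx D z N) (fun i => μ k (N.X i) (hN i))
      (fun i j => (hnat k (N.X i) (N.X j) (hN i) (hN j) (N.d i j)).symm)
  let s : ∀ k : Fin n, (F.mapHomologicalComplex (ComplexShape.up ℤ)).obj N ⟶
      (F.mapHomologicalComplex (ComplexShape.up ℤ)).obj N := fun k =>
    (NatTrans.mapHomologicalComplex (mulU (D.sec z.t (u k))) (ComplexShape.up ℤ)).app N
  have h1 : (F.mapHomologicalComplex (ComplexShape.up ℤ)).map (idCxι D z N) =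
      ∑ k, m k ≫ s k := by
    ext i : 1
    have e : (∑ k, m k ≫ s k).f i = ∑ k, (m k ≫ s k).f i :=
      map_sum (HomologicalComplex.Hom.fAddMonoidHom i) _ _
    rw [e]
    exact (hsum (N.X i) (hN i)).symm
  have h2 : (trD R (D.U z.t)).map (DerivedCategory.Q.map (idCxι D z N)) =
      ∑ k, (F.mapDerivedCategoryFactors.hom.app (idCx D z N) ≫
        DerivedCategory.Q.map (m k) ≫ F.mapDerivedCategoryFactors.inv.app N) ≫
        (D.act z.t (u k)).app (DerivedCategory.Q.obj N) := by
    rw [mD_map_Q, h1, Functor.map_sum, Preadditive.sum_comp, Preadditive.comp_sum]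
    apply Finset.sum_congr rfl
    intro k _
    have h3 : (D.act z.t (u k)).app (DerivedCategory.Q.obj N) =
        F.mapDerivedCategoryFactors.hom.app N ≫ DerivedCategory.Q.map (s k) ≫
          F.mapDerivedCategoryFactors.inv.app N := natD_app _ _
    rw [h3, Functor.map_comp]
    simp only [Category.assoc]
    congr 1
    congr 1
    rw [← Category.assoc (F.mapDerivedCategoryFactors.inv.app N)]
    rw [Iso.inv_hom_id_app, Category.id_comp]
  have h4 : D.io z.t (DerivedCategory.Q.obj (idCx D z N)) ≫
      DerivedCategory.Q.map (idCxι D z N) =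
      (trD R (D.U z.t)).map (DerivedCategory.Q.map (idCxι D z N)) ≫
        D.io z.t (DerivedCategory.Q.obj N) :=
    ((trDι R (D.U z.t)).naturality _).symm
  have h5 : D.io z.t (DerivedCategory.Q.obj N) ≫ r =
      (trD R (D.U z.t)).map r ≫ D.io z.t P := ((trDι R (D.U z.t)).naturality _).symm
  rw [← Category.assoc, h4, Category.assoc, h5, h2, Preadditive.sum_comp]
  apply Finset.sum_eq_zero
  intro k _
  have h6 : (D.act z.t (u k)).app (DerivedCategory.Q.obj N) ≫ (trD R (D.U z.t)).map r =
      (trD R (D.U z.t)).map r ≫ (D.act z.t (u k)).app P :=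
    ((D.act z.t (u k)).naturality r).symm
  have h7 : (D.act z.t (u k)).app P ≫ D.io z.t P = 0 := hP (u k) (hu k)
  simp only [Category.assoc]
  rw [reassoc_of% h6, h7]
  simp only [comp_zero]

end Pool.CRD.D1
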