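import Pool.Agent.CRD.D1.Stmts

/-!
# CRD, D1: module RTR (retracts of objects in the image of a fully faithful functor)
-/

open CategoryTheory Opposite Limits Pretriangulated

namespace Pool.CRD.D1

theorem rtr_proof : Stmt_RTR := by
  intro A _ _ T _ F _ _ P N i r h
  let e : N ⟶ N := F.preimage (r ≫ i)
  have he : e ≫ e = e := by
    apply F.map_injective
    rw [F.map_comp, F.map_preimage]
    simp [reassoc_of% h]
  obtain ⟨N', i', r', h1, h2⟩ := IsIdempotentComplete.idempotents_split N e he
  refine ⟨N', ⟨{ hom := i ≫ F.map r', inv := F.map i' ≫ r, hom_inv_id := ?_, inv_hom_id := ?_ }⟩⟩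
  · have : F.map r' ≫ F.map i' = r ≫ i := by
      rw [← F.map_comp, h2, F.map_preimage]
    rw [Category.assoc, reassoc_of% this, reassoc_of% h, h]
  · have : r ≫ i = F.map r' ≫ F.map i' := by
      rw [← F.map_comp, h2, F.map_preimage]
    rw [Category.assoc, reassoc_of% this, ← F.map_comp, ← F.map_comp, ← F.map_comp,
      reassoc_of% h1, h1, F.map_id]

end Pool.CRD.D1
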