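import Pool.Agent.CRD.D1.Stmts

/-!
# CRD, D1: module SEQ (the triangle `J_z N ⟶ N ⟶ N / J_z N`)
-/

open CategoryTheory Opposite Limits Pretriangulated

namespace Pool.CRD.D1

namespace SEQ_

variable {K : Type} [Field K] {c : CurveData K} {C : Type} [Preorder C] {R : PAlg K C}
  (D : Dir c R) (z : c.Pt)

lemma w (M : PMod R) : (idι D z).app M ≫ (quπ D z).app M = 0 := by
  apply pmod_ext; intro X x
  exact (Submodule.Quotient.mk_eq_zero (idSub D z M X)).2 (x : idSub D z M X).2

lemma ses (M : PMod R) :
    (ShortComplex.mk ((idι D z).app M) ((quπ D z).app M) (w D z M)).ShortExact where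
  exact := by
    rw [pmod_exact_iff]
    intro X x
    constructor
    · intro h
      exact ⟨(⟨x, (Submodule.Quotient.mk_eq_zero (idSub D z M X)).1 h⟩ : idSub D z M X), rfl⟩
    · rintro ⟨y, rfl⟩
      exact congr(($(w D z M)).app X y)
  mono_f := by
    rw [pmod_mono_iff]
    intro X x y h
    exact Subtype.ext h
  epi_g := by
    rw [pmod_epi_iff]
    intro X y
    exact Submodule.Quotient.mk_surjective _ y

lemma wCx (N : CochainComplex (PMod R) ℤ) : idCxι D z N ≫ quCxπ D z N = 0 := by
  ext n : 1
  exact w D z (N.X n)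

lemma sesCx (N : CochainComplex (PMod R) ℤ) :
    (ShortComplex.mk (idCxι D z N) (quCxπ D z N) (wCx D z N)).ShortExact :=
  HomologicalComplex.shortExact_of_degreewise_shortExact _ (fun n => ses D z (N.X n))

end SEQ_

open SEQ_

theorem seq_proof : Stmt_SEQ := by
  intro K _ c C _ R D z P N r h
  obtain ⟨r', hr'⟩ := Triangle.yoneda_exact₂ _
    (DerivedCategory.triangleOfSES_distinguished (sesCx D z N)) r h
  exact ⟨r', hr'.symm⟩

end Pool.CRD.D1
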