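import Pool.Agent.CRD.D1.DefsB
import Pool.Agent.CRD.D1.Stmts

/-!
# CRD, area D1: statements, part B: projective structures on `X` and `S`, finiteness, localisation
-/

open CategoryTheory Opposite Limits Pretriangulated

namespace Pool.CRD.D1

/-- AFI: the projective structure given by `AmpF` -/
def Stmt_AFI : Prop :=
  ∀ (K B ι : Type) [Field K] [CommRing B] [Algebra K B] (C : Type) [SemilatticeInf C]
    (F : Type) [Field F] [Algebra K F] (A : C → Subalgebra K F)
    (hA : ∀ {U V : C}, V ≤ U → A U ≤ A V) (a : AmpF K B ι A),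
    ∃ Am : Amp K B ι (subAlg A hA), Am.v = a.v ∧
      ∀ (b : B) (X : Cᵒᵖ), ((show A X.unop from (Am.ρ.app X).hom b) : F) = a.ρ b

/-- AFS: the projective structure of the product of two curves -/
def Stmt_AFS : Prop :=
  ∀ (K : Type) [Field K] (c₁ c₂ : CurveData K) (S : SurfData c₁ c₂),
    ∃ a : AmpF K K (Bool × Bool) (fun s : Ch2 => S.A s.i s.j),
      ∀ i j, a.v (i, j) = ⟨Cov.one i, Cov.one j⟩

/-- AFX: the projective structure of the threefold `X` -/
def Stmt_AFX : Prop :=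
  ∀ (K : Type) [Field K] (c₁ c₂ : CurveData K) (S : SurfData c₁ c₂) (X : ConicData S),
    ∃ a : AmpF K K (Bool × Bool × Bool) (fun s : Ch3 => X.A s.i s.j s.k),
      ∀ i j k, a.v (i, j, k) = ⟨Cov.one i, Cov.one j, Cov.one k⟩

/-- AF1: the part of `X` over a chart of the first curve is projective over this chart -/
def Stmt_AF1 : Prop :=
  ∀ (K : Type) [Field K] (c₁ c₂ : CurveData K) (S : SurfData c₁ c₂) (X : ConicData S)
    (t : Cov Bool), t = ca ∨ t = cb →
    ∃ a : AmpF K (c₁.A t) (Bool × Bool) (fun d : Ch2 => X.A t d.i d.j),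
      ∀ b, a.ρ b = X.ofL (S.e₁ b)

/-- AF2: the part of `X` over a chart of the second curve is projective over this chart -/
def Stmt_AF2 : Prop :=
  ∀ (K : Type) [Field K] (c₁ c₂ : CurveData K) (S : SurfData c₁ c₂) (X : ConicData S)
    (t : Cov Bool), t = ca ∨ t = cb →
    ∃ a : AmpF K (c₂.A t) (Bool × Bool) (fun d : Ch2 => X.A d.i t d.j),
      ∀ b, a.ρ b = X.ofL (S.e₂ b)

/-- GOX: the diagrams of `X` and `S` are good -/
def Stmt_GOX : Prop :=
  ∀ (K : Type) [Field K] (c₁ c₂ : CurveData K) (S : SurfData c₁ c₂),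
    S.R.Good ∧ ∀ X : ConicData S, X.R.Good

/-- AMX: the projective structures -/
def Stmt_AMX : Prop :=
  ∀ (K : Type) [Field K] (c₁ c₂ : CurveData K) (S : SurfData c₁ c₂),
    (∃ Am : Amp K K (Bool × Bool) S.R, ∀ i j, Am.v (i, j) = ⟨Cov.one i, Cov.one j⟩) ∧
    ∀ X : ConicData S, ∃ Am : Amp K K (Bool × Bool × Bool) X.R,
      ∀ i j k, Am.v (i, j, k) = ⟨Cov.one i, Cov.one j, Cov.one k⟩

/-- FGX: finiteness of `Hom` over the charts of the curves -/
def Stmt_FGX : Prop :=
  ∀ (K : Type) [Field K] (c₁ c₂ : CurveData K) (S : SurfData c₁ c₂) (X : ConicData S)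
    (M N : DPM X.R), IsCohD X.R M → IsCohD X.R N → FgP X.dir₁ M N ∧ FgP X.dir₂ M N

/-- LCX: localisation of `Hom` over the charts of the curves -/
def Stmt_LCX : Prop :=
  ∀ (K : Type) [Field K] (c₁ c₂ : CurveData K) (S : SurfData c₁ c₂) (X : ConicData S)
    (M N : DPM X.R), IsCohD X.R M → IsCohD X.R N → LocP X.dir₁ M N ∧ LocP X.dir₂ M N

end Pool.CRD.D1
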