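import Pool.Agent.CRD.D1.StmtsB
import Pool.Agent.CRD.D2.Fin

/-!
# CRD, area D1: statements, part C: vector bundles, extensions on the conic
-/

open CategoryTheory Opposite Limits Pretriangulated

namespace Pool.CRD.D1

/-- ENV: enough vector bundles on projective diagrams -/
def Stmt_ENV : Prop :=
  ∀ (K B ι C : Type) [CommRing K] [CommRing B] [Algebra K B] [Finite ι] [SemilatticeInf C]
    (R : PAlg K C) [R.Good] (_ : Amp K B ι R) (M : PMod R), IsCoh R M →
    ∃ (V : PMod R) (f : V ⟶ M), IsVB R V ∧ Epi f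

/-- EXA: a surjection onto a finitely generated module over a domain splits after multiplication by
a non-zero element -/
def Stmt_EXA : Prop :=
  ∀ (A P P' : Type) [CommRing A] [IsDomain A] [AddCommGroup P] [AddCommGroup P'] [Module A P]
    [Module A P'] [Module.Finite A P] (p : P' →ₗ[A] P), Function.Surjective p →
    ∃ (x : A) (σ : P →ₗ[A] P'), x ≠ 0 ∧ ∀ m, p (σ m) = x • m

/-- EXB: extension classes of positive degree of a finitely generated module over a domain are
torsion -/
def Stmt_EXB : Prop :=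
  ∀ (A : Type) [CommRing A] [IsDomain A] (P Q : ModuleCat.{0} A), Module.Finite A P →
    ∀ n : ℤ, 1 ≤ n →
    ∀ g : (DerivedCategory.singleFunctor (ModuleCat.{0} A) 0).obj P ⟶
      ((DerivedCategory.singleFunctor (ModuleCat.{0} A) 0).obj Q)⟦n⟧,
    ∃ x : A, x ≠ 0 ∧ x • g = 0

/-- EXC: extension classes of degree bigger than the projective dimension vanish -/
def Stmt_EXC : Prop :=
  ∀ (A : Type) [CommRing A] (P Q : ModuleCat.{0} A) (r : ℕ), HasProjectiveDimensionLE P r →
    ∀ n : ℤ, (r : ℤ) < n →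
    ∀ g : (DerivedCategory.singleFunctor (ModuleCat.{0} A) 0).obj P ⟶
      ((DerivedCategory.singleFunctor (ModuleCat.{0} A) 0).obj Q)⟦n⟧, g = 0

/-- EX2: on the conic over a field there are no extensions of degree at least 2 -/
def Stmt_EX2 : Prop :=
  ∀ (K : Type) [Field K] (a b : Kˣ), (2 : K) ≠ 0 → ∀ (M N : PMod (Cnc a b K)),
    IsCoh (Cnc a b K) M → IsCoh (Cnc a b K) N → ∀ n : ℤ, 2 ≤ n →
    ∀ φ : (sg (Cnc a b K)).obj M ⟶ ((sg (Cnc a b K)).obj N)⟦n⟧, φ = 0

end Pool.CRD.D1
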