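import Pool.Agent.CRD.D1.Stmts

/-!
# CRD, D1: module TFA (projective modules are torsion free)
-/

open CategoryTheory Opposite Limits Pretriangulated

namespace Pool.CRD.D1

namespace TFA_

lemma proj_tf {R V : Type} [Ring R] [AddCommGroup V] [Module R V] [Module.Projective R V] (r : R)
    (hr : ∀ x : R, r * x = 0 → x = 0) (m : V) (h : r • m = 0) : m = 0 := by
  obtain ⟨s, hs⟩ := Module.Projective.out (R := R) (P := V)
  have h1 : r • s m = 0 := by rw [← map_smul, h, map_zero]
  have h2 : s m = 0 := by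
    ext p
    exact hr _ (DFunLike.congr_fun h1 p)
  rw [← hs m, h2, map_zero]

end TFA_

open TFA_

theorem tfa_proof : Stmt_TFA := by
  intro K _ c₁ c₂ S X t V hV Y h f hf m hm
  have := hV Y
  refine proj_tf (R := X.R.toRing.obj Y) (V := V.obj Y) _ (fun x hx => ?_) m hm
  have h1 : X.ofL (S.e₁ (f : c₁.F)) * ((show X.A Y.unop.i Y.unop.j Y.unop.k from x) : X.E) = 0 :=
    congrArg (fun y : X.A Y.unop.i Y.unop.j Y.unop.k => (y : X.E)) hx
  have h2 : X.ofL (S.e₁ (f : c₁.F)) ≠ 0 := by
    intro h'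
    have h3 : S.e₁ (f : c₁.F) = 0 := X.ofL.toRingHom.injective (h'.trans (map_zero _).symm)
    have h4 : (f : c₁.F) = 0 := S.e₁.toRingHom.injective (h3.trans (map_zero _).symm)
    exact hf (Subtype.ext h4)
  exact Subtype.ext ((mul_eq_zero.1 h1).resolve_left h2)

end Pool.CRD.D1
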