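import Pool.Agent.CRD.D1.Stmts

/-!
# CRD / D1 / TFB: the quotient of a locally projective module by the ideal of a point of the first
curve is torsion free over the second curve
-/

open CategoryTheory Opposite Limits Pretriangulated

namespace Pool.CRD.D1

namespace TFB_

/-- an ideal is saturated with respect to `f`: the same for projective modules -/
theorem proj {A V : Type} [CommRing A] [AddCommGroup V] [Module A V] [Module.Projective A V]
    (S : Set A) (f : A) (hf : ∀ a : A, f * a ∈ Ideal.span S → a ∈ Ideal.span S) (x : V)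
    (hx : f • x ∈ Submodule.span A {y : V | ∃ s ∈ S, ∃ m : V, y = s • m}) :
    x ∈ Submodule.span A {y : V | ∃ s ∈ S, ∃ m : V, y = s • m} := by
  classical
  obtain ⟨σ, hσ⟩ := Module.projective_def'.1 (inferInstance : Module.Projective A V)
  have h1 : ∀ v ∈ Submodule.span A {y : V | ∃ s ∈ S, ∃ m : V, y = s • m},
      ∀ i, σ v i ∈ Ideal.span S := by
    intro v hv
    induction hv using Submodule.span_induction with
    | mem y hy =>
      obtain ⟨s, hs, m, rfl⟩ := hy
      intro i
      rw [map_smul, Finsupp.smul_apply, smul_eq_mul]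
      exact Ideal.mul_mem_right _ _ (Ideal.subset_span hs)
    | zero =>
      intro i
      rw [map_zero]
      exact zero_mem _
    | add y z _ _ hy hz =>
      intro i
      rw [map_add]
      exact add_mem (hy i) (hz i)
    | smul a y _ hy =>
      intro i
      rw [map_smul]
      exact Ideal.mul_mem_left _ a (hy i)
  have h2 : ∀ i, σ x i ∈ Ideal.span S := by
    intro i
    apply hf
    have := h1 _ hx i
    rw [map_smul, Finsupp.smul_apply, smul_eq_mul] at this
    exact this
  have h3 : ∀ a ∈ Ideal.span S, ∀ m : V,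
      a • m ∈ Submodule.span A {y : V | ∃ s ∈ S, ∃ m : V, y = s • m} := by
    intro a ha m
    induction ha using Submodule.span_induction with
    | mem s hs => exact Submodule.subset_span ⟨s, hs, m, rfl⟩
    | zero =>
      rw [zero_smul]
      exact zero_mem _
    | add y z _ _ hy hz =>
      rw [add_smul]
      exact add_mem hy hz
    | smul a y _ hy =>
      rw [smul_eq_mul, mul_smul]
      exact Submodule.smul_mem _ _ hy
  have h4 : Finsupp.linearCombination A id (σ x) = x := congrArg (fun g => g x) hσ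
  rw [← h4, Finsupp.linearCombination_apply]
  refine Submodule.sum_mem _ fun i _ => h3 _ (h2 i) _

end TFB_

open TFB_

theorem tfb_proof (hTFR : Stmt_TFR) : Stmt_TFB := by
  intro K _ c₁ c₂ S X z t V hV s h f hf m hm
  obtain ⟨x, rfl⟩ := Submodule.Quotient.mk_surjective _ m
  have h1 : X.dir₂.el s (c₂.res h f) • x ∈ idSub X.dir₁ z V s :=
    (Submodule.Quotient.mk_eq_zero (p := idSub X.dir₁ z V s)).1 hm
  refine (Submodule.Quotient.mk_eq_zero (p := idSub X.dir₁ z V s)).2 ?_
  have hset : ∀ M : Type, ∀ [AddCommGroup M] [Module (X.R.toRing.obj s) M],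
      {y : M | ∃ f ∈ z.J (X.dir₁.p s.unop), ∃ m : M, y = X.dir₁.el s f • m} =
      {y : M | ∃ a ∈ {a : X.R.toRing.obj s | ∃ f ∈ z.J (X.dir₁.p s.unop), X.dir₁.el s f = a},
        ∃ m : M, y = a • m} := by
    intro M _ _
    ext y
    constructor
    · rintro ⟨f, hf, m, rfl⟩
      exact ⟨_, ⟨f, hf, rfl⟩, m, rfl⟩
    · rintro ⟨_, ⟨f, hf, rfl⟩, m, rfl⟩
      exact ⟨f, hf, m, rfl⟩
  unfold idSub at h1 ⊢
  rw [hset] at h1 ⊢
  have := hV s
  refine proj (A := X.R.obj s) (V := V.obj s) _ (X.dir₂.el s (c₂.res h f)) ?_ x h1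
  intro a ha
  have h0 : c₂.res h f ≠ 0 := (map_ne_zero_iff _ (c₂.res_inj h)).2 hf
  exact hTFR K c₁ c₂ S X z s.unop (c₂.res h f) h0 a ha

end Pool.CRD.D1
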