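import Pool.Agent.CRD.D1.StmtsC

/-!
# CRD, D1: module TFR
-/

open CategoryTheory Opposite Limits Pretriangulated

namespace Pool.CRD.D1

namespace TFR_

/-- membership in an extended ideal, in terms of the coordinates with respect to a basis -/
lemma mem_iff {A B ι : Type} [CommRing A] [CommRing B] [Algebra A B] (b : Module.Basis ι A B)
    (J : Ideal A) (x : B) : x ∈ Ideal.map (algebraMap A B) J ↔ ∀ i, b.repr x i ∈ J := by
  constructor
  · intro hx i
    have key : ∀ (r : B) (i : ι), b.repr (r * x) i ∈ J := by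
      refine Submodule.span_induction (p := fun x _ => ∀ (r : B) (i : ι), b.repr (r * x) i ∈ J)
        ?_ ?_ ?_ ?_ (show x ∈ Submodule.span B (algebraMap A B '' J) from hx)
      · rintro _ ⟨a, ha, rfl⟩ r i
        rw [mul_comm, ← Algebra.smul_def, map_smul, Finsupp.smul_apply, smul_eq_mul]
        exact Ideal.mul_mem_right _ _ ha
      · intro r i
        rw [mul_zero, map_zero]; exact Submodule.zero_mem _
      · intro y y' _ _ hy hy' r i
        rw [mul_add, map_add, Finsupp.add_apply]
        exact Submodule.add_mem _ (hy r i) (hy' r i)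
      · intro r' y _ hy r i
        rw [smul_eq_mul, ← mul_assoc]
        exact hy _ i
    have := key 1 i
    rwa [one_mul] at this
  · intro h
    rw [← b.linearCombination_repr x, Finsupp.linearCombination_apply]
    refine Submodule.sum_mem _ fun i _ => ?_
    change b.repr x i • b i ∈ _
    rw [Algebra.smul_def]
    exact Ideal.mul_mem_right _ _ (Ideal.mem_map_of_mem _ (h i))

end TFR_

open TFR_

theorem tfr_proof (hTFS : Stmt_TFS) (hXFR : FB.Stmt_XFR) : Stmt_TFR := by
  intro K _ c₁ c₂ S X z s f hf x hx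
  let _ := (X.prA s).toRingHom.toAlgebra
  have hfree : Module.Free (S.A s.i s.j) (X.A s.i s.j s.k) := hXFR K c₁ c₂ S X s
  obtain ⟨⟨ι, b⟩⟩ := hfree
  have hmap : Ideal.map (X.dir₁.e s).toRingHom (z.J s.i) =
      Ideal.map (algebraMap (S.A s.i s.j) (X.A s.i s.j s.k))
        (Ideal.map (S.inc₁ s.i s.j).toRingHom (z.J s.i)) := by
    rw [Ideal.map_map]
    rfl
  have hx' : (X.dir₂.e s f * x : X.A s.i s.j s.k) ∈
      Ideal.map (algebraMap (S.A s.i s.j) (X.A s.i s.j s.k))
        (Ideal.map (S.inc₁ s.i s.j).toRingHom (z.J s.i)) := hmap ▸ hx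
  have goal : (x : X.A s.i s.j s.k) ∈
      Ideal.map (algebraMap (S.A s.i s.j) (X.A s.i s.j s.k))
        (Ideal.map (S.inc₁ s.i s.j).toRingHom (z.J s.i)) := by
    refine (mem_iff b _ _).2 fun i => hTFS K c₁ c₂ S z s.i s.j f hf _ ?_
    have h1 := (mem_iff b _ _).1 hx' i
    let x' : X.A s.i s.j s.k := x
    have h2 : (X.dir₂.e s f * x : X.A s.i s.j s.k) = (S.inc₂ s.i s.j f) • x' := rfl
    have h3 : b.repr ((S.inc₂ s.i s.j f) • x') i = S.inc₂ s.i s.j f * b.repr x' i := by
      rw [map_smul, Finsupp.smul_apply, smul_eq_mul]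
    have h4 : b.repr ((S.inc₂ s.i s.j f) • x') i ∈
        Ideal.map (S.inc₁ s.i s.j).toRingHom (z.J s.i) := h1
    rw [h3] at h4
    exact h4
  rw [hmap]
  exact goal

end Pool.CRD.D1
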