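import Pool.Agent.CRD.D1.Stmts

/-!
# CRD / D1 / TFS: the chart rings of the product are torsion free over the second curve modulo the
ideal of a point of the first curve
-/

open CategoryTheory Opposite Limits Pretriangulated TensorProduct

namespace Pool.CRD.D1

namespace TFS_

variable {K : Type} [Field K] {c₁ c₂ : CurveData K} (S : SurfData c₁ c₂) (i j : Cov Bool)

/-- the tensor product of the chart rings as the chart ring of the product -/
noncomputable def phi : (c₁.A i ⊗[K] c₂.A j) →ₐ[K] S.A i j :=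
  Algebra.TensorProduct.productMap (S.inc₁ i j) (S.inc₂ i j)

lemma phi_tmul (a : c₁.A i) (b : c₂.A j) :
    phi S i j (a ⊗ₜ b) = S.inc₁ i j a * S.inc₂ i j b := rfl

lemma phi_inj : Function.Injective (phi S i j) := by
  have h1 : Function.Injective
      (TensorProduct.map (c₁.A i).val.toLinearMap (c₂.A j).val.toLinearMap) :=
    TensorProduct.map_injective_of_flat_flat _ _ Subtype.val_injective Subtype.val_injective
  have h2 : ∀ t : c₁.A i ⊗[K] c₂.A j, Algebra.TensorProduct.productMap S.e₁ S.e₂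
      (TensorProduct.map (c₁.A i).val.toLinearMap (c₂.A j).val.toLinearMap t) =
      (phi S i j t : S.L) := by
    intro t
    induction t using TensorProduct.induction_on with
    | zero => simp only [map_zero]; rfl
    | tmul a b => rfl
    | add x y hx hy =>
      rw [map_add, map_add, map_add, hx, hy]
      rfl
  intro x y hxy
  apply h1
  apply S.inj
  rw [h2, h2, hxy]

lemma phi_surj : Function.Surjective (phi S i j) := by
  have h1 : ((S.A i j).val.comp (phi S i j)).range = S.A i j := by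
    have h2 : (S.A i j).val.comp (phi S i j) = Algebra.TensorProduct.productMap
        (S.e₁.comp (c₁.A i).val) (S.e₂.comp (c₂.A j).val) := by
      ext <;> simp [phi] <;> rfl
    rw [h2, Algebra.TensorProduct.productMap_range, AlgHom.range_comp, AlgHom.range_comp,
      Subalgebra.range_val, Subalgebra.range_val]
    rfl
  intro x
  have hx : (x : S.L) ∈ ((S.A i j).val.comp (phi S i j)).range := by
    rw [h1]
    exact x.2
  obtain ⟨t, ht⟩ := hx
  exact ⟨t, Subtype.ext ht⟩

/-- the isomorphism -/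
noncomputable def eqv : (c₁.A i ⊗[K] c₂.A j) ≃ₐ[K] S.A i j :=
  AlgEquiv.ofBijective (phi S i j) ⟨phi_inj S i j, phi_surj S i j⟩

lemma eqv_apply (t : c₁.A i ⊗[K] c₂.A j) : eqv S i j t = phi S i j t := rfl

/-- evaluation in the first variable -/
noncomputable def evl (c₂ : CurveData K) (i j : Cov Bool) (χ : c₁.A i →ₐ[K] K) : (c₁.A i ⊗[K] c₂.A j) →ₐ[K] c₂.A j :=
  Algebra.TensorProduct.productMap ((Algebra.ofId K (c₂.A j)).comp χ) (AlgHom.id K _)

lemma evl_tmul (χ : c₁.A i →ₐ[K] K) (a : c₁.A i) (b : c₂.A j) :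
    evl c₂ i j χ (a ⊗ₜ b) = algebraMap K _ (χ a) * b := rfl

lemma sub_mem' (χ : c₁.A i →ₐ[K] K) (J : Ideal (c₁.A i)) (hJ : RingHom.ker χ = J)
    (t : c₁.A i ⊗[K] c₂.A j) :
    phi S i j t - S.inc₂ i j (evl c₂ i j χ t) ∈ Ideal.map (S.inc₁ i j).toRingHom J := by
  induction t using TensorProduct.induction_on with
  | zero =>
    rw [map_zero, map_zero, map_zero, sub_zero]
    exact zero_mem _
  | tmul a b =>
    rw [phi_tmul, evl_tmul, map_mul, ← sub_mul, AlgHom.commutes]
    refine Ideal.mul_mem_right _ _ ?_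
    have h1 : S.inc₁ i j a - algebraMap K _ (χ a) =
        (S.inc₁ i j).toRingHom (a - algebraMap K _ (χ a)) := by
      rw [map_sub]
      congr 1
      exact ((S.inc₁ i j).commutes (χ a)).symm
    rw [h1]
    refine Ideal.mem_map_of_mem _ ?_
    rw [← hJ, RingHom.mem_ker, map_sub, AlgHom.commutes]
    simp
  | add x y hx hy =>
    rw [map_add, map_add, map_add]
    have := add_mem hx hy
    convert this using 1
    ring

end TFS_

open TFS_

theorem tfs_proof : Stmt_TFS := by
  intro K _ c₁ c₂ S z i j f hf x hx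
  by_cases hz : z.J i = ⊤
  · rw [hz, Ideal.map_top]
    trivial
  obtain ⟨χ, hχ, -⟩ := z.exists_ev i hz
  obtain ⟨t, rfl⟩ := (eqv S i j).surjective x
  let θ : S.A i j →ₐ[K] c₂.A j := (evl c₂ i j χ).comp (eqv S i j).symm.toAlgHom
  have hθ : ∀ t, θ (eqv S i j t) = evl c₂ i j χ t := fun t => by
    change evl c₂ i j χ ((eqv S i j).symm (eqv S i j t)) = _
    rw [AlgEquiv.symm_apply_apply]
  have hθ1 : Ideal.map (S.inc₁ i j).toRingHom (z.J i) ≤ RingHom.ker θ.toRingHom := by
    rw [Ideal.map_le_iff_le_comap]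
    intro a ha
    rw [← hχ, RingHom.mem_ker] at ha
    rw [Ideal.mem_comap, RingHom.mem_ker]
    have h1 : (S.inc₁ i j).toRingHom a = eqv S i j (a ⊗ₜ 1) := by
      rw [eqv_apply, phi_tmul, map_one, mul_one]
      rfl
    rw [h1]
    change θ (eqv S i j (a ⊗ₜ 1)) = 0
    rw [hθ, evl_tmul, ha, map_zero, zero_mul]
  have hθ2 : ∀ b, θ (S.inc₂ i j b) = b := by
    intro b
    have h1 : S.inc₂ i j b = eqv S i j (1 ⊗ₜ b) := by
      rw [eqv_apply, phi_tmul, map_one, one_mul]
    rw [h1, hθ, evl_tmul, map_one, map_one, one_mul]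
  have h1 : θ (S.inc₂ i j f * eqv S i j t) = 0 := hθ1 hx
  rw [map_mul, hθ2, hθ] at h1
  have h2 : evl c₂ i j χ t = 0 := (mul_eq_zero.1 h1).resolve_left hf
  have h3 := sub_mem' S i j χ (z.J i) hχ t
  rw [h2, map_zero, sub_zero] at h3
  exact h3

end Pool.CRD.D1
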