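import Pool.Agent.CRD.D1.Stmts

/-!
# CRD / D1 / TOM: an object with a bounded action of a cohomology class is torsion
-/

open CategoryTheory Opposite Limits Pretriangulated

namespace Pool.CRD.D1

namespace TOM_

section

variable {K : Type} [Field K] {c : CurveData K} {C : Type} [Preorder C] {R : PAlg K C}
  (D : Dir c R)

/-- the action of functions on morphisms -/
@[reducible] noncomputable def modA (t : Cov Bool) (X Y : DPM R) :
    Module (c.A t) ((trD R (D.U t)).obj X ⟶ Y) where
  smul f φ := D.sm f φ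
  one_smul := D.sm_one
  mul_smul := D.sm_mul
  smul_zero := D.sm_zero_right
  smul_add := D.sm_add_right
  add_smul := D.sm_add
  zero_smul := D.sm_zero

attribute [local instance] modA

lemma smul_def' (t : Cov Bool) (X Y : DPM R) (f : c.A t) (φ : (trD R (D.U t)).obj X ⟶ Y) :
    f • φ = D.sm f φ := rfl

lemma fin (t : Cov Bool) (X Y : DPM R)
    (h : ∃ (n : ℕ) (g : Fin n → ((trD R (D.U t)).obj X ⟶ Y)),
      ∀ h : (trD R (D.U t)).obj X ⟶ Y, ∃ a : Fin n → c.A t, h = ∑ i, D.sm (a i) (g i)) :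
    Module.Finite (c.A t) ((trD R (D.U t)).obj X ⟶ Y) := by
  obtain ⟨n, g, hg⟩ := h
  refine Module.Finite.of_surjective (Fintype.linearCombination (c.A t) g) ?_
  intro x
  obtain ⟨a, ha⟩ := hg x
  refine ⟨a, ?_⟩
  rw [Fintype.linearCombination_apply, ha]
  rfl

/-- composition with an endomorphism, as a linear map -/
noncomputable def pre (t : Cov Bool) (X Y : DPM R)
    (α : (trD R (D.U t)).obj X ⟶ (trD R (D.U t)).obj X) :
    ((trD R (D.U t)).obj X ⟶ Y) →ₗ[c.A t] ((trD R (D.U t)).obj X ⟶ Y) where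
  toFun φ := α ≫ φ
  map_add' _ _ := Preadditive.comp_add _ _ _ _ _ _
  map_smul' f φ := D.comp_sm f α φ

/-- restriction as an additive map -/
noncomputable def rs' {t t' : Cov Bool} (h : t' ≤ t) (X Y : DPM R) :
    ((trD R (D.U t)).obj X ⟶ Y) →+ ((trD R (D.U t')).obj X ⟶ Y) :=
  AddMonoidHom.mk' (D.rst h) (D.rst_add h)

lemma hat_rst {t t' : Cov Bool} (h : t' ≤ t) {X Y : DPM R} (u : (trD R (D.U t)).obj X ⟶ Y) :
    hat (le_refl _) (D.rst h u) ≫ (trDLE R (D.U_mono h)).app Y =
      (trDLE R (D.U_mono h)).app X ≫ hat (le_refl _) u := by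
  apply trD_hom_ext (D.U_mono h)
  rw [Category.assoc, trDLE_trDι_app, hat_ι, Category.assoc, hat_ι]
  rfl

end

end TOM_

open TOM_

attribute [local instance] modA

theorem tom_proof (hTOR : Stmt_TOR) : Stmt_TOM := by
  intro K _ _ c C _ R D P hloc hfg f u v hnot hf
  have hfa := fin D ca P P (hfg ca (Or.inl rfl))
  have hfb := fin D cb P P (hfg cb (Or.inr rfl))
  have hact : (D.act cab f).app P =
      hat (le_refl _) (D.rst (cab_le ca) u) - hat (le_refl _) (D.rst (cab_le cb) v) := by
    apply trD_hom_ext (le_refl _)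
    rw [Preadditive.sub_comp, hat_ι, hat_ι]
    exact hf
  exact hTOR K c ((trD R (D.U ca)).obj P ⟶ P) ((trD R (D.U cb)).obj P ⟶ P)
    ((trD R (D.U cab)).obj P ⟶ P) (rs' D (cab_le ca) P P) (rs' D (cab_le cb) P P)
    (fun f m => D.rst_sm _ f m) (fun f m => D.rst_sm _ f m)
    (fun x => (hloc ca).1 x) (fun x => (hloc cb).1 x)
    (pre D ca P P (hat (le_refl _) u)) (pre D cb P P (hat (le_refl _) v))
    (pre D cab P P (hat (le_refl _) (D.rst (cab_le ca) u)))
    (pre D cab P P (hat (le_refl _) (D.rst (cab_le cb) v)))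
    (fun m => by
      change hat (le_refl _) (D.rst (cab_le ca) u) ≫ (trDLE R (D.U_mono (cab_le ca))).app P ≫ m =
        (trDLE R (D.U_mono (cab_le ca))).app P ≫ hat (le_refl _) u ≫ m
      rw [← Category.assoc, hat_rst, Category.assoc])
    (fun m => by
      change hat (le_refl _) (D.rst (cab_le cb) v) ≫ (trDLE R (D.U_mono (cab_le cb))).app P ≫ m =
        (trDLE R (D.U_mono (cab_le cb))).app P ≫ hat (le_refl _) v ≫ m
      rw [← Category.assoc, hat_rst, Category.assoc])
    f (fun x => by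
      change (D.act cab f).app P ≫ x = hat (le_refl _) (D.rst (cab_le ca) u) ≫ x -
        hat (le_refl _) (D.rst (cab_le cb) v) ≫ x
      rw [hact, Preadditive.sub_comp])
    hnot (D.io cab P)

end Pool.CRD.D1
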