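import Pool.Agent.CRD.D1.Stmts

/-!
# CRD / D1 / TOR: torsion from the action of `H^1(O)`
-/

open CategoryTheory Opposite Limits Pretriangulated TensorProduct

namespace Pool.CRD.D1

namespace TOR_

section

variable {A Aa : Type} [CommRing A] [CommRing Aa] (r : Aa →+* A)
  {Ma N : Type 1} [AddCommGroup Ma] [AddCommGroup N] [Module Aa Ma] [Module A N]
  [Module.Finite Aa Ma] (ra : Ma →+ N) (hra : ∀ (f : Aa) (m : Ma), ra (f • m) = r f • ra m)
  (w : A) (hw : IsUnit w) (la : ∀ x : N, ∃ (n : ℕ) (m : Ma), w ^ n • x = ra m)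

include hra hw la

theorem fin : Module.Finite A N := by
  classical
  obtain ⟨s, hs⟩ := Module.Finite.fg_top (R := Aa) (M := Ma)
  refine ⟨⟨s.image ra, ?_⟩⟩
  rw [eq_top_iff]
  rintro x -
  obtain ⟨n, m, hm⟩ := la x
  have h1 : ∀ m ∈ Submodule.span Aa (s : Set Ma),
      ra m ∈ Submodule.span A ((s.image ra : Finset N) : Set N) := by
    intro m hm
    induction hm using Submodule.span_induction with
    | mem y hy =>
      refine Submodule.subset_span ?_
      exact_mod_cast Finset.mem_image_of_mem ra hy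
    | zero =>
      rw [map_zero]
      exact zero_mem _
    | add y z _ _ hy hz =>
      rw [map_add]
      exact add_mem hy hz
    | smul a y _ hy =>
      rw [hra]
      exact Submodule.smul_mem _ _ hy
  have h2 : w ^ n • x ∈ Submodule.span A ((s.image ra : Finset N) : Set N) := by
    rw [hm]
    refine h1 m ?_
    rw [hs]
    trivial
  obtain ⟨v, hv⟩ := hw.pow n
  have h3 := Submodule.smul_mem _ ((v⁻¹ : Aˣ) : A) h2
  rwa [← hv, smul_smul, Units.inv_mul, one_smul] at h3

theorem pol (u : Ma →ₗ[Aa] Ma) (u' : N →ₗ[A] N) (hu : ∀ m, u' (ra m) = ra (u m))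
    (p : Polynomial Aa) (hp : Polynomial.aeval u p = 0) :
    Polynomial.aeval u' (p.map r) = 0 := by
  have hpow : ∀ (n : ℕ) (m : Ma), (u' ^ n) (ra m) = ra ((u ^ n) m) := by
    intro n
    induction n with
    | zero => intro m; rfl
    | succ n ih =>
      intro m
      rw [pow_succ, pow_succ, Module.End.mul_apply, Module.End.mul_apply, hu, ih]
  have h1 : ∀ (q : Polynomial Aa) (m : Ma),
      Polynomial.aeval u' (q.map r) (ra m) = ra (Polynomial.aeval u q m) := by
    intro q m
    induction q using Polynomial.induction_on' with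
    | add q q' hq hq' =>
      rw [Polynomial.map_add, map_add, map_add, LinearMap.add_apply, LinearMap.add_apply, map_add,
        hq, hq']
    | monomial n a =>
      rw [Polynomial.map_monomial, Polynomial.aeval_monomial, Polynomial.aeval_monomial,
        Module.End.mul_apply, Module.End.mul_apply, hpow, Module.algebraMap_end_apply,
        Module.algebraMap_end_apply, hra]
  refine LinearMap.ext fun x => ?_
  obtain ⟨n, m, hm⟩ := la x
  have h2 : w ^ n • (Polynomial.aeval u' (p.map r) x) = 0 := by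
    rw [← map_smul, hm, h1, hp, LinearMap.zero_apply, map_zero]
  exact (hw.pow n).smul_eq_zero.1 h2

theorem integ (hTRC : Stmt_TRC) {F : Type} [Field F] [Algebra A F] [Algebra Aa F] [IsDomain Aa]
    [IsIntegrallyClosed Aa] [IsFractionRing Aa F]
    (hr : ∀ x, algebraMap A F (r x) = algebraMap Aa F x)
    (u : Ma →ₗ[Aa] Ma) (u' : N →ₗ[A] N) (hu : ∀ m, u' (ra m) = ra (u m))
    [Module.Finite F (F ⊗[A] N)] :
    ∃ a : Aa, algebraMap Aa F a = LinearMap.trace F (F ⊗[A] N) (u'.baseChange F) := by
  obtain ⟨p, hp, hpu⟩ : IsIntegral Aa u := Algebra.IsIntegral.isIntegral u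
  refine hTRC Aa F (F ⊗[A] N) (u'.baseChange F) p hp ?_
  have h1 := pol r ra hra w hw la u u' hu p hpu
  have h2 : Polynomial.aeval (u'.baseChange F) (p.map r) = 0 := by
    have h3 := Polynomial.aeval_algHom_apply (Module.End.baseChangeHom A F N) u' (p.map r)
    rw [h1, map_zero] at h3
    exact h3
  have h3 : p.map (algebraMap Aa F) = (p.map r).map (algebraMap A F) := by
    rw [Polynomial.map_map]
    congr 1
    exact RingHom.ext fun x => (hr x).symm
  rw [h3, Polynomial.aeval_map_algebraMap]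
  exact h2

end

end TOR_

open TOR_

theorem tor_proof (hTRC : Stmt_TRC) : Stmt_TOR := by
  intro K _ _ c Ma Mb N _ _ _ _ _ _ _ _ ra rb hra hrb la lb u v u' v' hu hv f hf hnot
  have hfin : Module.Finite (c.A cab) N := fin (c.res (cab_le ca)).toRingHom ra hra
    (c.res (cab_le ca) (c.vt ca)) (c.isUnit_res_vt ca) la
  obtain ⟨a, ha⟩ := integ (c.res (cab_le ca)).toRingHom ra hra
    (c.res (cab_le ca) (c.vt ca)) (c.isUnit_res_vt ca) la hTRC (F := c.F) (fun x => rfl) u u' hu
  obtain ⟨b, hb⟩ := integ (c.res (cab_le cb)).toRingHom rb hrb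
    (c.res (cab_le cb) (c.vt cb)) (c.isUnit_res_vt cb) lb hTRC (F := c.F) (fun x => rfl) v v' hv
  have h1 : (f : c.F) * Module.finrank c.F (c.F ⊗[c.A cab] N) = (a : c.F) - (b : c.F) := by
    have h2 : u'.baseChange c.F - v'.baseChange c.F =
        (f : c.F) • (LinearMap.id : (c.F ⊗[c.A cab] N) →ₗ[c.F] (c.F ⊗[c.A cab] N)) := by
      rw [← LinearMap.baseChange_sub]
      have h3 : u' - v' = f • LinearMap.id := LinearMap.ext fun x => (hf x).symm
      rw [h3, LinearMap.baseChange_smul, LinearMap.baseChange_id]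
      rfl
    have h3 := congrArg (LinearMap.trace c.F (c.F ⊗[c.A cab] N)) h2
    have h4 := (LinearMap.trace c.F (c.F ⊗[c.A cab] N)).map_sub (u'.baseChange c.F)
      (v'.baseChange c.F)
    have h5 := (LinearMap.trace c.F (c.F ⊗[c.A cab] N)).map_smul (f : c.F) LinearMap.id
    have h6 := (LinearMap.trace_id c.F (c.F ⊗[c.A cab] N))
    have h7 : (f : c.F) * Module.finrank c.F (c.F ⊗[c.A cab] N) =
        LinearMap.trace c.F (c.F ⊗[c.A cab] N) ((f : c.F) • LinearMap.id) := by
      rw [h5, h6, smul_eq_mul]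
    rw [h7, ← h3, h4, ← ha, ← hb]
    rfl
  have h2 : Module.finrank c.F (c.F ⊗[c.A cab] N) = 0 := by
    by_contra hne
    apply hnot
    have hcz : CharZero c.F := charZero_of_injective_algebraMap (algebraMap K c.F).injective
    have hne' : (Module.finrank c.F (c.F ⊗[c.A cab] N) : c.F) ≠ 0 := by exact_mod_cast hne
    have hneK : (Module.finrank c.F (c.F ⊗[c.A cab] N) : K) ≠ 0 := by exact_mod_cast hne
    have h3 : (f : c.F) = ((Module.finrank c.F (c.F ⊗[c.A cab] N) : K)⁻¹) • ((a : c.F) - (b : c.F)) := by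
      rw [← h1, Algebra.smul_def, map_inv₀, map_natCast]
      field_simp
    rw [h3, smul_sub]
    refine sub_mem (Submodule.smul_mem _ _ ?_) (Submodule.smul_mem _ _ ?_)
    · exact Submodule.mem_sup_left a.2
    · exact Submodule.mem_sup_right b.2
  have h3 : Subsingleton (c.F ⊗[c.A cab] N) := Module.finrank_zero_iff.1 h2
  intro x
  have h4 : IsLocalizedModule (nonZeroDivisors (c.A cab))
      (TensorProduct.mk (c.A cab) c.F N 1) :=
    (isLocalizedModule_iff_isBaseChange (nonZeroDivisors (c.A cab)) c.F _).2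
      (TensorProduct.isBaseChange (c.A cab) N c.F)
  have h5 : (TensorProduct.mk (c.A cab) c.F N 1) x = 0 := Subsingleton.elim _ _
  obtain ⟨g, hg⟩ := (IsLocalizedModule.eq_zero_iff (nonZeroDivisors (c.A cab))
    (TensorProduct.mk (c.A cab) c.F N 1)).1 h5
  exact ⟨g.1, nonZeroDivisors.ne_zero g.2, hg⟩

end Pool.CRD.D1
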