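import Pool.Agent.CRD.D1.Stmts

/-!
# CRD / D1 / TRC: the trace of an endomorphism which is integral over an integrally closed ring
-/

open CategoryTheory Opposite Limits Pretriangulated

namespace Pool.CRD.D1

theorem trc_proof : Stmt_TRC := by
  classical
  intro A F _ _ _ _ _ _ V _ _ _ T p hp hT
  set L := AlgebraicClosure F with hL
  set b := Module.finBasis F V with hb
  set M : Matrix (Fin (Module.finrank F V)) (Fin (Module.finrank F V)) F :=
    LinearMap.toMatrix b b T with hM
  -- the polynomial kills the matrix
  have h1 : Polynomial.aeval M (p.map (algebraMap A F)) = 0 := by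
    have h2 := congrArg (LinearMap.toMatrixAlgEquiv b) hT
    rw [map_zero] at h2
    have h3 := Polynomial.aeval_algHom_apply (LinearMap.toMatrixAlgEquiv b).toAlgHom T
      (p.map (algebraMap A F))
    have h4 : (LinearMap.toMatrixAlgEquiv b) T = M := rfl
    exact h3.trans h2
  set ML : Matrix (Fin (Module.finrank F V)) (Fin (Module.finrank F V)) L :=
    M.map (algebraMap F L) with hML
  have h2 : Polynomial.aeval ML ((p.map (algebraMap A F)).map (algebraMap F L)) = 0 := by
    have h3 := Polynomial.aeval_algHom_apply ((Algebra.ofId F L).mapMatrix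
      (m := Fin (Module.finrank F V))) M (p.map (algebraMap A F))
    have h4 : ((Algebra.ofId F L).mapMatrix (m := Fin (Module.finrank F V))) M = ML := rfl
    rw [h4, h1, map_zero] at h3
    rw [Polynomial.aeval_map_algebraMap]
    exact h3
  -- the eigenvalues are integral
  have h3 : ∀ μ ∈ ML.charpoly.roots, IsIntegral A μ := by
    intro μ hμ
    have h4 : μ ∈ spectrum L ML :=
      Matrix.mem_spectrum_of_isRoot_charpoly (Polynomial.isRoot_of_mem_roots hμ)
    have hn : Nonempty (Fin (Module.finrank F V)) := by
      by_contra hcon
      rw [not_nonempty_iff] at hcon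
      have : ML.charpoly = 1 := Matrix.charpoly_isEmpty
      rw [this, Polynomial.roots_one] at hμ
      simp at hμ
    have hnt : Nontrivial (Matrix (Fin (Module.finrank F V)) (Fin (Module.finrank F V)) L) :=
      inferInstance
    have h5 : Polynomial.eval μ ((p.map (algebraMap A F)).map (algebraMap F L)) ∈
        spectrum L (Polynomial.aeval ML ((p.map (algebraMap A F)).map (algebraMap F L))) :=
      spectrum.subset_polynomial_aeval ML _ ⟨μ, h4, rfl⟩
    rw [h2, spectrum.zero_eq, Set.mem_singleton_iff] at h5
    refine ⟨p, hp, ?_⟩
    rw [Polynomial.eval_map, Polynomial.eval₂_map] at h5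
    rw [IsScalarTower.algebraMap_eq A F L]
    exact h5
  have h4 : ML.trace = algebraMap F L (LinearMap.trace F V T) := by
    rw [LinearMap.trace_eq_matrix_trace F b T, Matrix.trace, Matrix.trace, map_sum]
    rfl
  have h5 : IsIntegral A (algebraMap F L (LinearMap.trace F V T)) := by
    rw [← h4, Matrix.trace_eq_sum_roots_charpoly]
    exact IsIntegral.multiset_sum h3
  have h6 : IsIntegral A (LinearMap.trace F V T) :=
    (isIntegral_algebraMap_iff (algebraMap F L).injective).1 h5
  exact IsIntegrallyClosed.isIntegral_iff.1 h6

end Pool.CRD.D1
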